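import Pool.Agent.Lib.ETR.BilinComplete
import Pool.Agent.Lib.MP_0f8b55_lc.PhaseA

set_option autoImplicit false
set_option linter.unusedSimpArgs false

/-!
# The comparisons of a system of constraints
-/

namespace Pool.Agent.Lib.ETR

open Pool.Agent.Lib.MP_0f8b55_lc (Con Fml Tok consOf phaseA_sound phaseA_complete consOf_dist)

theorem length_le_flatMap {α β : Type} {l : List α} {f : α → List β} {a : α} (h : a ∈ l) :
    (f a).length ≤ (l.flatMap f).length := by
  induction l with
  | nil => simp at h
  | cons b l ih =>
    rw [List.flatMap_cons, List.length_append]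
    rcases List.mem_cons.mp h with rfl | h
    · omega
    · have := ih h
      omega

/-- a number above all identifiers -/
def nOf (E : List Con) : ℕ :=
  (E.flatMap (fun e => List.range (e.2.1 + e.2.2.1 + e.2.2.2 + 1))).length + 2

theorem below_nOf (E : List Con) : Below (nOf E) E := by
  intro e he
  have h1 := length_le_flatMap (f := fun e : Con => List.range (e.2.1 + e.2.2.1 + e.2.2.2 + 1)) he
  rw [List.length_range] at h1
  simp only [nOf]
  omega

/-- the comparisons of a system -/
def bilOf (E : List Con) : List BCon := bil (nOf E) (k0 (nOf E) E.length) (k1 (nOf E) + 4) E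

theorem bilOf_dist (l : List Tok) : ∀ k ∈ bilOf (consOf l), BCon.dist k :=
  bil_dist (consOf_dist _)

theorem bilOf_iff (φ : Fml) : (∃ x : ℕ → ℝ, φ.Holds x) ↔ BSolvable (bilOf (consOf φ.toks)) := by
  rw [bilOf, ← bil_iff (by simp [nOf]) (below_nOf _)]
  constructor
  · exact phaseA_complete φ
  · rintro ⟨x, h1, hx⟩
    exact phaseA_sound φ ⟨x, by rw [h1]; exact one_ne_zero, hx⟩

end Pool.Agent.Lib.ETR
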