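import Pool.Agent.Lib.ETR.BilOf
import Pool.Agent.Lib.MP_0f8b55_lc.PTProofs

set_option autoImplicit false
set_option linter.unusedSimpArgs false

/-!
# The comparisons of a system are computed in polynomial time
-/

namespace Pool.Agent.Lib.ETR

open Pool.Agent.Lib.PolyTime
open Pool.Agent.Lib.MP_0f8b55_lc (Con Fml Tok consOf pt_consOf)

variable {α : Type} [Enc α]

/-! ### Comparisons -/

theorem pt_bc {f1 f2 f3 f4 f5 f6 : α → ℕ} (h1 : PT f1) (h2 : PT f2) (h3 : PT f3) (h4 : PT f4)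
    (h5 : PT f5) (h6 : PT f6) (s : Bool) :
    PT (fun a => (((f1 a, f2 a), (f3 a, f4 a), (f5 a, f6 a), s) : BCon)) :=
  (h1.pair h2).pair ((h3.pair h4).pair ((h5.pair h6).pair (PT.const s)))

theorem pt_vT {f : α → ℕ} (hf : PT f) : PT (fun a => vT (f a)) := PT.mulConst hf 8
theorem pt_vU {f : α → ℕ} (hf : PT f) : PT (fun a => vU (f a)) := (PT.mulConst hf 8).addConst 1
theorem pt_vX {f : α → ℕ} (hf : PT f) : PT (fun a => vX (f a)) := (PT.mulConst hf 8).addConst 2
theorem pt_vA {f : α → ℕ} (hf : PT f) : PT (fun a => vA (f a)) := (PT.mulConst hf 8).addConst 3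
theorem pt_vB {f : α → ℕ} (hf : PT f) : PT (fun a => vB (f a)) := (PT.mulConst hf 8).addConst 4
theorem pt_vC {f : α → ℕ} (hf : PT f) : PT (fun a => vC (f a)) := (PT.mulConst hf 8).addConst 5

theorem pt_bsm {f g : α → ℕ} (hf : PT f) (hg : PT g) : PT (fun a => bsm (f a) (g a)) :=
  pt_bc hf (PT.const 0) (PT.const vw) (PT.const 0) hg (PT.const 0) false

theorem pt_blk {f : α → ℕ} (hf : PT f) : PT (fun a => blk (f a)) :=
  PT.cons (pt_bc hf (PT.const 0) (PT.const vw) (PT.const 0) (PT.const vI) (hf.addConst 2) false)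
    (PT.cons (pt_bc (PT.const vI) (hf.addConst 2) (PT.const vw) (PT.const 0) hf (PT.const 1) false)
      (PT.const []))

theorem pt_beq {f g h : α → ℕ} (hf : PT f) (hg : PT g) (hh : PT h) :
    PT (fun a => beq (f a) (g a) (h a)) :=
  PT.cons (pt_bc hg (PT.const 0) hh (PT.const 0) hf (PT.const 1) false)
    (PT.cons (pt_bc hg (PT.const 1) hh (PT.const 1) hf (PT.const 0) true) (PT.const []))

theorem pt_bem {e a b c d : α → ℕ} (he : PT e) (ha : PT a) (hb : PT b) (hc : PT c) (hd : PT d) :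
    PT (fun x => bem (e x) (a x) (b x) (c x) (d x)) :=
  PT.cons (pt_bc ha (hb.addConst 2) hc (hd.addConst 2) he (PT.const 1) false)
    (PT.cons (pt_bc ha (hb.addConst 2) hc (hd.addConst 2) he (PT.const 0) true) (PT.const []))

theorem pt_bsq {f g : α → ℕ} (hf : PT f) (hg : PT g) : PT (fun a => bsq (f a) (g a)) :=
  PT.append (pt_blk hf) (PT.cons (pt_bc hf (hf.addConst 2) (PT.const vw) (PT.const 0) hg
    (PT.const 0) false) (PT.const []))

theorem pt_bcon : PT bcon := by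
  have hκ : PT (fun q : Con × ℕ => q.2) := PT.snd
  have ha : PT (fun q : Con × ℕ => q.1.2.1) := PT.fst.snd'.fst'
  have hb : PT (fun q : Con × ℕ => q.1.2.2.1) := PT.fst.snd'.snd'.fst'
  have hc : PT (fun q : Con × ℕ => q.1.2.2.2) := PT.fst.snd'.snd'.snd'
  have hG : PT (fun _ : Con × ℕ => vG) := PT.const vG
  refine (PT.cond (c := fun q : Con × ℕ => q.1.1)
    (f := fun q => bem (vA q.2) (vX q.1.2.1) (vX q.1.2.2.1) vG vG ++ (beq (vB q.2) (vA q.2) vG ++
      (bem (vC q.2) (vX q.1.2.1) vG (vX q.1.2.2.1) vG ++ beq (vB q.2) (vC q.2) (vX q.1.2.2.2))))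
    (g := fun q => beq (vA q.2) (vX q.1.2.1) (vX q.1.2.2.1) ++ beq (vA q.2) (vX q.1.2.2.2) vG)
    PT.fst.fst' ?_ ?_).congr ?_
  · exact PT.append (pt_bem (pt_vA hκ) (pt_vX ha) (pt_vX hb) hG hG)
      (PT.append (pt_beq (pt_vB hκ) (pt_vA hκ) hG)
        (PT.append (pt_bem (pt_vC hκ) (pt_vX ha) hG (pt_vX hb) hG)
          (pt_beq (pt_vB hκ) (pt_vC hκ) (pt_vX hc))))
  · exact PT.append (pt_beq (pt_vA hκ) (pt_vX ha) (pt_vX hb)) (pt_beq (pt_vA hκ) (pt_vX hc) hG)
  · rintro ⟨⟨t, a, b, c⟩, κ⟩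
    cases t <;> rfl

theorem pt_nOf : PT nOf :=
  (PT.length (PT.flatMap (g := fun (_ : List Con) (e : Con) =>
    List.range (e.2.1 + e.2.2.1 + e.2.2.2 + 1)) PT.id (PT.range
      (((PT.snd.snd'.fst'.add PT.snd.snd'.snd'.fst').add PT.snd.snd'.snd'.snd').addConst
        1)))).addConst 2

theorem pt_bilOf : PT bilOf := by
  have hn : PT (fun E : List Con => nOf E) := pt_nOf
  have hl : PT (fun E : List Con => E.length) := PT.length PT.id
  have hk0 : PT (fun E : List Con => k0 (nOf E) E.length) :=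
    (((PT.mulConst hn 4).add hl).addConst 10)
  have hk1 : PT (fun E : List Con => k1 (nOf E) + 4) :=
    (((PT.mulConst hn 3).addConst 4).addConst 4)
  have c : ∀ k : ℕ, PT (fun _ : List Con => k) := fun k => PT.const k
  refine PT.append ?_ (PT.append ?_ (PT.append ?_ (PT.append ?_ (PT.append ?_
    (PT.append ?_ ?_)))))
  · exact PT.cons (PT.const _) (PT.cons (PT.const _) (PT.cons (pt_bsm (pt_vT hk0) (c vG))
      (PT.cons (PT.const _) (PT.cons
        (pt_bc (pt_vU hk1) (c 1) (c vw) (c 0) (c vL) (c 0) false)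
        (PT.cons (pt_bc (pt_vU hk1) (c 0) (c vI) (c 0) (c vL) (c 0) true) (PT.const []))))))
  · exact PT.flatMap (g := fun (_ : List Con) (i : ℕ) => bsq (vT i) (vT (i + 1))) (PT.range hk0)
      (pt_bsq (pt_vT PT.snd) (pt_vT (PT.snd.addConst 1)))
  · exact PT.flatMap (g := fun (_ : List Con) (i : ℕ) => bsq (vU i) (vU (i + 1))) (PT.range hk1)
      (pt_bsq (pt_vU PT.snd) (pt_vU (PT.snd.addConst 1)))
  · exact PT.const _
  · exact PT.const _
  · refine PT.flatMap (g := fun (_ : List Con) (i : ℕ) => bvar i) (PT.range hn) ?_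
    exact PT.append (pt_blk (pt_vX PT.snd)) (PT.cons (pt_bsm (pt_vX PT.snd) (PT.const _))
      (PT.const []))
  · exact PT.flatMap (g := fun (_ : List Con) (q : Con × ℕ) => bcon q) (PT.zipIdx PT.id)
      (pt_bcon.comp PT.snd)

end Pool.Agent.Lib.ETR
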