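import Pool.Agent.Lib.ETR.GapBound

set_option autoImplicit false
set_option linter.unusedSectionVars false

/-!
# Strict comparisons of sums of products of positive numbers

The unknowns are positive numbers `x 0, x 1, …` and `y 0, y 1, …`.
-/

namespace Pool.Agent.Lib.ETR

open Pool.Agent.Lib.MP_0f8b55_lc (Con)

/-- A comparison `((a, b), (c, d), (e, f), s)`. -/
abbrev BCon : Type := (ℕ × ℕ) × (ℕ × ℕ) × (ℕ × ℕ) × Bool

/-- `x_a y_b + x_c y_d < x_e y_f`, or `x_a y_b < x_e y_f < x_a y_b + x_c y_d`. -/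
def BCon.holds (x y : ℕ → ℝ) : BCon → Prop
  | (p, q, r, false) => x p.1 * y p.2 + x q.1 * y q.2 < x r.1 * y r.2
  | (p, q, r, true) => x p.1 * y p.2 < x r.1 * y r.2 ∧ x r.1 * y r.2 < x p.1 * y p.2 + x q.1 * y q.2

/-- The three indices of `x` are distinct. -/
def BCon.dist (k : BCon) : Prop := k.1.1 ≠ k.2.1.1 ∧ k.1.1 ≠ k.2.2.1.1 ∧ k.2.1.1 ≠ k.2.2.1.1

/-- Solvability in positive numbers. -/
def BSolvable (L : List BCon) : Prop :=
  ∃ x y : ℕ → ℝ, (∀ i, 0 < x i) ∧ (∀ j, 0 < y j) ∧ ∀ k ∈ L, k.holds x y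

/-! ### The comparisons of a system -/

/-- names of unknowns -/
def vT (i : ℕ) : ℕ := 8 * i
/-- names of unknowns -/
def vU (i : ℕ) : ℕ := 8 * i + 1
/-- names of unknowns -/
def vX (i : ℕ) : ℕ := 8 * i + 2
/-- names of unknowns -/
def vA (i : ℕ) : ℕ := 8 * i + 3
/-- names of unknowns -/
def vB (i : ℕ) : ℕ := 8 * i + 4
/-- names of unknowns -/
def vC (i : ℕ) : ℕ := 8 * i + 5
/-- the unit -/
def vI : ℕ := 6
/-- the small number -/
def vw : ℕ := 14
/-- a number between 1 and 2 -/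
def vv : ℕ := 22
/-- the shift -/
def vG : ℕ := 30
/-- the last number -/
def vL : ℕ := 38

/-- `a < b` -/
def bsm (a b : ℕ) : BCon := ((a, 0), (vw, 0), (b, 0), false)

/-- the copy of `v` among the `y` is slightly larger than `v` -/
def blk (v : ℕ) : List BCon :=
  [((v, 0), (vw, 0), (vI, v + 2), false), ((vI, v + 2), (vw, 0), (v, 1), false)]

/-- `e ≈ a + c` -/
def beq (e a c : ℕ) : List BCon :=
  [((a, 0), (c, 0), (e, 1), false), ((a, 1), (c, 1), (e, 0), true)]

/-- `e ≈ a * b + c * d` -/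
def bem (e a b c d : ℕ) : List BCon :=
  [((a, b + 2), (c, d + 2), (e, 1), false), ((a, b + 2), (c, d + 2), (e, 0), true)]

/-- `b > a * a` -/
def bsq (a b : ℕ) : List BCon := blk a ++ [((a, a + 2), (vw, 0), (b, 0), false)]

/-- the comparisons of a constraint -/
def bcon : Con × ℕ → List BCon
  | ((false, a, b, c), κ) => beq (vA κ) (vX a) (vX b) ++ beq (vA κ) (vX c) vG
  | ((true, a, b, c), κ) => bem (vA κ) (vX a) (vX b) vG vG ++ (beq (vB κ) (vA κ) vG ++
      (bem (vC κ) (vX a) vG (vX b) vG ++ beq (vB κ) (vC κ) (vX c)))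

/-- the comparisons of a variable -/
def bvar (a : ℕ) : List BCon := blk (vX a) ++ [bsm (vX a) (vU 0)]

/-- all comparisons, for `n` variables, with `k` and `l` squarings -/
def bil (n k l : ℕ) (E : List Con) : List BCon :=
  [bsm vI vv, ((vI, 0), (vv, 0), (vT 0, 0), false), bsm (vT k) vG, bsm vG (vU 0),
    ((vU l, 1), (vw, 0), (vL, 0), false), ((vU l, 0), (vI, 0), (vL, 0), true)] ++
  ((List.range k).flatMap (fun i => bsq (vT i) (vT (i + 1))) ++
  ((List.range l).flatMap (fun i => bsq (vU i) (vU (i + 1))) ++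
  (blk vG ++ (beq (vX 1) vI vG ++
  ((List.range n).flatMap bvar ++ E.zipIdx.flatMap bcon)))))

theorem bil_dist {n k l : ℕ} {E : List Con} (hE : ∀ e ∈ E, e.dist) :
    ∀ c ∈ bil n k l E, BCon.dist c := by
  intro c hc
  simp only [bil, List.mem_append, List.mem_cons, List.not_mem_nil, or_false, List.mem_flatMap] at hc
  rcases hc with (rfl | rfl | rfl | rfl | rfl | rfl) | ⟨i, -, hc⟩ | ⟨i, -, hc⟩ | hc | hc |
    ⟨i, -, hc⟩ | ⟨⟨e, κ⟩, he, hc⟩
  · simp only [BCon.dist, bsm, vI, vv, vw]; omega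
  · simp only [BCon.dist, vI, vv, vT]; omega
  · simp only [BCon.dist, bsm, vT, vG, vw]; omega
  · simp only [BCon.dist, bsm, vG, vU, vw]; omega
  · simp only [BCon.dist, vU, vL, vw]; omega
  · simp only [BCon.dist, vU, vL, vI]; omega
  · simp only [bsq, blk, List.mem_append, List.mem_cons, List.not_mem_nil, or_false] at hc
    rcases hc with (rfl | rfl) | rfl <;> simp only [BCon.dist, vT, vw, vI] <;> omega
  · simp only [bsq, blk, List.mem_append, List.mem_cons, List.not_mem_nil, or_false] at hc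
    rcases hc with (rfl | rfl) | rfl <;> simp only [BCon.dist, vU, vw, vI] <;> omega
  · simp only [blk, List.mem_cons, List.not_mem_nil, or_false] at hc
    rcases hc with rfl | rfl <;> simp only [BCon.dist, vG, vw, vI] <;> omega
  · simp only [beq, List.mem_cons, List.not_mem_nil, or_false] at hc
    rcases hc with rfl | rfl <;> simp only [BCon.dist, vG, vI, vX] <;> omega
  · simp only [bvar, bsm, blk, List.mem_append, List.mem_cons, List.not_mem_nil, or_false] at hc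
    rcases hc with (rfl | rfl) | rfl <;> simp only [BCon.dist, vX, vU, vw, vI] <;> omega
  · have hd := hE e (List.fst_mem_of_mem_zipIdx he)
    obtain ⟨t, a, b, c⟩ := e
    obtain ⟨h1, h2, h3⟩ := hd
    cases t
    · simp only [bcon, beq, List.mem_append, List.mem_cons, List.not_mem_nil, or_false] at hc
      rcases hc with (rfl | rfl) | rfl | rfl <;> simp only [BCon.dist, vX, vA, vG] <;> omega
    · simp only [bcon, beq, bem, List.mem_append, List.mem_cons, List.not_mem_nil, or_false] at hc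
      rcases hc with (rfl | rfl) | (rfl | rfl) | (rfl | rfl) | rfl | rfl <;>
        simp only [BCon.dist, vX, vA, vB, vC, vG] <;> omega

/-! ### Soundness -/

section Sound

variable {x y : ℕ → ℝ} (hx : ∀ i, 0 < x i) (hy : ∀ j, 0 < y j)

/-- the normalised value of an unknown -/
noncomputable def nv (x : ℕ → ℝ) (v : ℕ) : ℝ := x v / x vI

/-- the normalised value of the copy -/
noncomputable def ny (y : ℕ → ℝ) (v : ℕ) : ℝ := y v / y 0

include hx hy

theorem nv_pos (v : ℕ) : 0 < nv x v := div_pos (hx v) (hx _)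

theorem ny_pos (v : ℕ) : 0 < ny y v := div_pos (hy v) (hy _)

theorem nv_I : nv x vI = 1 := div_self (hx _).ne'

theorem ny_0 : ny y 0 = 1 := div_self (hy _).ne'

theorem holds_nv (k : BCon) (h : k.holds x y) : k.holds (nv x) (ny y) := by
  have hs : 0 < x vI * y 0 := mul_pos (hx _) (hy _)
  have key : ∀ p : ℕ × ℕ, nv x p.1 * ny y p.2 = x p.1 * y p.2 / (x vI * y 0) := by
    intro p
    unfold nv ny
    rw [div_mul_div_comm]
  obtain ⟨p, q, r, s⟩ := k
  cases s
  · simp only [BCon.holds, key] at h ⊢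
    rw [← add_div]
    exact div_lt_div_of_pos_right h hs
  · simp only [BCon.holds, key] at h ⊢
    rw [← add_div]
    exact ⟨div_lt_div_of_pos_right h.1 hs, div_lt_div_of_pos_right h.2 hs⟩

end Sound

/-- Positive solutions may be normalised. -/
theorem BSolvable.norm {L : List BCon} (h : BSolvable L) :
    ∃ x y : ℕ → ℝ, (∀ i, 0 < x i) ∧ (∀ j, 0 < y j) ∧ x vI = 1 ∧ y 0 = 1 ∧ ∀ k ∈ L, k.holds x y := by
  obtain ⟨x, y, hx, hy, h⟩ := h
  exact ⟨nv x, ny y, nv_pos hx hy, ny_pos hx hy, nv_I hx hy, ny_0 hx hy,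
    fun k hk => holds_nv hx hy k (h k hk)⟩

section Sound2

variable {x y : ℕ → ℝ} (hx : ∀ i, 0 < x i) (hI : x vI = 1) (h0 : y 0 = 1)

include hx hI h0

theorem bsm_lt {a b : ℕ} (h : (bsm a b).holds x y) : x a < x b := by
  simp only [bsm, BCon.holds, h0, mul_one] at h
  have := hx vw
  linarith

theorem blk_lt {v : ℕ} (h : ∀ k ∈ blk v, k.holds x y) :
    x v < y (v + 2) ∧ y (v + 2) < x v * y 1 := by
  simp only [blk, List.mem_cons, List.not_mem_nil, or_false, forall_eq_or_imp, forall_eq,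
    BCon.holds, h0, hI, mul_one, one_mul] at h
  have := hx vw
  constructor <;> linarith [h.1, h.2]

theorem bsq_lt {a b : ℕ} (h : ∀ k ∈ bsq a b, k.holds x y) : x a ^ 2 < x b := by
  have h1 := blk_lt hx hI h0 (v := a) (fun k hk => h k (List.mem_append_left _ hk))
  have h2 := h _ (List.mem_append_right _ (List.mem_singleton_self _))
  simp only [BCon.holds, h0, mul_one] at h2
  have := hx vw
  have h3 := hx a
  nlinarith [h1.1]

theorem beq_err {e a c : ℕ} {ρ : ℝ} (hρ : y 1 = 1 + ρ) (hρ0 : 0 < ρ) (hρ1 : ρ ≤ 1)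
    (h : ∀ k ∈ beq e a c, k.holds x y) :
    |x e - (x a + x c)| ≤ 2 * ρ * (x a + x c) ∧ x e ≤ 2 * (x a + x c) := by
  simp only [beq, List.mem_cons, List.not_mem_nil, or_false, forall_eq_or_imp, forall_eq,
    BCon.holds, h0, hρ, mul_one] at h
  obtain ⟨h1, -, h3⟩ := h
  have ha := hx a
  have hc := hx c
  have he := hx e
  have h4 : x e ≤ 2 * (x a + x c) := by nlinarith
  refine ⟨?_, h4⟩
  rw [abs_le]
  constructor <;> nlinarith

theorem bem_err {e a b c d : ℕ} {ρ : ℝ} (hρ : y 1 = 1 + ρ) (hρ0 : 0 < ρ) (hρ1 : ρ ≤ 1)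
    (hb : ∀ k ∈ blk b, k.holds x y) (hd : ∀ k ∈ blk d, k.holds x y)
    (h : ∀ k ∈ bem e a b c d, k.holds x y) :
    |x e - (x a * x b + x c * x d)| ≤ 2 * ρ * (x a * x b + x c * x d) ∧
      x e ≤ 2 * (x a * x b + x c * x d) := by
  have hb' := blk_lt hx hI h0 hb
  have hd' := blk_lt hx hI h0 hd
  rw [hρ] at hb' hd'
  simp only [bem, List.mem_cons, List.not_mem_nil, or_false, forall_eq_or_imp, forall_eq,
    BCon.holds, h0, hρ, mul_one] at h
  obtain ⟨h1, -, h3⟩ := h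
  have ha := hx a
  have hc := hx c
  have he := hx e
  have hb0 := hx b
  have hd0 := hx d
  have m1 : x a * x b < x a * y (b + 2) := mul_lt_mul_of_pos_left hb'.1 ha
  have m2 : x c * x d < x c * y (d + 2) := mul_lt_mul_of_pos_left hd'.1 hc
  have m3 : x a * y (b + 2) < x a * (x b * (1 + ρ)) := mul_lt_mul_of_pos_left hb'.2 ha
  have m4 : x c * y (d + 2) < x c * (x d * (1 + ρ)) := mul_lt_mul_of_pos_left hd'.2 hc
  set S := x a * x b + x c * x d with hS
  have hS0 : 0 < S := by positivity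
  have h5 : x e < S * (1 + ρ) := by rw [hS]; linarith
  have h6 : S < x e * (1 + ρ) := by linarith
  have h4 : x e ≤ 2 * S := by nlinarith
  refine ⟨?_, h4⟩
  rw [abs_le]
  constructor <;> nlinarith

end Sound2

theorem chain_le {a : ℕ → ℝ} {m : ℕ} (h0 : 1 ≤ a 0) (h : ∀ i < m, a i ^ 2 < a (i + 1)) :
    ∀ i ≤ m, a 0 ^ 2 ^ i ≤ a i := by
  intro i
  induction i with
  | zero => intro _; simp
  | succ i ih =>
    intro hi
    have h1 := ih (by omega)
    have h2 := h i (by omega)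
    calc a 0 ^ 2 ^ (i + 1) = (a 0 ^ 2 ^ i) ^ 2 := by rw [← pow_mul, ← pow_succ]
      _ ≤ a i ^ 2 := pow_le_pow_left₀ (by positivity) h1 2
      _ ≤ a (i + 1) := h2.le

theorem aux_pos {G r : ℝ} (hG : 0 < G) (h : G < G * (1 + r)) : 0 < r := by nlinarith

theorem aux_le_one {r U : ℝ} (hr : 0 < r) (hU : 1 ≤ U) (h : r * U < 1) : r ≤ 1 := by nlinarith

theorem aux_self_le_sq {B : ℝ} (hB : 1 ≤ B) : B ≤ B ^ 2 := by nlinarith

theorem aux_28 {r S B : ℝ} (hr : 0 ≤ r) (hS : S ≤ 2 * B ^ 2) : 2 * r * S ≤ 28 * r * B ^ 2 := by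
  have h1 : 2 * r * S ≤ 2 * r * (2 * B ^ 2) := mul_le_mul_of_nonneg_left hS (by linarith)
  have h2 : 0 ≤ r * B ^ 2 := mul_nonneg hr (sq_nonneg B)
  linarith

theorem aux_S1 {p q G B : ℝ} (hp0 : 0 < p) (hG0 : 0 < G) (hp : p ≤ B) (hq : q ≤ B) (hG : G ≤ B) :
    p * q + G * G ≤ 2 * B ^ 2 := by
  have h1 : p * q ≤ p * B := mul_le_mul_of_nonneg_left hq hp0.le
  have h2 : p * B ≤ B * B := mul_le_mul_of_nonneg_right hp (by linarith)
  have h3 : G * G ≤ G * B := mul_le_mul_of_nonneg_left hG hG0.le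
  have h4 : G * B ≤ B * B := mul_le_mul_of_nonneg_right hG (by linarith)
  linarith

theorem aux_S3 {p q G B : ℝ} (hG0 : 0 < G) (hp : p ≤ B) (hq : q ≤ B) (hG : G ≤ B) :
    p * G + q * G ≤ 2 * B ^ 2 := by
  have h1 : p * G ≤ B * G := mul_le_mul_of_nonneg_right hp hG0.le
  have h2 : q * G ≤ B * G := mul_le_mul_of_nonneg_right hq hG0.le
  have h3 : B * G ≤ B * B := mul_le_mul_of_nonneg_left hG (by linarith)
  linarith

theorem bil_sound {n : ℕ} (hn : 2 ≤ n) {E : List Con} (hE : Below n E)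
    (h : BSolvable (bil n (k0 n E.length) (k1 n + 4) E)) :
    ∃ X : ℕ → ℝ, X 1 = 1 ∧ ∀ e ∈ E, e.holds X := by
  obtain ⟨x, y, hx, hy, hI, h0, hall⟩ := h.norm
  set k := k0 n E.length with hk
  set l := k1 n + 4 with hl
  simp only [bil, List.mem_append, List.mem_cons, List.not_mem_nil, or_false] at hall
  have c1 := hall _ (Or.inl (Or.inl rfl))
  have c2 := hall _ (Or.inl (Or.inr (Or.inl rfl)))
  have c3 := hall _ (Or.inl (Or.inr (Or.inr (Or.inl rfl))))
  have c4 := hall _ (Or.inl (Or.inr (Or.inr (Or.inr (Or.inl rfl)))))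
  have c5 := hall _ (Or.inl (Or.inr (Or.inr (Or.inr (Or.inr (Or.inl rfl))))))
  have c6 := hall _ (Or.inl (Or.inr (Or.inr (Or.inr (Or.inr (Or.inr rfl))))))
  have dT : ∀ i < k, ∀ c ∈ bsq (vT i) (vT (i + 1)), c.holds x y := fun i hi c hc =>
    hall c (Or.inr (Or.inl (List.mem_flatMap.mpr ⟨i, List.mem_range.mpr hi, hc⟩)))
  have dU : ∀ i < l, ∀ c ∈ bsq (vU i) (vU (i + 1)), c.holds x y := fun i hi c hc =>
    hall c (Or.inr (Or.inr (Or.inl (List.mem_flatMap.mpr ⟨i, List.mem_range.mpr hi, hc⟩))))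
  have dG : ∀ c ∈ blk vG, c.holds x y := fun c hc =>
    hall c (Or.inr (Or.inr (Or.inr (Or.inl hc))))
  have d1 : ∀ c ∈ beq (vX 1) vI vG, c.holds x y := fun c hc =>
    hall c (Or.inr (Or.inr (Or.inr (Or.inr (Or.inl hc)))))
  have dX : ∀ a < n, ∀ c ∈ bvar a, c.holds x y := fun a ha c hc =>
    hall c (Or.inr (Or.inr (Or.inr (Or.inr (Or.inr (Or.inl
      (List.mem_flatMap.mpr ⟨a, List.mem_range.mpr ha, hc⟩)))))))
  have dE : ∀ e κ, (e, κ) ∈ E.zipIdx → ∀ c ∈ bcon (e, κ), c.holds x y := fun e κ he c hc =>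
    hall c (Or.inr (Or.inr (Or.inr (Or.inr (Or.inr (Or.inr
      (List.mem_flatMap.mpr ⟨(e, κ), he, hc⟩)))))))
  -- the large numbers
  have e1 := bsm_lt hx hI h0 c1
  rw [hI] at e1
  simp only [BCon.holds, hI, h0, mul_one] at c2
  have e3 := bsm_lt hx hI h0 c3
  have e4 := bsm_lt hx hI h0 c4
  have eT := chain_le (a := fun i => x (vT i)) (m := k) (by linarith)
    (fun i hi => bsq_lt hx hI h0 (dT i hi)) k (le_refl _)
  have eU1 : (2 : ℝ) ^ 2 ^ k ≤ x (vT k) := by
    refine le_trans ?_ eT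
    exact pow_le_pow_left₀ (by norm_num) (by linarith) _
  set G := x vG with hG
  set B := x (vU 0) with hB
  have hBk : (2 : ℝ) ^ 2 ^ k ≤ B := by linarith
  have hB1024 : (1024 : ℝ) ≤ B := by
    refine le_trans ?_ hBk
    have h1 : 10 ≤ 2 ^ k := by
      have : k < 2 ^ k := Nat.lt_two_pow_self
      have : 10 ≤ k := by rw [hk]; unfold k0; omega
      omega
    calc (1024 : ℝ) = 2 ^ 10 := by norm_num
      _ ≤ 2 ^ 2 ^ k := pow_le_pow_right₀ (by norm_num) h1
  have eU := chain_le (a := fun i => x (vU i)) (m := l) (by rw [← hB]; linarith)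
    (fun i hi => bsq_lt hx hI h0 (dU i hi)) l (le_refl _)
  set U := x (vU l) with hU
  -- the precision
  set ρ := y 1 - 1 with hρ
  have hρ' : y 1 = 1 + ρ := by rw [hρ]; ring
  have hρ0 : 0 < ρ := by
    have h1 := blk_lt hx hI h0 dG
    have h2 : x vG < x vG * y 1 := h1.1.trans h1.2
    have h3 := hx vG
    rw [hρ']  at h2
    exact aux_pos h3 h2
  have hU0 : 0 < U := hx _
  have hρU : ρ * U < 1 := by
    simp only [BCon.holds, h0, hI, hρ', mul_one] at c5 c6
    have := hx vw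
    obtain ⟨-, c6⟩ := c6
    rw [← hU] at c5 c6
    linarith
  have hUB : B ^ 2 ^ l ≤ U := eU
  have hB1 : 1 ≤ B := by linarith
  have hl16 : 2 ^ l = 16 * 2 ^ k1 n := by
    rw [hl, pow_add]; ring
  have hk1 : 1 ≤ 2 ^ k1 n := Nat.one_le_two_pow
  -- the effective precision
  have hprec : (28 * ρ * B ^ 2) * B ^ 2 ^ k1 n ≤ 1 := by
    have h1 : 28 * B ^ 2 * B ^ 2 ^ k1 n ≤ B ^ 2 ^ l := by
      calc 28 * B ^ 2 * B ^ 2 ^ k1 n ≤ B * B ^ 2 * B ^ 2 ^ k1 n :=
            mul_le_mul_of_nonneg_right (mul_le_mul_of_nonneg_right (by linarith) (sq_nonneg B))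
              (pow_nonneg (by linarith) _)
        _ = B ^ (3 + 2 ^ k1 n) := by ring
        _ ≤ B ^ 2 ^ l := by
            apply pow_le_pow_right₀ hB1
            omega
    calc (28 * ρ * B ^ 2) * B ^ 2 ^ k1 n = ρ * (28 * B ^ 2 * B ^ 2 ^ k1 n) := by ring
      _ ≤ ρ * U := mul_le_mul_of_nonneg_left (h1.trans hUB) hρ0.le
      _ ≤ 1 := hρU.le
  have hρ1 : ρ ≤ 1 := by
    have h1 : 1 ≤ B ^ 2 ^ l := one_le_pow₀ hB1
    have h2 : 1 ≤ U := h1.trans hUB
    exact aux_le_one hρ0 h2 hρU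
  -- the approximate solution
  have hXlt : ∀ a < n, x (vX a) < B := fun a ha =>
    bsm_lt hx hI h0 (dX a ha _ (List.mem_append_right _ (List.mem_singleton_self _)))
  have hXlk : ∀ a < n, ∀ c ∈ blk (vX a), c.holds x y := fun a ha c hc =>
    dX a ha c (List.mem_append_left _ hc)
  have hG0 : 0 < G := hx _
  have hBsq : B ≤ B ^ 2 := aux_self_le_sq hB1
  have hρB : 0 ≤ ρ * B ^ 2 := mul_nonneg hρ0.le (sq_nonneg B)
  have h2ρ : 0 ≤ 2 * ρ := by linarith
  have hGB : G ≤ B := e4.le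
  refine sysGap_sound hn hE (B := B) (ρ := 28 * ρ * B ^ 2) hBk (by linarith) hprec
    (X := fun a => x (vX a) - G) ?_ ?_ ?_
  · intro a ha
    have h1 := hXlt a ha
    have h2 := hx (vX a)
    rw [abs_le]
    constructor <;> linarith
  · obtain ⟨h1, -⟩ := beq_err hx hI h0 hρ' hρ0 hρ1 d1
    rw [hI, ← hG] at h1
    have h2 : x (vX 1) - G - 1 = x (vX 1) - (1 + G) := by ring
    rw [h2]
    exact h1.trans (aux_28 hρ0.le (by linarith))
  · intro e he
    obtain ⟨κ, hκ'⟩ := List.mem_iff_getElem?.mp he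
    have hκ : (e, κ) ∈ E.zipIdx := List.mem_zipIdx_iff_getElem?.mpr hκ'
    have hc := dE e κ hκ
    have hlt := hE e he
    obtain ⟨t, a, b, c⟩ := e
    obtain ⟨ha, hb, hcc⟩ := hlt
    simp only at ha hb hcc
    have Xa := hXlt a ha
    have Xb := hXlt b hb
    have Xc := hXlt c hcc
    have Xa0 := hx (vX a)
    have Xb0 := hx (vX b)
    have Xc0 := hx (vX c)
    cases t
    · simp only [bcon, List.mem_append] at hc
      obtain ⟨h1, -⟩ := beq_err hx hI h0 hρ' hρ0 hρ1 (fun k hk => hc k (Or.inl hk))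
      obtain ⟨h2, -⟩ := beq_err hx hI h0 hρ' hρ0 hρ1 (fun k hk => hc k (Or.inr hk))
      simp only [cerr]
      rw [← hG] at h2
      have e5 : x (vX a) - G + (x (vX b) - G) - (x (vX c) - G) =
          (x (vA κ) - (x (vX c) + G)) - (x (vA κ) - (x (vX a) + x (vX b))) := by ring
      rw [e5]
      refine (abs_sub _ _).trans ?_
      have h3 : 2 * ρ * (x (vX c) + G) ≤ 2 * ρ * (2 * B ^ 2) :=
        mul_le_mul_of_nonneg_left (by linarith) h2ρ
      have h4 : 2 * ρ * (x (vX a) + x (vX b)) ≤ 2 * ρ * (2 * B ^ 2) :=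
        mul_le_mul_of_nonneg_left (by linarith) h2ρ
      linarith
    · simp only [bcon, List.mem_append] at hc
      obtain ⟨h1, h1'⟩ := bem_err hx hI h0 hρ' hρ0 hρ1 (hXlk b hb) dG (fun k hk => hc k (Or.inl hk))
      obtain ⟨h2, -⟩ := beq_err hx hI h0 hρ' hρ0 hρ1 (fun k hk => hc k (Or.inr (Or.inl hk)))
      obtain ⟨h3, h3'⟩ := bem_err hx hI h0 hρ' hρ0 hρ1 dG dG
        (fun k hk => hc k (Or.inr (Or.inr (Or.inl hk))))
      obtain ⟨h4, -⟩ := beq_err hx hI h0 hρ' hρ0 hρ1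
        (fun k hk => hc k (Or.inr (Or.inr (Or.inr hk))))
      simp only [cerr]
      rw [← hG] at h1 h1' h2 h3 h3'
      have e5 : (x (vX a) - G) * (x (vX b) - G) - (x (vX c) - G) =
          -(x (vA κ) - (x (vX a) * x (vX b) + G * G)) - (x (vB κ) - (x (vA κ) + G)) +
            ((x (vC κ) - (x (vX a) * G + x (vX b) * G)) + (x (vB κ) - (x (vC κ) + x (vX c)))) := by
        ring
      rw [e5]
      have S1 : x (vX a) * x (vX b) + G * G ≤ 2 * B ^ 2 := aux_S1 Xa0 hG0 Xa.le Xb.le hGB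
      have S3 : x (vX a) * G + x (vX b) * G ≤ 2 * B ^ 2 := aux_S3 hG0 Xa.le Xb.le hGB
      have S2 : x (vA κ) + G ≤ 5 * B ^ 2 := by linarith
      have S4 : x (vC κ) + x (vX c) ≤ 5 * B ^ 2 := by linarith
      have g1 : 2 * ρ * (x (vX a) * x (vX b) + G * G) ≤ 2 * ρ * (2 * B ^ 2) :=
        mul_le_mul_of_nonneg_left (by assumption) h2ρ
      have g3 : 2 * ρ * (x (vX a) * G + x (vX b) * G) ≤ 2 * ρ * (2 * B ^ 2) :=
        mul_le_mul_of_nonneg_left (by assumption) h2ρ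
      have g2 : 2 * ρ * (x (vA κ) + G) ≤ 2 * ρ * (5 * B ^ 2) :=
        mul_le_mul_of_nonneg_left (by assumption) h2ρ
      have g4 : 2 * ρ * (x (vC κ) + x (vX c)) ≤ 2 * ρ * (5 * B ^ 2) :=
        mul_le_mul_of_nonneg_left (by assumption) h2ρ
      have a1 := abs_le.mp h1
      have a2 := abs_le.mp h2
      have a3 := abs_le.mp h3
      have a4 := abs_le.mp h4
      rw [abs_le]
      constructor <;> linarith [a1.1, a1.2, a2.1, a2.2, a3.1, a3.2, a4.1, a4.2]

end Pool.Agent.Lib.ETR
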