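import Pool.Agent.Lib.ETR.Bilin

set_option autoImplicit false
set_option linter.unusedSectionVars false

/-!
# Solvable systems give solvable comparisons
-/

namespace Pool.Agent.Lib.ETR

open Pool.Agent.Lib.MP_0f8b55_lc (Con)

section Fwd

variable {x y : ℕ → ℝ} {ρ : ℝ} (h0 : y 0 = 1) (h1 : y 1 = 1 + ρ)
  (h2 : ∀ v, y (v + 2) = x v * (1 + ρ / 2)) (hI : x vI = 1) (hw : x vw = ρ / 4)
  (hρ : 0 < ρ) (hρ1 : ρ ≤ 1 / 100)

include h0 h1 h2 hI hw hρ hρ1

theorem fwd_bsm {a b : ℕ} (h : x a + 1 / 4 ≤ x b) : (bsm a b).holds x y := by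
  simp only [bsm, BCon.holds, h0, mul_one, hw]
  linarith

theorem fwd_blk {v : ℕ} (h : 1 ≤ x v) : ∀ k ∈ blk v, k.holds x y := by
  simp only [blk, List.mem_cons, List.not_mem_nil, or_false, forall_eq_or_imp, forall_eq,
    BCon.holds, h0, h1, h2, hI, hw, mul_one, one_mul]
  constructor <;> nlinarith

theorem fwd_bsq {a b : ℕ} (h : 4 ≤ x a) (hb : x b = x a ^ 3) : ∀ k ∈ bsq a b, k.holds x y := by
  intro k hk
  simp only [bsq, List.mem_append, List.mem_singleton] at hk
  rcases hk with hk | rfl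
  · exact fwd_blk h0 h1 h2 hI hw hρ hρ1 (by linarith) k hk
  · simp only [BCon.holds, h0, h2, hw, hb, mul_one]
    have h3 : x a * (x a * (1 + ρ / 2)) ≤ x a ^ 2 * (2 : ℝ) := by nlinarith [sq_nonneg (x a)]
    have h4 : x a ^ 3 = x a ^ 2 * x a := by ring
    have h5 : (16 : ℝ) ≤ x a ^ 2 := by nlinarith
    have h6 : x a ^ 2 * 4 ≤ x a ^ 2 * x a := mul_le_mul_of_nonneg_left h (by positivity)
    nlinarith

theorem fwd_beq {e a c : ℕ} (ha : 0 < x a) (hc : 1 ≤ x c) (hac : ρ * x a + ρ / 100 < x c)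
    (h : |x e - (x a + x c)| ≤ ρ / 100) : ∀ k ∈ beq e a c, k.holds x y := by
  have h3 := abs_le.mp h
  obtain ⟨h4, h5⟩ := h3
  simp only [beq, List.mem_cons, List.not_mem_nil, or_false, forall_eq_or_imp, forall_eq,
    BCon.holds, h0, h1, mul_one]
  refine ⟨by nlinarith, by nlinarith, by nlinarith⟩

theorem fwd_bem {e a b c d : ℕ} (ha : 0 < x a) (hb : 0 < x b) (hc : 0 < x c) (hd : 0 < x d)
    (h3 : x a * x b * ρ < x c * x d)
    (h : x e = x a * x b + x c * x d) : ∀ k ∈ bem e a b c d, k.holds x y := by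
  simp only [bem, List.mem_cons, List.not_mem_nil, or_false, forall_eq_or_imp, forall_eq,
    BCon.holds, h0, h1, h2, mul_one, h]
  have hab : 0 < x a * x b := mul_pos ha hb
  have hcd : 0 < x c * x d := mul_pos hc hd
  refine ⟨by nlinarith, by nlinarith, by nlinarith⟩

end Fwd

/-! ### Auxiliary inequalities -/

theorem aux_sq_le {G U : ℝ} (hG : 0 ≤ G) (h : 3 * G ≤ U) : 9 * G ^ 2 ≤ U ^ 2 := by nlinarith

theorem aux_le_sq {G : ℝ} (hG : 1 ≤ G) : G ≤ G ^ 2 := by nlinarith

theorem aux_mul_le {p q G : ℝ} (hp : 0 < p) (hp' : p ≤ 2 * G) (hq' : q ≤ 2 * G) :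
    p * q ≤ 4 * G ^ 2 := by nlinarith

theorem aux_225 {G : ℝ} (hG : 15 ≤ G) : 225 ≤ G * G := by nlinarith

theorem aux_lt {p q G ρ : ℝ} (hG : 0 < G) (h : ρ * p < q) : ρ * p * G < q * G :=
  mul_lt_mul_of_pos_right h hG

theorem aux_sum_le {p q G : ℝ} (hG : 0 < G) (hp' : p ≤ 2 * G) (hq' : q ≤ 2 * G) :
    p * G + q * G ≤ 4 * G ^ 2 := by nlinarith

theorem aux_valA1 {p q G : ℝ} (hp : 1 ≤ p) (hq : 1 ≤ q) : 1 ≤ p * q + G * G := by nlinarith

theorem aux_valC1 {p q G : ℝ} (hp : 1 ≤ p) (hq : 1 ≤ q) (hG : 15 ≤ G) : 1 ≤ p * G + q * G := by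
  nlinarith

theorem aux_case5' {U ρ : ℝ} (hρ : 0 < ρ) (hρ1 : ρ ≤ 1 / 100) (hρU : ρ * U ≤ 1 / 100) :
    U * (1 + ρ) + ρ / 4 < U + 1 / 2 := by nlinarith

/-- the values of the first intermediate unknown of a constraint -/
noncomputable def valA (G : ℝ) (X : ℕ → ℝ) : Con → ℝ
  | (false, a, b, _) => (X a + G) + (X b + G)
  | (true, a, b, _) => (X a + G) * (X b + G) + G * G

/-- the values of the third intermediate unknown of a constraint -/
noncomputable def valC (G : ℝ) (X : ℕ → ℝ) : Con → ℝ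
  | (_, a, b, _) => (X a + G) * G + (X b + G) * G

/-- the values of all unknowns -/
noncomputable def valX (G U0 U ρ : ℝ) (X : ℕ → ℝ) (E : List Con) (v : ℕ) : ℝ :=
  if v % 8 = 0 then 4 ^ 3 ^ (v / 8)
  else if v % 8 = 1 then U0 ^ 3 ^ (v / 8)
  else if v % 8 = 2 then X (v / 8) + G
  else if v % 8 = 3 then valA G X (E.getD (v / 8) (false, 0, 0, 0))
  else if v % 8 = 4 then valA G X (E.getD (v / 8) (false, 0, 0, 0)) + G
  else if v % 8 = 5 then valC G X (E.getD (v / 8) (false, 0, 0, 0))
  else if v = 14 then ρ / 4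
  else if v = 22 then 3 / 2
  else if v = 30 then G
  else if v = 38 then U + 1 / 2
  else 1

section ValX

variable {G U0 U ρ : ℝ} {X : ℕ → ℝ} {E : List Con}

theorem valX_vT (i : ℕ) : valX G U0 U ρ X E (vT i) = 4 ^ 3 ^ i := by
  have e1 : (8 * i) % 8 = 0 := by omega
  have e2 : (8 * i) / 8 = i := by omega
  simp only [valX, vT, e1, e2, if_true]

theorem valX_vU (i : ℕ) : valX G U0 U ρ X E (vU i) = U0 ^ 3 ^ i := by
  have e1 : (8 * i + 1) % 8 = 1 := by omega
  have e2 : (8 * i + 1) / 8 = i := by omega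
  simp only [valX, vU, e1, e2, if_true, if_neg one_ne_zero]

theorem valX_vX (i : ℕ) : valX G U0 U ρ X E (vX i) = X i + G := by
  have e1 : (8 * i + 2) % 8 = 2 := by omega
  have e2 : (8 * i + 2) / 8 = i := by omega
  simp only [valX, vX, e1, e2]
  rw [if_neg (by decide), if_neg (by decide), if_pos trivial]

theorem valX_vA (i : ℕ) :
    valX G U0 U ρ X E (vA i) = valA G X (E.getD i (false, 0, 0, 0)) := by
  have e1 : (8 * i + 3) % 8 = 3 := by omega
  have e2 : (8 * i + 3) / 8 = i := by omega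
  simp only [valX, vA, e1, e2]
  rw [if_neg (by decide), if_neg (by decide), if_neg (by decide), if_pos trivial]

theorem valX_vB (i : ℕ) :
    valX G U0 U ρ X E (vB i) = valA G X (E.getD i (false, 0, 0, 0)) + G := by
  have e1 : (8 * i + 4) % 8 = 4 := by omega
  have e2 : (8 * i + 4) / 8 = i := by omega
  simp only [valX, vB, e1, e2]
  rw [if_neg (by decide), if_neg (by decide), if_neg (by decide), if_neg (by decide),
    if_pos trivial]

theorem valX_vC (i : ℕ) :
    valX G U0 U ρ X E (vC i) = valC G X (E.getD i (false, 0, 0, 0)) := by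
  have e1 : (8 * i + 5) % 8 = 5 := by omega
  have e2 : (8 * i + 5) / 8 = i := by omega
  simp only [valX, vC, e1, e2]
  rw [if_neg (by decide), if_neg (by decide), if_neg (by decide), if_neg (by decide),
    if_neg (by decide), if_pos trivial]

theorem valX_vI : valX G U0 U ρ X E vI = 1 := by
  unfold valX vI
  repeat rw [if_neg (by decide)]

theorem valX_vw : valX G U0 U ρ X E vw = ρ / 4 := by
  unfold valX vw
  rw [if_neg (by decide), if_neg (by decide), if_neg (by decide), if_neg (by decide),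
    if_neg (by decide), if_neg (by decide), if_pos rfl]

theorem valX_vv : valX G U0 U ρ X E vv = 3 / 2 := by
  unfold valX vv
  rw [if_neg (by decide), if_neg (by decide), if_neg (by decide), if_neg (by decide),
    if_neg (by decide), if_neg (by decide), if_neg (by decide), if_pos rfl]

theorem valX_vG : valX G U0 U ρ X E vG = G := by
  unfold valX vG
  rw [if_neg (by decide), if_neg (by decide), if_neg (by decide), if_neg (by decide),
    if_neg (by decide), if_neg (by decide), if_neg (by decide), if_neg (by decide), if_pos rfl]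

theorem valX_vL : valX G U0 U ρ X E vL = U + 1 / 2 := by
  unfold valX vL
  rw [if_neg (by decide), if_neg (by decide), if_neg (by decide), if_neg (by decide),
    if_neg (by decide), if_neg (by decide), if_neg (by decide), if_neg (by decide),
    if_neg (by decide), if_pos rfl]

theorem pos_ite {c : Prop} [Decidable c] {a b : ℝ} (ha : 0 < a) (hb : 0 < b) :
    0 < if c then a else b := by
  split
  · exact ha
  · exact hb

theorem valX_pos (hG : 0 < G) (hU0 : 0 < U0) (hU : 0 < U) (hρ : 0 < ρ)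
    (hX : ∀ i, 0 < X i + G) (hA : ∀ e, 0 < valA G X e) (hC : ∀ e, 0 < valC G X e) (v : ℕ) :
    0 < valX G U0 U ρ X E v := by
  unfold valX
  exact pos_ite (by positivity) (pos_ite (by positivity) (pos_ite (hX _) (pos_ite (hA _)
    (pos_ite (add_pos (hA _) hG) (pos_ite (hC _) (pos_ite (by positivity) (pos_ite (by norm_num)
    (pos_ite hG (pos_ite (by positivity) one_pos)))))))))

end ValX

/-- the values of the copies -/
noncomputable def valY (ρ : ℝ) (x : ℕ → ℝ) (v : ℕ) : ℝ :=
  if v = 0 then 1 else if v = 1 then 1 + ρ else x (v - 2) * (1 + ρ / 2)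

theorem valY_pos {ρ : ℝ} {x : ℕ → ℝ} (hρ : 0 < ρ) (hx : ∀ v, 0 < x v) (v : ℕ) :
    0 < valY ρ x v := by
  unfold valY
  exact pos_ite one_pos (pos_ite (by positivity) (mul_pos (hx _) (by positivity)))

theorem bil_complete {n : ℕ} (hn : 2 ≤ n) {E : List Con} (hE : Below n E) (l : ℕ)
    (hex : ∃ X : ℕ → ℝ, X 1 = 1 ∧ ∀ e ∈ E, e.holds X) :
    BSolvable (bil n (k0 n E.length) l E) := by
  set k := k0 n E.length with hk
  set B0 : ℝ := 2 ^ 2 ^ k with hB0
  set G : ℝ := 4 ^ 3 ^ k + 4 * B0 + 10 with hG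
  set U0 : ℝ := 3 * G with hU0
  set U : ℝ := U0 ^ 3 ^ l with hU
  set ρ : ℝ := 1 / (100 * U ^ 2) with hρ
  have hB01 : 1 ≤ B0 := one_le_pow₀ (by norm_num)
  have h4k : (1 : ℝ) ≤ 4 ^ 3 ^ k := one_le_pow₀ (by norm_num)
  have hG15 : 15 ≤ G := by linarith
  have hU0' : 45 ≤ U0 := by linarith
  have hUU0 : U0 ≤ U := le_self_pow₀ (by linarith) (by positivity)
  have hU1 : 1 ≤ U := by linarith
  have hU2 : 1 ≤ U ^ 2 := one_le_pow₀ hU1
  have hρ0 : 0 < ρ := by positivity
  have hρ1 : ρ ≤ 1 / 100 := by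
    rw [hρ]
    apply one_div_le_one_div_of_le (by norm_num)
    linarith
  have hρU : ρ * U ^ 2 = 1 / 100 := by
    rw [hρ]
    field_simp
  obtain ⟨X, hXb, hX1, hXE⟩ := sysGap_complete hn hE hex (η := ρ / 100) (by positivity)
  rw [← hk, ← hB0] at hXb
  set x := valX G U0 U ρ X E with hx
  have xT : ∀ i, x (vT i) = 4 ^ 3 ^ i := fun i => valX_vT i
  have xU : ∀ i, x (vU i) = U0 ^ 3 ^ i := fun i => valX_vU i
  have xX : ∀ i, x (vX i) = X i + G := fun i => valX_vX i
  have xA : ∀ i, x (vA i) = valA G X (E.getD i (false, 0, 0, 0)) := fun i => valX_vA i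
  have xB : ∀ i, x (vB i) = valA G X (E.getD i (false, 0, 0, 0)) + G := fun i => valX_vB i
  have xC : ∀ i, x (vC i) = valC G X (E.getD i (false, 0, 0, 0)) := fun i => valX_vC i
  have xI : x vI = 1 := valX_vI
  have xw : x vw = ρ / 4 := valX_vw
  have xv : x vv = 3 / 2 := valX_vv
  have xG : x vG = G := valX_vG
  have xL : x vL = U + 1 / 2 := valX_vL
  -- bounds for the shifted variables
  have Xlo : ∀ i, 3 * B0 + 10 ≤ X i + G := fun i => by
    have := (abs_le.mp (hXb i)).1
    linarith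
  have Xhi : ∀ i, X i + G ≤ 2 * G := fun i => by
    have := (abs_le.mp (hXb i)).2
    linarith
  have X1 : ∀ i, 1 ≤ X i + G := fun i => by linarith [Xlo i]
  have hApos : ∀ e, 1 ≤ valA G X e := by
    rintro ⟨t, a, b, c⟩
    have := X1 a
    have := X1 b
    cases t
    · simp only [valA]; linarith
    · simp only [valA]; exact aux_valA1 (X1 a) (X1 b)
  have hCpos : ∀ e, 1 ≤ valC G X e := by
    rintro ⟨t, a, b, c⟩
    have := X1 a
    have := X1 b
    simp only [valC]
    exact aux_valC1 (X1 a) (X1 b) hG15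
  have hpos : ∀ v, 0 < x v := fun v =>
    valX_pos (by linarith) (by linarith) (by linarith) hρ0 (fun i => lt_of_lt_of_le one_pos (X1 i))
      (fun e => lt_of_lt_of_le one_pos (hApos e)) (fun e => lt_of_lt_of_le one_pos (hCpos e)) v
  set y := valY ρ x with hy
  have y0 : y 0 = 1 := by simp [hy, valY]
  have y1 : y 1 = 1 + ρ := by simp [hy, valY]
  have y2 : ∀ v, y (v + 2) = x v * (1 + ρ / 2) := by intro v; simp [hy, valY]
  have hypos : ∀ v, 0 < y v := fun v => valY_pos hρ0 hpos v
  have P1 := fun {a b : ℕ} => fwd_bsm (a := a) (b := b) y0 y1 y2 xI xw hρ0 hρ1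
  have P2 := fun {v : ℕ} => fwd_blk (v := v) y0 y1 y2 xI xw hρ0 hρ1
  have P3 := fun {a b : ℕ} => fwd_bsq (a := a) (b := b) y0 y1 y2 xI xw hρ0 hρ1
  have P4 := fun {e a c : ℕ} => fwd_beq (e := e) (a := a) (c := c) y0 y1 y2 xI xw hρ0 hρ1
  have P5 := fun {e a b c d : ℕ} => fwd_bem (e := e) (a := a) (b := b) (c := c) (d := d)
    y0 y1 y2 xI xw hρ0 hρ1
  -- small multiples of `ρ`
  have hGU : 3 * G ≤ U := by linarith
  have hρG2 : ρ * G ^ 2 ≤ 1 / 900 := by
    have h1 : 9 * G ^ 2 ≤ U ^ 2 := aux_sq_le (by linarith) hGU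
    have h2 : ρ * (9 * G ^ 2) ≤ ρ * U ^ 2 := mul_le_mul_of_nonneg_left h1 hρ0.le
    linarith
  have hρG : ρ * G ≤ 1 / 900 := by
    have : ρ * G ≤ ρ * G ^ 2 := mul_le_mul_of_nonneg_left (aux_le_sq (by linarith)) hρ0.le
    linarith
  have hG0 : 0 < G := by linarith
  have hρ100 : 0 ≤ ρ / 100 := by positivity
  refine ⟨x, y, hpos, hypos, ?_⟩
  clear_value y x ρ U U0 G B0 k
  clear hpos hypos hy hx hρ y2
  intro c hc
  simp only [bil, List.mem_append, List.mem_cons, List.not_mem_nil, or_false, List.mem_flatMap] at hc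
  rcases hc with (rfl | rfl | rfl | rfl | rfl | rfl) | ⟨i, -, hc⟩ | ⟨i, -, hc⟩ | hc | hc |
    ⟨i, -, hc⟩ | ⟨⟨e, κ⟩, he, hc⟩
  · exact P1 (by rw [xI, xv]; norm_num)
  · simp only [BCon.holds, y0, xI, xv, xT]
    norm_num
  · refine P1 ?_
    rw [xT, xG]
    linarith
  · refine P1 ?_
    rw [xG, xU, pow_zero, pow_one]
    linarith
  · simp only [BCon.holds, y0, y1, xU, xw, xL, mul_one, ← hU]
    have h7 : ρ * U ≤ ρ * U ^ 2 := mul_le_mul_of_nonneg_left (aux_le_sq hU1) hρ0.le
    have h8 : ρ * U ≤ 1 / 100 := by rw [hρU] at h7; exact h7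
    exact aux_case5' hρ0 hρ1 h8
  · simp only [BCon.holds, y0, xU, xI, xL, mul_one, ← hU]
    constructor <;> linarith
  · refine P3 ?_ ?_ c hc
    · rw [xT]
      exact le_self_pow₀ (by norm_num) (by positivity)
    · rw [xT, xT, ← pow_mul, ← pow_succ]
  · refine P3 ?_ ?_ c hc
    · rw [xU]
      refine le_trans (by linarith) (le_self_pow₀ (by linarith : 1 ≤ U0) (by positivity : 3 ^ i ≠ 0))
    · rw [xU, xU, ← pow_mul, ← pow_succ]
  · exact P2 (by rw [xG]; linarith) c hc
  · refine P4 ?_ ?_ ?_ ?_ c hc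
    · rw [xI]; norm_num
    · rw [xG]; linarith
    · rw [xI, xG]; linarith
    · rw [xX, xI, xG]
      have : X 1 + G - (1 + G) = X 1 - 1 := by ring
      rw [this]
      exact hX1
  · simp only [bvar, List.mem_append, List.mem_singleton] at hc
    rcases hc with hc | rfl
    · exact P2 (by rw [xX]; exact X1 i) c hc
    · refine P1 ?_
      rw [xX, xU, pow_zero, pow_one]
      have := Xhi i
      linarith
  · have hget : E.getD κ (false, 0, 0, 0) = e := by
      have := List.mem_zipIdx_iff_getElem?.mp he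
      simp only at this
      rw [List.getD_eq_getElem?_getD, this]
      rfl
    have heE : e ∈ E := List.fst_mem_of_mem_zipIdx he
    have herr := hXE e heE
    have vA' := xA κ
    have vB' := xB κ
    have vC' := xC κ
    rw [hget] at vA' vB' vC'
    obtain ⟨t, a, b, c'⟩ := e
    have la := Xlo a
    have lb := Xlo b
    have lc := Xlo c'
    have ua := Xhi a
    have ub := Xhi b
    have uc := Xhi c'
    set p := X a + G with hp
    set q := X b + G with hq
    set r := X c' + G with hr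
    have hp0 : 0 < p := by linarith
    have hq0 : 0 < q := by linarith
    have hr0 : 0 < r := by linarith
    have hp1 : ρ * p ≤ 1 / 450 := by
      have : ρ * p ≤ ρ * (2 * G) := mul_le_mul_of_nonneg_left ua hρ0.le
      linarith
    cases t
    · simp only [valA] at vA'
      simp only [cerr] at herr
      simp only [bcon, List.mem_append] at hc
      rcases hc with hc | hc
      · refine P4 ?_ ?_ ?_ ?_ c hc
        · rw [xX]; exact hp0
        · rw [xX]; linarith
        · rw [xX, xX]; linarith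
        · rw [vA', xX, xX, ← hp, ← hq, sub_self, abs_zero]
          exact hρ100
      · have hr1 : ρ * r ≤ 1 / 450 := by
          have : ρ * r ≤ ρ * (2 * G) := mul_le_mul_of_nonneg_left uc hρ0.le
          linarith
        refine P4 ?_ ?_ ?_ ?_ c hc
        · rw [xX]; exact hr0
        · rw [xG]; linarith
        · rw [xX, xG]; linarith
        · rw [vA', xX, xG]
          have : p + q - (X c' + G + G) = X a + X b - X c' := by rw [hp, hq]; ring
          rw [this]
          exact herr
    · simp only [valA] at vA' vB'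
      simp only [valC] at vC'
      simp only [cerr] at herr
      simp only [bcon, List.mem_append] at hc
      have hpq : p * q ≤ 4 * G ^ 2 := aux_mul_le hp0 ua ub
      have hpqρ : ρ * (p * q) ≤ 4 / 900 := by
        have : ρ * (p * q) ≤ ρ * (4 * G ^ 2) := mul_le_mul_of_nonneg_left hpq hρ0.le
        linarith
      have hGG : 225 ≤ G * G := aux_225 hG15
      rcases hc with hc | hc | hc | hc
      · refine P5 ?_ ?_ ?_ ?_ ?_ ?_ c hc
        · rw [xX]; exact hp0
        · rw [xX]; exact hq0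
        · rw [xG]; linarith
        · rw [xG]; linarith
        · rw [xX, xX, xG]
          linarith
        · rw [vA', xX, xX, xG]
      · refine P4 ?_ ?_ ?_ ?_ c hc
        · rw [vA']; exact add_pos (mul_pos hp0 hq0) (mul_pos hG0 hG0)
        · rw [xG]; linarith
        · rw [vA', xG]
          have : ρ * (p * q + G * G) ≤ 5 / 900 := by
            have e1 : ρ * (G * G) = ρ * G ^ 2 := by ring
            rw [mul_add, e1]
            linarith
          linarith
        · rw [vB', vA', xG, sub_self, abs_zero]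
          exact hρ100
      · refine P5 ?_ ?_ ?_ ?_ ?_ ?_ c hc
        · rw [xX]; exact hp0
        · rw [xG]; linarith
        · rw [xX]; exact hq0
        · rw [xG]; linarith
        · rw [xX, xG, xX]
          have e1 : p * G * ρ = (ρ * p) * G := by ring
          rw [← hp, ← hq, e1]
          exact aux_lt hG0 (by linarith)
        · rw [vC', xX, xX, xG]
      · have hC0 : p * G + q * G ≤ 4 * G ^ 2 := aux_sum_le hG0 ua ub
        have hCρ : ρ * (p * G + q * G) ≤ 4 / 900 := by
          have : ρ * (p * G + q * G) ≤ ρ * (4 * G ^ 2) := mul_le_mul_of_nonneg_left hC0 hρ0.le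
          linarith
        refine P4 ?_ ?_ ?_ ?_ c hc
        · rw [vC']; exact add_pos (mul_pos hp0 hG0) (mul_pos hq0 hG0)
        · rw [xX]; linarith
        · rw [vC', xX]
          linarith
        · rw [vB', vC', xX]
          have : p * q + G * G + G - (p * G + q * G + (X c' + G)) = X a * X b - X c' := by
            rw [hp, hq]; ring
          rw [this]
          exact herr

/-- The reduction from systems to comparisons. -/
theorem bil_iff {n : ℕ} (hn : 2 ≤ n) {E : List Con} (hE : Below n E) :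
    (∃ X : ℕ → ℝ, X 1 = 1 ∧ ∀ e ∈ E, e.holds X) ↔
      BSolvable (bil n (k0 n E.length) (k1 n + 4) E) :=
  ⟨bil_complete hn hE _, bil_sound hn hE⟩

end Pool.Agent.Lib.ETR
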