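import Pool.Agent.Lib.MP_065e13_lc.OrderType

set_option autoImplicit false

/-!
# From incidence patterns with at most two earlier incidences to sign matrices
-/

namespace Pool.Agent.Lib.ETR

open Pool.Agent.Lib.MP_065e13_lc (SignRankLE exists_factor)

/-- vectors of `ℝ^3` -/
abbrev V3 : Type := Fin 3 → ℝ

/-- the inner product -/
def dt (a b : V3) : ℝ := a 0 * b 0 + a 1 * b 1 + a 2 * b 2

theorem dt_add_left (a b c : V3) : dt (a + b) c = dt a c + dt b c := by
  simp only [dt, Pi.add_apply]; ring

theorem dt_add_right (a b c : V3) : dt a (b + c) = dt a b + dt a c := by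
  simp only [dt, Pi.add_apply]; ring

theorem dt_smul_left (r : ℝ) (a b : V3) : dt (r • a) b = r * dt a b := by
  simp only [dt, Pi.smul_apply, smul_eq_mul]; ring

theorem dt_smul_right (r : ℝ) (a b : V3) : dt a (r • b) = r * dt a b := by
  simp only [dt, Pi.smul_apply, smul_eq_mul]; ring

theorem dt_comm (a b : V3) : dt a b = dt b a := by
  simp only [dt]; ring

/-- A sign matrix realized by vectors of `ℝ^3`. -/
def SignVec {ι κ : Type} (M : ι → κ → Bool) : Prop :=
  ∃ (a : ι → V3) (b : κ → V3), ∀ i j,
    (M i j = true → 0 < dt (a i) (b j)) ∧ (M i j = false → dt (a i) (b j) < 0)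

theorem signVec_iff {ι κ : Type} [Finite ι] [Fintype κ] (M : ι → κ → Bool) :
    SignVec M ↔ SignRankLE 3 M := by
  classical
  constructor
  · rintro ⟨a, b, h⟩
    have := Fintype.ofFinite ι
    refine ⟨Matrix.of (fun i j => dt (a i) (b j)), ?_, h⟩
    have e : (Matrix.of (fun i j => dt (a i) (b j)) : Matrix ι κ ℝ) =
        (Matrix.of a : Matrix ι (Fin 3) ℝ) * (Matrix.of b : Matrix κ (Fin 3) ℝ).transpose := by
      ext i j
      simp [Matrix.mul_apply, dt, Fin.sum_univ_three]
    rw [e]
    refine (Matrix.rank_mul_le_left _ _).trans ?_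
    have := Matrix.rank_le_card_width (Matrix.of a : Matrix ι (Fin 3) ℝ)
    simpa using this
  · rintro ⟨A, hA, h⟩
    obtain ⟨α, q, hq⟩ := exists_factor A hA
    refine ⟨fun i => (α i).ofLp, fun j => (q j).ofLp, ?_⟩
    intro i j
    have e : dt ((α i).ofLp) ((q j).ofLp) = A i j := by
      rw [hq]
      simp [dt, PiLp.inner_apply, Fin.sum_univ_three, mul_comm]
    rw [e]
    exact h i j

/-- An entry: a sign, or an incidence which is the first or second of its later member. -/
inductive Ent where
  | sg (b : Bool) | r1 | r2 | c1 | c2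
  deriving DecidableEq

/-- The real number fits the entry. -/
def Ent.ok (v : ℝ) : Ent → Prop
  | .sg true => 0 < v
  | .sg false => v < 0
  | _ => v = 0

/-- Exact realization of a pattern. -/
def Exact {ι κ : Type} (Z : ι → κ → Ent) (A : ι → V3) (B : κ → V3) : Prop :=
  ∀ i j, (Z i j).ok (dt (A i) (B j))

/-- The sign matrix of a pattern. -/
def clusterN {ι κ : Type} (Z : ι → κ → Ent) (p : ι × Bool × Bool) (q : κ × Bool × Bool) : Bool :=
  match Z p.1 q.1 with
  | .sg b => b
  | .r1 => p.2.1
  | .r2 => p.2.2
  | .c1 => q.2.1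
  | .c2 => q.2.2

/-- The pattern is well-founded. -/
structure PatOK {ι κ : Type} (Z : ι → κ → Ent) (oi : ι → ℕ) (oj : κ → ℕ) : Prop where
  r1_lt : ∀ i j, Z i j = .r1 → oj j < oi i
  r2_lt : ∀ i j, Z i j = .r2 → oj j < oi i
  c1_lt : ∀ i j, Z i j = .c1 → oi i < oj j
  c2_lt : ∀ i j, Z i j = .c2 → oi i < oj j
  r1_uniq : ∀ i j j', Z i j = .r1 → Z i j' = .r1 → j = j'
  r2_uniq : ∀ i j j', Z i j = .r2 → Z i j' = .r2 → j = j'
  c1_uniq : ∀ i i' j, Z i j = .c1 → Z i' j = .c1 → i = i'
  c2_uniq : ∀ i i' j, Z i j = .c2 → Z i' j = .c2 → i = i'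

/-! ### Soundness -/

/-- Positive combinations of four vectors. -/
def Pos4 (f : Bool × Bool → V3) (v : V3) : Prop :=
  ∃ c : Bool × Bool → ℝ, (∀ s, 0 < c s) ∧ v = c (true, true) • f (true, true) +
    c (true, false) • f (true, false) + c (false, true) • f (false, true) +
    c (false, false) • f (false, false)

theorem Pos4.dt_pos {f : Bool × Bool → V3} {v : V3} (h : Pos4 f v) {u : V3}
    (hu : ∀ s, 0 < dt (f s) u) : 0 < dt v u := by
  obtain ⟨c, hc, rfl⟩ := h
  simp only [dt_add_left, dt_smul_left]
  have h1 := mul_pos (hc (true, true)) (hu (true, true))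
  have h2 := mul_pos (hc (true, false)) (hu (true, false))
  have h3 := mul_pos (hc (false, true)) (hu (false, true))
  have h4 := mul_pos (hc (false, false)) (hu (false, false))
  linarith

theorem Pos4.dt_neg {f : Bool × Bool → V3} {v : V3} (h : Pos4 f v) {u : V3}
    (hu : ∀ s, dt (f s) u < 0) : dt v u < 0 := by
  obtain ⟨c, hc, rfl⟩ := h
  simp only [dt_add_left, dt_smul_left]
  have h1 := mul_neg_of_pos_of_neg (hc (true, true)) (hu (true, true))
  have h2 := mul_neg_of_pos_of_neg (hc (true, false)) (hu (true, false))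
  have h3 := mul_neg_of_pos_of_neg (hc (false, true)) (hu (false, true))
  have h4 := mul_neg_of_pos_of_neg (hc (false, false)) (hu (false, false))
  linarith

theorem exists_comb {u v w : V3} (P : Prop) (h : P → 0 < dt u w ∧ dt v w < 0) :
    ∃ α β : ℝ, 0 < α ∧ 0 < β ∧ (P → dt (α • u + β • v) w = 0) := by
  by_cases hP : P
  · obtain ⟨h1, h2⟩ := h hP
    refine ⟨-dt v w, dt u w, by linarith, h1, fun _ => ?_⟩
    rw [dt_add_left, dt_smul_left, dt_smul_left]
    ring
  · exact ⟨1, 1, one_pos, one_pos, fun h => absurd h hP⟩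

theorem exists_pos4 (f : Bool × Bool → V3) (P1 P2 : Prop) (u1 u2 : V3)
    (h1 : P1 → ∀ τ, 0 < dt (f (true, τ)) u1 ∧ dt (f (false, τ)) u1 < 0)
    (h2 : P2 → ∀ σ, 0 < dt (f (σ, true)) u2 ∧ dt (f (σ, false)) u2 < 0) :
    ∃ v, Pos4 f v ∧ (P1 → dt v u1 = 0) ∧ (P2 → dt v u2 = 0) := by
  obtain ⟨α, β, hα, hβ, h3⟩ := exists_comb (u := f (true, true)) (v := f (false, true)) (w := u1) P1
    (fun h => h1 h true)
  obtain ⟨γ, δ, hγ, hδ, h4⟩ := exists_comb (u := f (true, false)) (v := f (false, false)) (w := u1)
    P1 (fun h => h1 h false)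
  obtain ⟨s, t, hs, ht, h5⟩ := exists_comb (u := α • f (true, true) + β • f (false, true))
    (v := γ • f (true, false) + δ • f (false, false)) (w := u2) P2 (fun h => by
      have e1 := h2 h true
      have e2 := h2 h false
      simp only [dt_add_left, dt_smul_left]
      constructor
      · have := mul_pos hα e1.1
        have := mul_pos hβ e2.1
        linarith
      · have := mul_neg_of_pos_of_neg hγ e1.2
        have := mul_neg_of_pos_of_neg hδ e2.2
        linarith)
  refine ⟨s • (α • f (true, true) + β • f (false, true)) +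
    t • (γ • f (true, false) + δ • f (false, false)), ?_, ?_, h5⟩
  · refine ⟨fun p => match p with
      | (true, true) => s * α
      | (false, true) => s * β
      | (true, false) => t * γ
      | (false, false) => t * δ, ?_, ?_⟩
    · rintro ⟨_ | _, _ | _⟩ <;> simp only <;> positivity
    · simp only [smul_add, smul_smul]
      abel
  · intro h
    rw [dt_add_left, dt_smul_left, dt_smul_left, h3 h, h4 h]
    ring

/-- From a realization of the sign matrix to an exact realization of the pattern. -/
theorem cluster_sound {ι κ : Type} [Finite ι] [Finite κ] {Z : ι → κ → Ent} {oi : ι → ℕ} {oj : κ → ℕ}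
    (hZ : PatOK Z oi oj) (h : SignVec (clusterN Z)) : ∃ A B, Exact Z A B := by
  classical
  obtain ⟨a, b, hab⟩ := h
  have key : ∀ N : ℕ, ∃ (A : ι → V3) (B : κ → V3),
      (∀ i, oi i < N → Pos4 (fun s => a (i, s)) (A i)) ∧
      (∀ j, oj j < N → Pos4 (fun s => b (j, s)) (B j)) ∧
      ∀ i j, oi i < N → oj j < N → (∀ s, Z i j ≠ .sg s) → dt (A i) (B j) = 0 := by
    intro N
    induction N with
    | zero => exact ⟨fun _ => 0, fun _ => 0, by simp, by simp, by simp⟩
    | succ N ih =>
      obtain ⟨A, B, hA, hB, hAB⟩ := ih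
      have rowc : ∀ i, oi i = N → ∃ v, Pos4 (fun s => a (i, s)) v ∧
          ∀ j, (Z i j = .r1 ∨ Z i j = .r2) → dt v (B j) = 0 := by
        intro i hi
        have g1 : ∃ u1, ∀ j, Z i j = .r1 → B j = u1 := by
          by_cases hex : ∃ j, Z i j = .r1
          · obtain ⟨j, hj⟩ := hex
            exact ⟨B j, fun j' hj' => by rw [hZ.r1_uniq i j j' hj hj']⟩
          · exact ⟨0, fun j hj => absurd ⟨j, hj⟩ hex⟩
        have g2 : ∃ u2, ∀ j, Z i j = .r2 → B j = u2 := by
          by_cases hex : ∃ j, Z i j = .r2
          · obtain ⟨j, hj⟩ := hex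
            exact ⟨B j, fun j' hj' => by rw [hZ.r2_uniq i j j' hj hj']⟩
          · exact ⟨0, fun j hj => absurd ⟨j, hj⟩ hex⟩
        obtain ⟨u1, hu1⟩ := g1
        obtain ⟨u2, hu2⟩ := g2
        obtain ⟨v, hv, hv1, hv2⟩ := exists_pos4 (fun s => a (i, s)) (∃ j, Z i j = .r1)
          (∃ j, Z i j = .r2) u1 u2 (by
            rintro ⟨j, hj⟩ τ
            rw [← hu1 j hj]
            have hBj := hB j (by have := hZ.r1_lt i j hj; omega)
            have e : ∀ s q, clusterN Z (i, s, τ) (j, q) = s := by
              intro s q; simp [clusterN, hj]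
            constructor
            · rw [dt_comm]
              exact hBj.dt_pos (fun s => by rw [dt_comm]; exact (hab _ _).1 (e true s))
            · rw [dt_comm]
              exact hBj.dt_neg (fun s => by rw [dt_comm]; exact (hab _ _).2 (e false s))) (by
            rintro ⟨j, hj⟩ σ
            rw [← hu2 j hj]
            have hBj := hB j (by have := hZ.r2_lt i j hj; omega)
            have e : ∀ s q, clusterN Z (i, σ, s) (j, q) = s := by
              intro s q; simp [clusterN, hj]
            constructor
            · rw [dt_comm]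
              exact hBj.dt_pos (fun s => by rw [dt_comm]; exact (hab _ _).1 (e true s))
            · rw [dt_comm]
              exact hBj.dt_neg (fun s => by rw [dt_comm]; exact (hab _ _).2 (e false s)))
        refine ⟨v, hv, ?_⟩
        rintro j (hj | hj)
        · rw [hu1 j hj]; exact hv1 ⟨j, hj⟩
        · rw [hu2 j hj]; exact hv2 ⟨j, hj⟩
      have colc : ∀ j, oj j = N → ∃ v, Pos4 (fun s => b (j, s)) v ∧
          ∀ i, (Z i j = .c1 ∨ Z i j = .c2) → dt (A i) v = 0 := by
        intro j hj0
        have g1 : ∃ u1, ∀ i, Z i j = .c1 → A i = u1 := by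
          by_cases hex : ∃ i, Z i j = .c1
          · obtain ⟨i, hi⟩ := hex
            exact ⟨A i, fun i' hi' => by rw [hZ.c1_uniq i i' j hi hi']⟩
          · exact ⟨0, fun i hi => absurd ⟨i, hi⟩ hex⟩
        have g2 : ∃ u2, ∀ i, Z i j = .c2 → A i = u2 := by
          by_cases hex : ∃ i, Z i j = .c2
          · obtain ⟨i, hi⟩ := hex
            exact ⟨A i, fun i' hi' => by rw [hZ.c2_uniq i i' j hi hi']⟩
          · exact ⟨0, fun i hi => absurd ⟨i, hi⟩ hex⟩
        obtain ⟨u1, hu1⟩ := g1
        obtain ⟨u2, hu2⟩ := g2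
        obtain ⟨v, hv, hv1, hv2⟩ := exists_pos4 (fun s => b (j, s)) (∃ i, Z i j = .c1)
          (∃ i, Z i j = .c2) u1 u2 (by
            rintro ⟨i, hi⟩ τ
            rw [← hu1 i hi]
            have hAi := hA i (by have := hZ.c1_lt i j hi; omega)
            have e : ∀ s q, clusterN Z (i, q) (j, s, τ) = s := by
              intro s q; simp [clusterN, hi]
            constructor
            · rw [dt_comm]
              exact hAi.dt_pos (fun s => (hab _ _).1 (e true s))
            · rw [dt_comm]
              exact hAi.dt_neg (fun s => (hab _ _).2 (e false s))) (by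
            rintro ⟨i, hi⟩ σ
            rw [← hu2 i hi]
            have hAi := hA i (by have := hZ.c2_lt i j hi; omega)
            have e : ∀ s q, clusterN Z (i, q) (j, σ, s) = s := by
              intro s q; simp [clusterN, hi]
            constructor
            · rw [dt_comm]
              exact hAi.dt_pos (fun s => (hab _ _).1 (e true s))
            · rw [dt_comm]
              exact hAi.dt_neg (fun s => (hab _ _).2 (e false s)))
        refine ⟨v, hv, ?_⟩
        rintro i (hi | hi)
        · rw [hu1 i hi, dt_comm]; exact hv1 ⟨i, hi⟩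
        · rw [hu2 i hi, dt_comm]; exact hv2 ⟨i, hi⟩
      choose! A' hA' hA'' using rowc
      choose! B' hB' hB'' using colc
      refine ⟨fun i => if oi i < N then A i else A' i, fun j => if oj j < N then B j else B' j,
        ?_, ?_, ?_⟩
      · intro i hi
        simp only
        split_ifs with h1
        · exact hA i h1
        · exact hA' i (by omega)
      · intro j hj
        simp only
        split_ifs with h1
        · exact hB j h1
        · exact hB' j (by omega)
      · intro i j hi hj hs
        simp only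
        have hcase : Z i j = .r1 ∨ Z i j = .r2 ∨ Z i j = .c1 ∨ Z i j = .c2 := by
          rcases h0 : Z i j with s | _ | _ | _ | _
          · exact absurd h0 (hs s)
          all_goals simp
        by_cases h1 : oi i < N <;> by_cases h2 : oj j < N
        · rw [if_pos h1, if_pos h2]
          exact hAB i j h1 h2 hs
        · rw [if_pos h1, if_neg h2]
          apply hB'' j (by omega) i
          rcases hcase with h | h | h | h
          · have := hZ.r1_lt i j h; omega
          · have := hZ.r2_lt i j h; omega
          · exact Or.inl h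
          · exact Or.inr h
        · rw [if_neg h1, if_pos h2]
          apply hA'' i (by omega) j
          rcases hcase with h | h | h | h
          · exact Or.inl h
          · exact Or.inr h
          · have := hZ.c1_lt i j h; omega
          · have := hZ.c2_lt i j h; omega
        · exfalso
          rcases hcase with h | h | h | h
          · have := hZ.r1_lt i j h; omega
          · have := hZ.r2_lt i j h; omega
          · have := hZ.c1_lt i j h; omega
          · have := hZ.c2_lt i j h; omega
  obtain ⟨M1, hM1⟩ := (Set.finite_range oi).bddAbove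
  obtain ⟨M2, hM2⟩ := (Set.finite_range oj).bddAbove
  obtain ⟨A, B, hA, hB, hAB⟩ := key (max M1 M2 + 1)
  have b1 : ∀ i, oi i < max M1 M2 + 1 := fun i => by
    have := hM1 ⟨i, rfl⟩
    omega
  have b2 : ∀ j, oj j < max M1 M2 + 1 := fun j => by
    have := hM2 ⟨j, rfl⟩
    omega
  refine ⟨A, B, ?_⟩
  intro i j
  rcases h0 : Z i j with (_ | _) | _ | _ | _ | _
  · have e : ∀ s q, clusterN Z (i, s) (j, q) = false := by
      intro s q; simp [clusterN, h0]
    apply (hA i (b1 i)).dt_neg
    intro s
    rw [dt_comm]
    apply (hB j (b2 j)).dt_neg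
    intro q
    rw [dt_comm]
    exact (hab _ _).2 (e s q)
  · have e : ∀ s q, clusterN Z (i, s) (j, q) = true := by
      intro s q; simp [clusterN, h0]
    apply (hA i (b1 i)).dt_pos
    intro s
    rw [dt_comm]
    apply (hB j (b2 j)).dt_pos
    intro q
    rw [dt_comm]
    exact (hab _ _).1 (e s q)
  all_goals
    simp only [Ent.ok]
    exact hAB i j (b1 i) (b2 j) (by simp [h0])

/-! ### Completeness -/

/-- the sign of a Boolean as a real number -/
def sr (b : Bool) : ℝ := if b then 1 else -1

theorem eventually_sign {s : Bool} {e m n : ℕ} (hm : 0 < m) (hn : 0 < n) (p q : ℝ) :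
    ∀ᶠ ε in nhdsWithin (0 : ℝ) (Set.Ioi 0),
      (s = true → 0 < ε ^ e * (sr s + ε ^ m * p + ε ^ n * q)) ∧
      (s = false → ε ^ e * (sr s + ε ^ m * p + ε ^ n * q) < 0) := by
  have hcont : Filter.Tendsto (fun ε : ℝ => sr s + ε ^ m * p + ε ^ n * q)
      (nhdsWithin (0 : ℝ) (Set.Ioi 0)) (nhds (sr s)) := by
    have h1 : Continuous (fun ε : ℝ => sr s + ε ^ m * p + ε ^ n * q) := by fun_prop
    have h2 := h1.tendsto 0
    simp only [zero_pow hm.ne', zero_pow hn.ne', zero_mul, add_zero] at h2
    exact h2.mono_left nhdsWithin_le_nhds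
  cases s
  · have h1 : sr false < 0 := by norm_num [sr]
    filter_upwards [hcont.eventually_lt_const h1, self_mem_nhdsWithin] with ε h2 h3
    rw [Set.mem_Ioi] at h3
    exact ⟨by simp, fun _ => mul_neg_of_pos_of_neg (by positivity) h2⟩
  · have h1 : 0 < sr true := by norm_num [sr]
    filter_upwards [hcont.eventually_const_lt h1, self_mem_nhdsWithin] with ε h2 h3
    rw [Set.mem_Ioi] at h3
    exact ⟨fun _ => mul_pos (by positivity) h2, by simp⟩

/-- From an exact realization (with dual vectors) to a realization of the sign matrix. -/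
theorem cluster_complete {ι κ : Type} [Finite ι] [Finite κ] {Z : ι → κ → Ent} {oi : ι → ℕ}
    {oj : κ → ℕ} (hZ : PatOK Z oi oj) {A : ι → V3} {B : κ → V3} (hAB : Exact Z A B)
    (U : ι → Bool → V3) (W : κ → Bool → V3)
    (hr1 : ∀ i j, Z i j = .r1 → dt (U i true) (B j) = 1 ∧ dt (U i false) (B j) = 0)
    (hr2 : ∀ i j, Z i j = .r2 → dt (U i true) (B j) = 0 ∧ dt (U i false) (B j) = 1)
    (hc1 : ∀ i j, Z i j = .c1 → dt (A i) (W j true) = 1 ∧ dt (A i) (W j false) = 0)
    (hc2 : ∀ i j, Z i j = .c2 → dt (A i) (W j true) = 0 ∧ dt (A i) (W j false) = 1) :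
    SignVec (clusterN Z) := by
  classical
  obtain ⟨M1, hM1⟩ := (Set.finite_range oi).bddAbove
  obtain ⟨M2, hM2⟩ := (Set.finite_range oj).bddAbove
  set M := max M1 M2 + 1 with hM
  have b1 : ∀ i, oi i < M := fun i => by
    have := hM1 ⟨i, rfl⟩
    omega
  have b2 : ∀ j, oj j < M := fun j => by
    have := hM2 ⟨j, rfl⟩
    omega
  set av : ℝ → ι × Bool × Bool → V3 := fun ε p =>
    A p.1 + ε ^ (M - oi p.1) • (sr p.2.1 • U p.1 true + sr p.2.2 • U p.1 false) with hav
  set bv : ℝ → κ × Bool × Bool → V3 := fun ε q =>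
    B q.1 + ε ^ (M - oj q.1) • (sr q.2.1 • W q.1 true + sr q.2.2 • W q.1 false) with hbv
  have key : ∀ p q, ∀ᶠ ε in nhdsWithin (0 : ℝ) (Set.Ioi 0),
      (clusterN Z p q = true → 0 < dt (av ε p) (bv ε q)) ∧
      (clusterN Z p q = false → dt (av ε p) (bv ε q) < 0) := by
    rintro ⟨i, σ, τ⟩ ⟨j, σ', τ'⟩
    set c1 := dt (sr σ • U i true + sr τ • U i false) (B j) with hc1'
    set c2 := dt (A i) (sr σ' • W j true + sr τ' • W j false) with hc2'
    set c3 := dt (sr σ • U i true + sr τ • U i false) (sr σ' • W j true + sr τ' • W j false) with hc3'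
    have hexp : ∀ ε, dt (av ε (i, σ, τ)) (bv ε (j, σ', τ')) = dt (A i) (B j) +
        ε ^ (M - oi i) * c1 + ε ^ (M - oj j) * c2 + ε ^ (M - oi i) * ε ^ (M - oj j) * c3 := by
      intro ε
      simp only [hav, hbv, hc1', hc2', hc3', dt_add_left, dt_add_right, dt_smul_left,
        dt_smul_right]
      ring
    have hok := hAB i j
    rcases h0 : Z i j with s | _ | _ | _ | _
    · have hcont : Filter.Tendsto (fun ε : ℝ => dt (av ε (i, σ, τ)) (bv ε (j, σ', τ')))
          (nhdsWithin (0 : ℝ) (Set.Ioi 0)) (nhds (dt (A i) (B j))) := by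
        simp only [hexp]
        have h1 : Continuous (fun ε : ℝ => dt (A i) (B j) +
            ε ^ (M - oi i) * c1 + ε ^ (M - oj j) * c2 + ε ^ (M - oi i) * ε ^ (M - oj j) * c3) := by
          fun_prop
        have h2 := h1.tendsto 0
        have e1 : M - oi i ≠ 0 := by have := b1 i; omega
        have e2 : M - oj j ≠ 0 := by have := b2 j; omega
        simp only [zero_pow e1, zero_pow e2, zero_mul, add_zero] at h2
        exact h2.mono_left nhdsWithin_le_nhds
      rw [h0] at hok
      cases s
      · have e : clusterN Z (i, σ, τ) (j, σ', τ') = false := by simp [clusterN, h0]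
        rw [e]
        filter_upwards [hcont.eventually_lt_const hok] with ε h2
        exact ⟨by simp, fun _ => h2⟩
      · have e : clusterN Z (i, σ, τ) (j, σ', τ') = true := by simp [clusterN, h0]
        rw [e]
        filter_upwards [hcont.eventually_const_lt hok] with ε h2
        exact ⟨fun _ => h2, by simp⟩
    · rw [h0] at hok
      have hlt := hZ.r1_lt i j h0
      have e : clusterN Z (i, σ, τ) (j, σ', τ') = σ := by simp [clusterN, h0]
      have e1 : c1 = sr σ := by
        rw [hc1', dt_add_left, dt_smul_left, dt_smul_left, (hr1 i j h0).1, (hr1 i j h0).2]; ring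
      have hi := b1 i
      have hj := b2 j
      filter_upwards [eventually_sign (s := σ) (e := M - oi i) (m := oi i - oj j) (n := M - oj j)
        (by omega) (by omega) c2 c3] with ε h
      have e2 : dt (av ε (i, σ, τ)) (bv ε (j, σ', τ')) =
          ε ^ (M - oi i) * (sr σ + ε ^ (oi i - oj j) * c2 + ε ^ (M - oj j) * c3) := by
        rw [hexp, show dt (A i) (B j) = 0 from hok, e1]
        have e3 : M - oj j = (M - oi i) + (oi i - oj j) := by omega
        rw [e3, pow_add]
        ring
      rw [e, e2]
      exact h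
    · rw [h0] at hok
      have hlt := hZ.r2_lt i j h0
      have e : clusterN Z (i, σ, τ) (j, σ', τ') = τ := by simp [clusterN, h0]
      have e1 : c1 = sr τ := by
        rw [hc1', dt_add_left, dt_smul_left, dt_smul_left, (hr2 i j h0).1, (hr2 i j h0).2]; ring
      have hi := b1 i
      have hj := b2 j
      filter_upwards [eventually_sign (s := τ) (e := M - oi i) (m := oi i - oj j) (n := M - oj j)
        (by omega) (by omega) c2 c3] with ε h
      have e2 : dt (av ε (i, σ, τ)) (bv ε (j, σ', τ')) =
          ε ^ (M - oi i) * (sr τ + ε ^ (oi i - oj j) * c2 + ε ^ (M - oj j) * c3) := by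
        rw [hexp, show dt (A i) (B j) = 0 from hok, e1]
        have e3 : M - oj j = (M - oi i) + (oi i - oj j) := by omega
        rw [e3, pow_add]
        ring
      rw [e, e2]
      exact h
    · rw [h0] at hok
      have hlt := hZ.c1_lt i j h0
      have e : clusterN Z (i, σ, τ) (j, σ', τ') = σ' := by simp [clusterN, h0]
      have e1 : c2 = sr σ' := by
        rw [hc2', dt_add_right, dt_smul_right, dt_smul_right, (hc1 i j h0).1, (hc1 i j h0).2]; ring
      have hi := b1 i
      have hj := b2 j
      filter_upwards [eventually_sign (s := σ') (e := M - oj j) (m := oj j - oi i) (n := M - oi i)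
        (by omega) (by omega) c1 c3] with ε h
      have e2 : dt (av ε (i, σ, τ)) (bv ε (j, σ', τ')) =
          ε ^ (M - oj j) * (sr σ' + ε ^ (oj j - oi i) * c1 + ε ^ (M - oi i) * c3) := by
        rw [hexp, show dt (A i) (B j) = 0 from hok, e1]
        have e3 : M - oi i = (M - oj j) + (oj j - oi i) := by omega
        rw [e3, pow_add]
        ring
      rw [e, e2]
      exact h
    · rw [h0] at hok
      have hlt := hZ.c2_lt i j h0
      have e : clusterN Z (i, σ, τ) (j, σ', τ') = τ' := by simp [clusterN, h0]
      have e1 : c2 = sr τ' := by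
        rw [hc2', dt_add_right, dt_smul_right, dt_smul_right, (hc2 i j h0).1, (hc2 i j h0).2]; ring
      have hi := b1 i
      have hj := b2 j
      filter_upwards [eventually_sign (s := τ') (e := M - oj j) (m := oj j - oi i) (n := M - oi i)
        (by omega) (by omega) c1 c3] with ε h
      have e2 : dt (av ε (i, σ, τ)) (bv ε (j, σ', τ')) =
          ε ^ (M - oj j) * (sr τ' + ε ^ (oj j - oi i) * c1 + ε ^ (M - oi i) * c3) := by
        rw [hexp, show dt (A i) (B j) = 0 from hok, e1]
        have e3 : M - oi i = (M - oj j) + (oj j - oi i) := by omega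
        rw [e3, pow_add]
        ring
      rw [e, e2]
      exact h
  have hall : ∀ᶠ ε in nhdsWithin (0 : ℝ) (Set.Ioi 0), ∀ p q,
      (clusterN Z p q = true → 0 < dt (av ε p) (bv ε q)) ∧
      (clusterN Z p q = false → dt (av ε p) (bv ε q) < 0) := by
    rw [Filter.eventually_all]
    intro p
    rw [Filter.eventually_all]
    exact key p
  obtain ⟨ε, hε⟩ := hall.exists
  exact ⟨av ε, bv ε, hε⟩

end Pool.Agent.Lib.ETR
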