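import Pool.Agent.Lib.ETR.GapMatrix

set_option autoImplicit false

/-!
# The gap theorem: approximate zeros of bounded norm imply exact zeros
-/

namespace Pool.Agent.Lib.ETR

open Polynomial

/-- No root `s` beyond the bound, for `v` beyond the Cauchy bound. -/
theorem no_root (P : ℤ[X][X]) (hP : P ≠ 0) (v s : ℝ)
    (hv : polySize (polySize (fun a : ℤ => |(a : ℝ)|)) P + 1 ≤ v) (hs1 : 1 ≤ s)
    (hs : polySize (fun a : ℝ => |a|) (P.map (aeval v : ℤ[X] →ₐ[ℤ] ℝ).toRingHom) < s) :
    eval s (P.map (aeval v : ℤ[X] →ₐ[ℤ] ℝ).toRingHom) ≠ 0 := by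
  classical
  set Q := P.map (aeval v : ℤ[X] →ₐ[ℤ] ℝ).toRingHom with hQ
  set d := P.natDegree with hd
  have hco : ∀ l, Q.coeff l = aeval v (P.coeff l) := by
    intro l
    rw [hQ, Polynomial.coeff_map]
    rfl
  have hsz : polySize (fun a : ℤ => |(a : ℝ)|) (P.coeff d) ≤
      polySize (polySize (fun a : ℤ => |(a : ℝ)|)) P := by
    apply Finset.single_le_sum (f := fun l => polySize (fun a : ℤ => |(a : ℝ)|) (P.coeff l))
      (fun _ _ => isSize_int.polySize_nonneg _)
    exact Polynomial.natDegree_mem_support_of_nonzero hP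
  have hlead : 1 ≤ |Q.coeff d| := by
    rw [hco]
    apply one_le_abs_eval
    · exact Polynomial.leadingCoeff_ne_zero.mpr hP
    · linarith
  have hsupp : Q.support ⊆ Finset.range (d + 1) := by
    intro l hl
    rw [Finset.mem_range]
    have := Polynomial.support_map_subset _ _ hl
    exact Nat.lt_succ_of_le (Polynomial.le_natDegree_of_mem_supp l this)
  have heval : eval s Q = (∑ l ∈ Finset.range d, Q.coeff l * s ^ l) + Q.coeff d * s ^ d := by
    rw [Polynomial.eval_eq_sum, Polynomial.sum_def, ← Finset.sum_range_succ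
      (fun l => Q.coeff l * s ^ l)]
    apply Finset.sum_subset hsupp
    intro l _ hl
    rw [Polynomial.notMem_support_iff.mp hl, zero_mul]
  rcases Nat.eq_zero_or_pos d with h0 | hpos
  · rw [heval, h0]
    simp only [Finset.range_zero, Finset.sum_empty, zero_add, pow_zero, mul_one]
    rw [h0] at hlead
    intro h
    rw [h] at hlead
    norm_num at hlead
  · have hlow : |∑ l ∈ Finset.range d, Q.coeff l * s ^ l| ≤
        polySize (fun a : ℝ => |a|) Q * s ^ (d - 1) := by
      refine (Finset.abs_sum_le_sum_abs _ _).trans ?_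
      rw [isSize_real.polySize_eq hsupp, Finset.sum_mul]
      rw [Finset.sum_range_succ]
      have h1 : (0 : ℝ) ≤ |Q.coeff d| * s ^ (d - 1) := by positivity
      have h2 : ∑ l ∈ Finset.range d, |Q.coeff l * s ^ l| ≤
          ∑ l ∈ Finset.range d, |Q.coeff l| * s ^ (d - 1) := by
        apply Finset.sum_le_sum
        intro l hl
        rw [Finset.mem_range] at hl
        rw [abs_mul, abs_of_nonneg (by positivity : (0:ℝ) ≤ s ^ l)]
        exact mul_le_mul_of_nonneg_left (pow_le_pow_right₀ hs1 (by omega)) (abs_nonneg _)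
      linarith
    have hsd : s ^ d = s * s ^ (d - 1) := by rw [← pow_succ', Nat.sub_add_cancel hpos]
    have hp : 0 < s ^ (d - 1) := by positivity
    have hmain : s * s ^ (d - 1) ≤ |Q.coeff d * s ^ d| := by
      rw [abs_mul, hsd, abs_of_nonneg (by positivity : (0:ℝ) ≤ s * s ^ (d - 1))]
      exact le_mul_of_one_le_left (by positivity) hlead
    intro h
    rw [heval] at h
    have h3 : |Q.coeff d * s ^ d| = |∑ l ∈ Finset.range d, Q.coeff l * s ^ l| := by
      rw [eq_neg_of_add_eq_zero_right h, abs_neg]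
    rw [h3] at hmain
    have h4 := hmain.trans hlow
    have h5 := le_of_mul_le_mul_right h4 hp
    linarith

/-- The threshold for the norm. -/
def kB {n : ℕ} (F : Terms n) : ℕ := (nB n).factorial * (1 + eB F) ^ nB n + 1

/-- The threshold for the parameter `s`, given a bound `K` for the norm. -/
noncomputable def sB {n : ℕ} (F : Terms n) (K : ℝ) : ℝ :=
  (nB n).factorial * (K + 1 + eB F) ^ nB n + 1

/-- Minimal values avoid an interval. -/
theorem gap_interval {n : ℕ} {F : Terms n} (hd : ∀ t ∈ F, dg t.2 ≤ 4) {s K : ℝ} {x : Fin n → ℝ}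
    (hs : sB F K ≤ s) (hx : Crit F s x) (h1 : (kB F : ℝ) ≤ gfun F s x) :
    K + 1 < gfun F s x := by
  by_contra hcon
  push Not at hcon
  obtain ⟨P, hP, hsize, hsize', hroot⟩ := exists_relation F hd
  have hv0 : (0 : ℝ) ≤ gfun F s x := (Nat.cast_nonneg _).trans h1
  refine no_root P hP (gfun F s x) s ?_ ?_ ?_ (hroot s x hx)
  · refine le_trans ?_ h1
    unfold kB
    push_cast
    linarith
  · refine le_trans ?_ hs
    unfold sB
    have : (0 : ℝ) ≤ (nB n).factorial * (K + 1 + eB F) ^ nB n := by
      have : (0 : ℝ) ≤ K + 1 + eB F := add_nonneg (hv0.trans hcon) (Nat.cast_nonneg _)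
      positivity
    linarith
  · refine lt_of_le_of_lt (hsize' _ hv0) (lt_of_lt_of_le ?_ hs)
    unfold sB
    have : (gfun F s x + eB F : ℝ) ^ nB n ≤ (K + 1 + eB F) ^ nB n := by
      gcongr
    have h3 : ((nB n).factorial : ℝ) * (gfun F s x + eB F : ℝ) ^ nB n ≤
        (nB n).factorial * (K + 1 + eB F) ^ nB n := mul_le_mul_of_nonneg_left this (by positivity)
    linarith

/-- If there is an exact zero then there are approximate zeros of small norm. -/
theorem gap_complete {n : ℕ} {F : Terms n} (hF : ∀ x, 0 ≤ Terms.val F x)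
    (hd : ∀ t ∈ F, dg t.2 ≤ 4) {z : Fin n → ℝ} (hz : Terms.val F z = 0) {s : ℝ} (hs : 0 < s) :
    ∃ x, gfun F s x ≤ kB F := by
  obtain ⟨x, hx⟩ := exists_min hF hs.le
  refine ⟨x, ?_⟩
  by_contra hcon
  push Not at hcon
  set B := gfun F 0 z with hB
  have hBz : ∀ s', gfun F s' z = B := by
    intro s'
    simp [hB, gfun, hz]
  set s' := max s (sB F B) with hs'
  have hs'0 : 0 < s' := lt_of_lt_of_le hs (le_max_left _ _)
  obtain ⟨x', hx'⟩ := exists_min hF hs'0.le
  have h1 : gfun F s x ≤ gfun F s' x' := by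
    refine (hx x').trans ?_
    unfold gfun
    have h2 : s ≤ s' := le_max_left _ _
    have h3 : 0 ≤ Terms.val F x' := hF x'
    nlinarith
  have h2 : gfun F s' x' ≤ B := (hx' z).trans (hBz s').le
  have h3 := gap_interval hd (le_max_right _ _ : sB F B ≤ s') (crit_of_min hx') (by linarith)
  linarith

/-- An approximate zero of bounded norm implies an exact zero. -/
theorem gap_sound {n : ℕ} {F : Terms n} (hF : ∀ x, 0 ≤ Terms.val F x)
    (hd : ∀ t ∈ F, dg t.2 ≤ 4) {K s : ℝ} (hK : (kB F : ℝ) ≤ K) (hs : sB F K ≤ s)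
    {x : Fin n → ℝ} (hx : gfun F s x ≤ K) : ∃ z, Terms.val F z = 0 := by
  by_contra hcon
  push Not at hcon
  have hpos : ∀ z, 0 < Terms.val F z := fun z => lt_of_le_of_ne (hF z) (hcon z).symm
  have hK1 : (1 : ℝ) ≤ K := by
    refine le_trans ?_ hK
    unfold kB
    push_cast
    have : (0 : ℝ) ≤ (nB n).factorial * (1 + eB F : ℝ) ^ nB n := by positivity
    linarith
  have hs0 : 0 < s := by
    refine lt_of_lt_of_le ?_ hs
    unfold sB
    have : (0 : ℝ) ≤ (nB n).factorial * (K + 1 + eB F) ^ nB n := by positivity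
    linarith
  -- a uniform lower bound on a compact set
  have hcomp : IsCompact (Metric.closedBall (0 : Fin n → ℝ) (K + 1)) :=
    isCompact_closedBall _ _
  obtain ⟨y, -, hy⟩ := hcomp.exists_isMinOn ⟨0, Metric.mem_closedBall_self (by linarith)⟩
    (continuous_terms F).continuousOn
  have hlow : ∀ z, ∑ i, z i ^ 6 ≤ K + 1 → Terms.val F y ≤ Terms.val F z := by
    intro z hz
    apply hy
    rw [Metric.mem_closedBall, dist_zero_right, pi_norm_le_iff_of_nonneg (by linarith)]
    intro i
    rw [Real.norm_eq_abs]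
    by_contra hgt
    push Not at hgt
    have h1 : 1 ≤ |z i| := by linarith
    have h3 : |z i| ≤ |z i| ^ 6 := le_self_pow₀ h1 (by norm_num)
    have h4 : |z i| ^ 6 = z i ^ 6 := by
      rw [← abs_pow, abs_of_nonneg]
      positivity
    have h5 : z i ^ 6 ≤ ∑ j, z j ^ 6 :=
      Finset.single_le_sum (f := fun j => z j ^ 6) (fun j _ => by positivity) (Finset.mem_univ i)
    linarith
  set c := Terms.val F y with hc
  have hc0 : 0 < c := hpos y
  -- the minimal values along a geometric sequence
  set r := (K + 1) / K with hr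
  have hr1 : 1 < r := by
    rw [hr, lt_div_iff₀ (by linarith)]
    linarith
  have hex : ∃ k : ℕ, ∀ z, K < gfun F (s * r ^ k) z := by
    obtain ⟨k, hk⟩ := pow_unbounded_of_one_lt ((K + 2) / (6 * c * s)) hr1
    refine ⟨k, fun z => ?_⟩
    have h0 : 0 ≤ ∑ i, z i ^ 6 := Finset.sum_nonneg (fun i _ => by positivity)
    by_cases hz : ∑ i, z i ^ 6 ≤ K + 1
    · have h1 := hlow z hz
      have h2 : K + 2 < 6 * c * s * r ^ k := by
        rw [div_lt_iff₀ (by positivity)] at hk
        linarith
      have h3 : 6 * (s * r ^ k) * c ≤ 6 * (s * r ^ k) * Terms.val F z := by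
        have : 0 < s * r ^ k := by positivity
        exact mul_le_mul_of_nonneg_left h1 (by positivity)
      unfold gfun
      nlinarith
    · push Not at hz
      have h3 : 0 ≤ 6 * (s * r ^ k) * Terms.val F z := by
        have : 0 < s * r ^ k := by positivity
        have := hF z
        positivity
      unfold gfun
      linarith
  classical
  set k := Nat.find hex with hk
  have hk1 : ∀ z, K < gfun F (s * r ^ k) z := Nat.find_spec hex
  have hkpos : k ≠ 0 := by
    intro h
    have := hk1 x
    rw [h, pow_zero, mul_one] at this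
    linarith
  obtain ⟨j, hj⟩ := Nat.exists_eq_succ_of_ne_zero hkpos
  have hjlt : j < Nat.find hex := by rw [← hk, hj]; exact Nat.lt_succ_self j
  have hj1 := Nat.find_min hex hjlt
  push Not at hj1
  obtain ⟨z, hz⟩ := hj1
  have hsk : 0 < s * r ^ k := by positivity
  obtain ⟨x', hx'⟩ := exists_min hF hsk.le
  have h1 : gfun F (s * r ^ k) x' ≤ K + 1 := by
    refine (hx' z).trans ?_
    have h2 : gfun F (s * r ^ k) z ≤ r * gfun F (s * r ^ j) z := by
      unfold gfun
      have h0 : 0 ≤ ∑ i, z i ^ 6 := Finset.sum_nonneg (fun i _ => by positivity)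
      rw [hj, pow_succ]
      nlinarith
    have h3 : r * gfun F (s * r ^ j) z ≤ r * K := mul_le_mul_of_nonneg_left hz (by positivity)
    have h4 : r * K = K + 1 := by
      rw [hr]
      field_simp
    linarith
  have h2 := hk1 x'
  have hsle : sB F K ≤ s * r ^ k := by
    refine hs.trans ?_
    exact le_mul_of_one_le_right hs0.le (one_le_pow₀ hr1.le)
  have h3 := gap_interval hd hsle (crit_of_min hx') (by linarith)
  linarith

end Pool.Agent.Lib.ETR
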