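import Pool.Agent.Lib.ETR.GapSystem

set_option autoImplicit false

/-!
# Explicit bounds in the gap theorem
-/

namespace Pool.Agent.Lib.ETR

open Pool.Agent.Lib.MP_0f8b55_lc (Con)

/-- The number of squarings for the norm bound. -/
def k0 (n J : ℕ) : ℕ := 4 * n + J + 10

/-- The number of squarings for the precision. -/
def k1 (n : ℕ) : ℕ := 3 * n + 4

theorem nB_le (n : ℕ) : nB n ≤ 2 ^ (3 * n) := by
  unfold nB
  rw [pow_mul]
  exact Nat.pow_le_pow_left (by norm_num) n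

theorem kB_le {n J : ℕ} (F : Terms n) (h : Terms.size F ≤ 9 * (J + 1)) :
    kB F ≤ 2 ^ 2 ^ k0 n J := by
  have hJ : J + 1 ≤ 2 ^ J := Nat.lt_two_pow_self
  have hn : n + 1 ≤ 2 ^ n := Nat.lt_two_pow_self
  have h1 : hB F ≤ 2 ^ (J + 6) := by
    unfold hB
    rw [pow_add]
    omega
  have h2 : 1 + eB F ≤ 2 ^ ((J + n + 6) + (J + 6) * (4 * n + 6)) := by
    unfold eB
    have e1 : hB F ^ (4 * n + 6) ≤ 2 ^ ((J + 6) * (4 * n + 6)) := by
      rw [pow_mul]
      exact Nat.pow_le_pow_left h1 _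
    have e2 : 6 * Terms.size F + n + 1 ≤ 2 ^ (J + n + 6) := by
      have e3 : 2 ^ (J + n + 6) = 64 * (2 ^ J * 2 ^ n) := by
        rw [pow_add, pow_add]; ring
      rw [e3]
      have e4 : (J + 1) * (n + 1) ≤ 2 ^ J * 2 ^ n := Nat.mul_le_mul hJ hn
      nlinarith
    have e5 : 1 ≤ 2 ^ ((J + 6) * (4 * n + 6)) := Nat.one_le_two_pow
    calc 1 + (6 * Terms.size F + n) * hB F ^ (4 * n + 6)
        ≤ 2 ^ ((J + 6) * (4 * n + 6)) + (6 * Terms.size F + n) * 2 ^ ((J + 6) * (4 * n + 6)) := by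
          gcongr
      _ = (6 * Terms.size F + n + 1) * 2 ^ ((J + 6) * (4 * n + 6)) := by ring
      _ ≤ 2 ^ (J + n + 6) * 2 ^ ((J + 6) * (4 * n + 6)) := Nat.mul_le_mul_right _ e2
      _ = _ := by rw [← pow_add]
  have hN := nB_le n
  have hN1 : 1 ≤ nB n := Nat.one_le_pow _ _ (by norm_num)
  have h3 : (nB n).factorial ≤ 2 ^ (3 * n * nB n) := by
    refine (Nat.factorial_le_pow (nB n)).trans ?_
    rw [pow_mul]
    exact Nat.pow_le_pow_left hN _
  set T := (J + n + 6) + (J + 6) * (4 * n + 6) with hT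
  have h4 : (nB n).factorial * (1 + eB F) ^ nB n ≤ 2 ^ ((3 * n + T) * nB n) := by
    have : (1 + eB F) ^ nB n ≤ 2 ^ (T * nB n) := by
      rw [pow_mul]
      exact Nat.pow_le_pow_left h2 _
    calc _ ≤ 2 ^ (3 * n * nB n) * 2 ^ (T * nB n) := Nat.mul_le_mul h3 this
      _ = _ := by rw [← pow_add]; ring_nf
  have h5 : kB F ≤ 2 ^ ((3 * n + T) * nB n + 1) := by
    unfold kB
    rw [pow_succ]
    have : 1 ≤ 2 ^ ((3 * n + T) * nB n) := Nat.one_le_two_pow
    omega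
  refine h5.trans (Nat.pow_le_pow_right (by norm_num) ?_)
  have h6 : (3 * n + T) * nB n + 1 ≤ (3 * n + T + 1) * nB n := by nlinarith
  have h7 : 3 * n + T + 1 ≤ 2 ^ (n + J + 6) := by
    have e3 : 2 ^ (n + J + 6) = 64 * (2 ^ n * 2 ^ J) := by
      rw [pow_add, pow_add]; ring
    have e4 : (n + 1) * (J + 1) ≤ 2 ^ n * 2 ^ J := Nat.mul_le_mul hn hJ
    rw [e3, hT]
    nlinarith
  calc (3 * n + T) * nB n + 1 ≤ (3 * n + T + 1) * nB n := h6
    _ ≤ 2 ^ (n + J + 6) * 2 ^ (3 * n) := Nat.mul_le_mul h7 hN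
    _ = 2 ^ (4 * n + J + 6) := by rw [← pow_add]; ring_nf
    _ ≤ 2 ^ k0 n J := Nat.pow_le_pow_right (by norm_num) (by unfold k0; omega)

theorem sys_nonneg {n : ℕ} (hn : 2 ≤ n) {E : List Con} (hE : Below n E) (x : Fin n → ℝ) :
    0 ≤ Terms.val (sysF n E) x := by
  set X' : ℕ → ℝ := fun j : ℕ => if h : j < n then x ⟨j, h⟩ else 0 with hX'
  have h : (fun i : Fin n => X' i) = x := by
    funext i
    simp [hX']
  have h2 := sysF_val hn hE X'
  rw [h] at h2
  rw [h2]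
  exact sqErr_nonneg _ _

theorem sys_deg {n : ℕ} (hn : 2 ≤ n) {E : List Con} (hE : Below n E) :
    ∀ t ∈ sysF n E, dg t.2 ≤ 4 := by
  intro t ht
  rw [sysF, List.mem_map] at ht
  obtain ⟨u, hu, rfl⟩ := ht
  rw [dg_ev u.2 (sysT_lt hn hE u hu)]
  exact sysT_length E u hu

theorem pow6_nonneg (a : ℝ) : 0 ≤ a ^ 6 := by positivity

theorem abs_pow6 (a : ℝ) : |a| ^ 6 = a ^ 6 := by
  rw [← abs_pow, abs_of_nonneg (pow6_nonneg a)]

theorem aux_cast_nonneg (a b c : ℕ) : (0 : ℝ) ≤ (a : ℝ) * (1 + (b : ℝ)) ^ c := by positivity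

theorem aux_n {n L P : ℕ} (h : (n + 1) * (L + 1) ≤ P) :
    1024 ≤ 1024 * P ∧ n ≤ 1024 * P ∧ 6 * (L + 1) ≤ 1024 * P := by
  have h1 : n + 1 ≤ (n + 1) * (L + 1) := Nat.le_mul_of_pos_right _ (by omega)
  have h2 : L + 1 ≤ (n + 1) * (L + 1) := Nat.le_mul_of_pos_left _ (by omega)
  omega

theorem aux_KB {a e B C : ℝ} (h2 : a ≤ C) (he : e + 2 ≤ B) (h3 : B ≤ C) (hB : 1024 ≤ B) :
    a + 1 + 1 + e ≤ B * C := by
  have : 1024 * C ≤ B * C := mul_le_mul_of_nonneg_right hB (by linarith)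
  linarith

theorem sB_nonneg {n : ℕ} (F : Terms n) {K : ℝ} (hK : 0 ≤ K) : 0 ≤ sB F K := by
  unfold sB
  positivity


/-- A solvable system has approximate solutions of doubly exponential norm. -/
theorem sysGap_complete {n : ℕ} (hn : 2 ≤ n) {E : List Con} (hE : Below n E)
    (hex : ∃ X : ℕ → ℝ, X 1 = 1 ∧ ∀ e ∈ E, e.holds X) {η : ℝ} (hη : 0 < η) :
    ∃ X : ℕ → ℝ, (∀ i, |X i| ≤ 2 ^ 2 ^ k0 n E.length) ∧ |X 1 - 1| ≤ η ∧
      ∀ e ∈ E, |cerr X e| ≤ η := by
  obtain ⟨X, h1, hX⟩ := hex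
  have hz : Terms.val (sysF n E) (fun i : Fin n => X i) = 0 := by
    rw [sysF_val hn hE]
    unfold sqErr
    rw [h1]
    have : ∀ a ∈ E.map (fun e => cerr X e ^ 2), a = 0 := by
      intro a ha
      rw [List.mem_map] at ha
      obtain ⟨e, he, rfl⟩ := ha
      have h2 := hX e he
      obtain ⟨b, a1, a2, a3⟩ := e
      cases b <;> simp only [Con.holds] at h2 <;> simp [cerr, h2]
    rw [List.sum_eq_zero this]
    norm_num
  set B := kB (sysF n E) with hB
  have hBle : (B : ℝ) ≤ 2 ^ 2 ^ k0 n E.length := by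
    exact_mod_cast kB_le (sysF n E) (sysF_size E)
  have hB1 : (1 : ℝ) ≤ B := by
    rw [hB]
    unfold kB
    push_cast
    have : (0 : ℝ) ≤ (nB n).factorial * (1 + eB (sysF n E) : ℝ) ^ nB n :=
      aux_cast_nonneg _ _ _
    linarith
  set s := B / (6 * η ^ 2) with hs
  have hs0 : 0 < s := by
    have : (0 : ℝ) < B := by linarith
    exact div_pos this (mul_pos (by norm_num) (pow_pos hη 2))
  obtain ⟨x, hx⟩ := gap_complete (sys_nonneg hn hE) (sys_deg hn hE) hz hs0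
  have h6 : 0 ≤ ∑ i, x i ^ 6 := Finset.sum_nonneg (fun i _ => pow6_nonneg _)
  have hv := sys_nonneg hn hE x
  set X' : ℕ → ℝ := fun j : ℕ => if h : j < n then x ⟨j, h⟩ else 0 with hX'
  have hxX : x = fun i : Fin n => X' i := by
    funext i
    simp [hX']
  have hval : Terms.val (sysF n E) x = sqErr X' E := by rw [hxX, sysF_val hn hE]
  have hle : sqErr X' E ≤ η ^ 2 := by
    rw [← hval]
    unfold gfun at hx
    have h7 : 6 * s * Terms.val (sysF n E) x ≤ B := by linarith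
    have h8 : 6 * s = B / η ^ 2 := by rw [hs]; field_simp
    rw [h8, div_mul_eq_mul_div, div_le_iff₀ (pow_pos hη 2)] at h7
    have hBpos : (0 : ℝ) < B := by linarith
    exact le_of_mul_le_mul_left h7 hBpos
  refine ⟨X', ?_, of_sqErr hη.le hle⟩
  intro i
  rw [hX']
  simp only
  split_ifs with hi
  · have h9 : x ⟨i, hi⟩ ^ 6 ≤ ∑ j, x j ^ 6 :=
      Finset.single_le_sum (f := fun j => x j ^ 6) (fun j _ => pow6_nonneg _) (Finset.mem_univ _)
    have h10 : x ⟨i, hi⟩ ^ 6 ≤ B := by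
      unfold gfun at hx
      have : 0 ≤ 6 * s * Terms.val (sysF n E) x :=
        mul_nonneg (mul_nonneg (by norm_num) hs0.le) hv
      linarith
    refine le_trans ?_ hBle
    by_contra hcon
    push Not at hcon
    have h11 : |x ⟨i, hi⟩| ≤ |x ⟨i, hi⟩| ^ 6 := le_self_pow₀ (by linarith) (by norm_num)
    have h12 : |x ⟨i, hi⟩| ^ 6 = x ⟨i, hi⟩ ^ 6 := abs_pow6 _
    linarith
  · rw [abs_zero]
    exact pow_nonneg zero_le_two _

/-- A sufficiently precise approximate solution of bounded norm implies an exact solution. -/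
theorem sysGap_sound {n : ℕ} (hn : 2 ≤ n) {E : List Con} (hE : Below n E) {B ρ : ℝ}
    (hB : 2 ^ 2 ^ k0 n E.length ≤ B) (hρ0 : 0 ≤ ρ) (hρ : ρ * B ^ 2 ^ k1 n ≤ 1) {X : ℕ → ℝ}
    (hX : ∀ i < n, |X i| ≤ B) (h1 : |X 1 - 1| ≤ ρ) (hXE : ∀ e ∈ E, |cerr X e| ≤ ρ) :
    ∃ Z : ℕ → ℝ, Z 1 = 1 ∧ ∀ e ∈ E, e.holds Z := by
  set F := sysF n E with hF
  have hkB : (kB F : ℝ) ≤ B := by
    refine le_trans ?_ hB
    exact_mod_cast kB_le F (sysF_size E)
  have hN1 : 1 ≤ nB n := Nat.one_le_pow _ _ (by norm_num)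
  have hfac1 : 1 ≤ (nB n).factorial := Nat.succ_le_of_lt (Nat.factorial_pos _)
  have heB : eB F + 2 ≤ kB F := by
    unfold kB
    have h2 : 1 + eB F ≤ (1 + eB F) ^ nB n := Nat.le_self_pow (by omega) _
    have h3 : (1 + eB F) ^ nB n ≤ (nB n).factorial * (1 + eB F) ^ nB n :=
      Nat.le_mul_of_pos_left _ (by omega)
    omega
  have hfac : (nB n).factorial ≤ kB F := by
    unfold kB
    have h2 : 1 ≤ (1 + eB F) ^ nB n := Nat.one_le_pow _ _ (by omega)
    nlinarith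
  have hfacB : ((nB n).factorial : ℝ) ≤ B := le_trans (by exact_mod_cast hfac) hkB
  have heBB : (eB F : ℝ) + 2 ≤ B := le_trans (by exact_mod_cast heB) hkB
  -- crude lower bounds for `B`
  have hbig : ((2 : ℕ) ^ 2 ^ k0 n E.length : ℝ) ≤ B := by exact_mod_cast hB
  have hlow : 2 ^ (n + E.length + 10) ≤ 2 ^ 2 ^ k0 n E.length := by
    apply Nat.pow_le_pow_right (by norm_num)
    have : k0 n E.length < 2 ^ k0 n E.length := Nat.lt_two_pow_self
    unfold k0 at *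
    omega
  have hlowB : ((2 ^ (n + E.length + 10) : ℕ) : ℝ) ≤ B := by
    refine le_trans ?_ hbig
    exact_mod_cast hlow
  have hnJ : (n + 1) * (E.length + 1) ≤ 2 ^ n * 2 ^ E.length :=
    Nat.mul_le_mul Nat.lt_two_pow_self Nat.lt_two_pow_self
  have hpow : 2 ^ (n + E.length + 10) = 1024 * (2 ^ n * 2 ^ E.length) := by
    rw [pow_add, pow_add]; ring
  have hB1024 : (1024 : ℝ) ≤ B := by
    refine le_trans ?_ hlowB
    have : 1024 ≤ 2 ^ (n + E.length + 10) := by rw [hpow]; exact (aux_n hnJ).1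
    exact_mod_cast this
  have hnB : (n : ℝ) ≤ B := by
    refine le_trans ?_ hlowB
    have : n ≤ 2 ^ (n + E.length + 10) := by rw [hpow]; exact (aux_n hnJ).2.1
    exact_mod_cast this
  have hJB : (6 * (E.length + 1) : ℝ) ≤ B := by
    refine le_trans ?_ hlowB
    have : 6 * (E.length + 1) ≤ 2 ^ (n + E.length + 10) := by rw [hpow]; exact (aux_n hnJ).2.2
    exact_mod_cast this
  have hB0 : 0 < B := by linarith
  have hB1 : 1 ≤ B := by linarith
  -- the choice of `K`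
  set K := n * B ^ 6 + 1 with hK
  have hB6 : B ≤ B ^ 6 := le_self_pow₀ hB1 (by norm_num)
  have hK0 : (kB F : ℝ) ≤ K := by
    have hn1 : (1 : ℝ) ≤ n := by exact_mod_cast (by omega : 1 ≤ n)
    have h2 : B ^ 6 ≤ n * B ^ 6 := le_mul_of_one_le_left (by positivity) hn1
    linarith
  have hKnn : 0 ≤ K := le_trans (Nat.cast_nonneg _) hK0
  have hKB : K + 1 + eB F ≤ B ^ 8 := by
    have h2 : (n : ℝ) * B ^ 6 ≤ B ^ 7 := by
      have : B ^ 7 = B * B ^ 6 := by ring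
      rw [this]
      exact mul_le_mul_of_nonneg_right hnB (by positivity)
    have h3 : B ≤ B ^ 7 := le_self_pow₀ hB1 (by norm_num)
    have h4 : B ^ 8 = B * B ^ 7 := by ring
    rw [hK, h4]
    exact aux_KB h2 heBB h3 hB1024
  have hsB : sB F K + 1 ≤ B ^ (8 * nB n + 2) := by
    unfold sB
    have hKe : 0 ≤ K + 1 + eB F := by
      have : (0 : ℝ) ≤ eB F := Nat.cast_nonneg _
      have : (0 : ℝ) ≤ kB F := Nat.cast_nonneg _
      linarith
    have h2 : (K + 1 + eB F) ^ nB n ≤ (B ^ 8) ^ nB n := pow_le_pow_left₀ hKe hKB _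
    have h3 : ((nB n).factorial : ℝ) * (K + 1 + eB F) ^ nB n ≤ B * (B ^ 8) ^ nB n :=
      mul_le_mul hfacB h2 (pow_nonneg hKe _) hB0.le
    have h4 : B ^ (8 * nB n + 2) = B * (B * (B ^ 8) ^ nB n) := by
      rw [← pow_mul]; ring
    have h5 : 1 ≤ (B ^ 8) ^ nB n := one_le_pow₀ (one_le_pow₀ hB1)
    rw [h4]
    set A := B * (B ^ 8) ^ nB n with hA
    have hA1 : 1 ≤ A := by
      rw [hA]
      exact one_le_mul_of_one_le_of_one_le hB1 h5
    have h6 : 1024 * A ≤ B * A := mul_le_mul_of_nonneg_right hB1024 (by linarith)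
    linarith
  -- the precision
  have hexp : 8 * nB n + 3 ≤ 2 ^ k1 n := by
    have h2 := nB_le n
    have h3 : 2 ^ k1 n = 16 * 2 ^ (3 * n) := by
      unfold k1
      rw [pow_add]; ring
    omega
  have hρ1 : ρ * B ^ (8 * nB n + 3) ≤ 1 := by
    refine le_trans ?_ hρ
    exact mul_le_mul_of_nonneg_left (pow_le_pow_right₀ hB1 hexp) hρ0
  have hBp1 : 1 ≤ B ^ (8 * nB n + 3) := one_le_pow₀ hB1
  have hρle : ρ ≤ 1 := le_trans (le_mul_of_one_le_right hρ0 hBp1) hρ1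
  have hsq : 6 * sB F K * ((E.length + 1) * ρ ^ 2) ≤ 1 := by
    have h2 : 6 * sB F K * ((E.length + 1) * ρ ^ 2) =
        (6 * (E.length + 1)) * sB F K * (ρ * ρ) := by ring
    have hs0 : 0 ≤ sB F K := sB_nonneg F hKnn
    have h3 : (6 * (E.length + 1) : ℝ) * sB F K ≤ B * B ^ (8 * nB n + 2) := by
      gcongr
      linarith
    have h4 : B * B ^ (8 * nB n + 2) = B ^ (8 * nB n + 3) := by rw [← pow_succ']
    calc 6 * sB F K * ((E.length + 1) * ρ ^ 2) = (6 * (E.length + 1)) * sB F K * (ρ * ρ) := h2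
      _ ≤ B ^ (8 * nB n + 3) * (ρ * ρ) := by
          rw [← h4]
          exact mul_le_mul_of_nonneg_right h3 (by positivity)
      _ = (ρ * B ^ (8 * nB n + 3)) * ρ := by ring
      _ ≤ 1 * 1 := mul_le_mul hρ1 hρle hρ0 zero_le_one
      _ = 1 := one_mul 1
  have hg : gfun F (sB F K) (fun i : Fin n => X i) ≤ K := by
    unfold gfun
    rw [hF, sysF_val hn hE, ← hF]
    have h2 : 6 * sB F K * sqErr X E ≤ 1 := by
      refine le_trans ?_ hsq
      have hs0 : 0 ≤ sB F K := sB_nonneg F hKnn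
      exact mul_le_mul_of_nonneg_left (sqErr_le h1 hXE) (by positivity)
    have h3 : ∑ i : Fin n, X i ^ 6 ≤ n * B ^ 6 := by
      calc ∑ i : Fin n, X i ^ 6 ≤ ∑ _i : Fin n, B ^ 6 := by
            apply Finset.sum_le_sum
            intro i _
            have h4 := hX i i.2
            have h5 : X i ^ 6 = |X i| ^ 6 := (abs_pow6 _).symm
            rw [h5]
            exact pow_le_pow_left₀ (abs_nonneg _) h4 6
        _ = n * B ^ 6 := by
            rw [Finset.sum_const, Finset.card_univ, Fintype.card_fin, nsmul_eq_mul]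
    rw [hK]
    linarith
  obtain ⟨z, hz⟩ := gap_sound (sys_nonneg hn hE) (sys_deg hn hE) hK0 (le_refl _) hg
  set Z : ℕ → ℝ := fun j : ℕ => if h : j < n then z ⟨j, h⟩ else 0 with hZ
  have hzZ : z = fun i : Fin n => Z i := by
    funext i
    simp [hZ]
  rw [hzZ, sysF_val hn hE] at hz
  have h0 := of_sqErr (le_refl (0 : ℝ)) (by rw [hz]; norm_num : sqErr Z E ≤ 0 ^ 2)
  refine ⟨Z, ?_, ?_⟩
  · have := abs_nonpos_iff.mp h0.1
    linarith
  · intro e he
    have h2 := abs_nonpos_iff.mp (h0.2 e he)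
    obtain ⟨b, a1, a2, a3⟩ := e
    cases b <;> simp only [cerr] at h2 <;> simp only [Con.holds] <;> linarith

end Pool.Agent.Lib.ETR
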