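import Pool.Agent.Lib.ETR.Size

set_option autoImplicit false

/-!
# Critical values of a perturbed polynomial
-/

namespace Pool.Agent.Lib.ETR

open Polynomial

/-- The value of a monomial. -/
def mon {n : ℕ} (x : Fin n → ℝ) (γ : Fin n → ℕ) : ℝ := ∏ i, x i ^ γ i

theorem mon_add {n : ℕ} (x : Fin n → ℝ) (γ γ' : Fin n → ℕ) : mon x (γ + γ') = mon x γ * mon x γ' := by
  unfold mon
  rw [← Finset.prod_mul_distrib]
  exact Finset.prod_congr rfl (fun i _ => by rw [Pi.add_apply, pow_add])

theorem mon_single {n : ℕ} (x : Fin n → ℝ) (i : Fin n) (k : ℕ) :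
    mon x (Pi.single i k) = x i ^ k := by
  unfold mon
  rw [Finset.prod_eq_single i]
  · rw [Pi.single_eq_same]
  · intro j _ hj
    rw [Pi.single_eq_of_ne hj, pow_zero]
  · intro h
    exact absurd (Finset.mem_univ _) h

/-- A polynomial: a list of terms (coefficient, exponents). -/
abbrev Terms (n : ℕ) : Type := List (ℤ × (Fin n → ℕ))

/-- The value. -/
def Terms.val {n : ℕ} (F : Terms n) (x : Fin n → ℝ) : ℝ :=
  (F.map (fun t => (t.1 : ℝ) * mon x t.2)).sum

/-- The sum of the absolute values of the coefficients. -/
def Terms.size {n : ℕ} (F : Terms n) : ℕ := (F.map (fun t => t.1.natAbs)).sum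

/-- The total degree of an exponent vector. -/
def dg {n : ℕ} (γ : Fin n → ℕ) : ℕ := ∑ i, γ i

theorem dg_add {n : ℕ} (γ γ' : Fin n → ℕ) : dg (γ + γ') = dg γ + dg γ' := Finset.sum_add_distrib

theorem dg_single {n : ℕ} (i : Fin n) (k : ℕ) : dg (Pi.single i k) = k := by
  unfold dg
  rw [Finset.sum_eq_single i]
  · rw [Pi.single_eq_same]
  · intro j _ hj
    rw [Pi.single_eq_of_ne hj]
  · intro h
    exact absurd (Finset.mem_univ _) h

theorem le_dg {n : ℕ} (γ : Fin n → ℕ) (i : Fin n) : γ i ≤ dg γ :=
  Finset.single_le_sum (f := γ) (fun _ _ => Nat.zero_le _) (Finset.mem_univ i)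

/-- The partial derivative. -/
def Terms.der {n : ℕ} (F : Terms n) (i : Fin n) : Terms n :=
  F.map (fun t => (t.1 * (t.2 i : ℤ), Function.update t.2 i (t.2 i - 1)))

theorem hasDerivAt_mon {n : ℕ} (x : Fin n → ℝ) (i : Fin n) (γ : Fin n → ℕ) :
    HasDerivAt (fun t => mon (Function.update x i t) γ)
      ((γ i : ℝ) * mon x (Function.update γ i (γ i - 1))) (x i) := by
  have h1 : ∀ t, mon (Function.update x i t) γ = t ^ γ i * ∏ j ∈ Finset.univ.erase i, x j ^ γ j := by
    intro t
    unfold mon
    rw [← Finset.mul_prod_erase _ _ (Finset.mem_univ i), Function.update_self]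
    congr 1
    apply Finset.prod_congr rfl
    intro j hj
    rw [Function.update_of_ne (Finset.ne_of_mem_erase hj)]
  have h2 : mon x (Function.update γ i (γ i - 1)) =
      x i ^ (γ i - 1) * ∏ j ∈ Finset.univ.erase i, x j ^ γ j := by
    unfold mon
    rw [← Finset.mul_prod_erase _ _ (Finset.mem_univ i), Function.update_self]
    congr 1
    apply Finset.prod_congr rfl
    intro j hj
    rw [Function.update_of_ne (Finset.ne_of_mem_erase hj)]
  simp only [h1]
  rw [h2, ← mul_assoc]
  exact (hasDerivAt_pow (γ i) (x i)).mul_const _

theorem hasDerivAt_terms {n : ℕ} (F : Terms n) (x : Fin n → ℝ) (i : Fin n) :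
    HasDerivAt (fun t => Terms.val F (Function.update x i t)) (Terms.val (Terms.der F i) x) (x i) := by
  induction F with
  | nil => simpa [Terms.val, Terms.der] using hasDerivAt_const (x i) (0 : ℝ)
  | cons t F ih =>
    have h := ((hasDerivAt_mon x i t.2).const_mul (t.1 : ℝ)).add ih
    have e : Terms.val (Terms.der (t :: F) i) x = (t.1 : ℝ) * ((t.2 i : ℝ) *
        mon x (Function.update t.2 i (t.2 i - 1))) + Terms.val (Terms.der F i) x := by
      simp only [Terms.der, Terms.val, List.map_cons, List.sum_cons]
      push_cast
      ring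
    rw [e]
    exact h

theorem continuous_terms {n : ℕ} (F : Terms n) : Continuous (Terms.val F) := by
  induction F with
  | nil =>
    have : Terms.val ([] : Terms n) = fun _ => 0 := by
      funext x
      simp [Terms.val]
    rw [this]
    exact continuous_const
  | cons t F ih =>
    have : Terms.val (t :: F) = fun x => (t.1 : ℝ) * mon x t.2 + Terms.val F x := by
      funext x
      simp [Terms.val]
    rw [this]
    apply Continuous.add _ ih
    apply continuous_const.mul
    unfold mon
    exact continuous_finsetProd _ (fun i _ => (continuous_apply i).pow _)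

/-- The perturbed polynomial. -/
def gfun {n : ℕ} (F : Terms n) (s : ℝ) (x : Fin n → ℝ) : ℝ := 6 * s * Terms.val F x + ∑ i, x i ^ 6

/-- The critical point equations. -/
def Crit {n : ℕ} (F : Terms n) (s : ℝ) (x : Fin n → ℝ) : Prop :=
  ∀ i, x i ^ 5 = -(s * Terms.val (Terms.der F i) x)

theorem exists_min {n : ℕ} {F : Terms n} (hF : ∀ x, 0 ≤ Terms.val F x) {s : ℝ} (hs : 0 ≤ s) :
    ∃ x, ∀ y, gfun F s x ≤ gfun F s y := by
  apply Continuous.exists_forall_le
  · unfold gfun
    exact (continuous_const.mul (continuous_terms F)).add
      (continuous_finsetSum _ (fun i _ => (continuous_apply i).pow _))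
  · rw [Filter.tendsto_atTop]
    intro M
    have h := (tendsto_norm_cocompact_atTop (E := Fin n → ℝ)).eventually
      (Filter.eventually_gt_atTop (max 1 M))
    filter_upwards [h] with x hx
    have hex : ∃ i, max 1 M < |x i| := by
      by_contra hcon
      push Not at hcon
      have : ‖x‖ ≤ max 1 M := (pi_norm_le_iff_of_nonneg (le_trans zero_le_one (le_max_left _ _))).mpr
        (fun i => by rw [Real.norm_eq_abs]; exact hcon i)
      linarith
    obtain ⟨i, hi⟩ := hex
    have h1 : 1 ≤ |x i| := (le_max_left _ _).trans hi.le
    have h2 : M ≤ |x i| := (le_max_right _ _).trans hi.le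
    have h3 : |x i| ≤ |x i| ^ 6 := le_self_pow₀ h1 (by norm_num)
    have h4 : |x i| ^ 6 = x i ^ 6 := by
      rw [← abs_pow, abs_of_nonneg]
      positivity
    have h5 : x i ^ 6 ≤ ∑ j, x j ^ 6 :=
      Finset.single_le_sum (f := fun j => x j ^ 6) (fun j _ => by positivity) (Finset.mem_univ i)
    have h6 : 0 ≤ 6 * s * Terms.val F x := by
      have := hF x
      positivity
    unfold gfun
    linarith

theorem crit_of_min {n : ℕ} {F : Terms n} {s : ℝ} {x : Fin n → ℝ}
    (hx : ∀ y, gfun F s x ≤ gfun F s y) : Crit F s x := by
  intro i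
  have h1 : HasDerivAt (fun t => gfun F s (Function.update x i t))
      (6 * s * Terms.val (Terms.der F i) x + 6 * x i ^ 5) (x i) := by
    have h2 : ∀ t, gfun F s (Function.update x i t) = 6 * s * Terms.val F (Function.update x i t) +
        (t ^ 6 + ∑ j ∈ Finset.univ.erase i, x j ^ 6) := by
      intro t
      unfold gfun
      congr 1
      rw [← Finset.add_sum_erase _ _ (Finset.mem_univ i), Function.update_self]
      congr 1
      apply Finset.sum_congr rfl
      intro j hj
      rw [Function.update_of_ne (Finset.ne_of_mem_erase hj)]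
    simp only [h2]
    apply HasDerivAt.add
    · exact (hasDerivAt_terms F x i).const_mul _
    · have := (hasDerivAt_pow 6 (x i)).add_const (∑ j ∈ Finset.univ.erase i, x j ^ 6)
      simpa using this
  have hmin : IsLocalMin (fun t => gfun F s (Function.update x i t)) (x i) := by
    apply Filter.Eventually.of_forall
    intro t
    simp only [Function.update_eq_self]
    exact hx _
  have h0 := hmin.hasDerivAt_eq_zero h1
  linarith

/-- The size of integer polynomials in one variable. -/
noncomputable abbrev sz (p : ℤ[X]) : ℝ := polySize (fun a : ℤ => |(a : ℝ)|) p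

/-- Reduction of a monomial to exponents below five. -/
theorem reduce_mon {n : ℕ} (F : Terms n) (hd : ∀ t ∈ F, dg t.2 ≤ 4) (D : ℕ) :
    ∀ γ : Fin n → ℕ, dg γ = D → ∃ r : (Fin n → Fin 5) → ℤ[X],
      (∀ s x, Crit F s x → mon x γ = ∑ β, aeval s (r β) * mon x (fun i => (β i : ℕ))) ∧
      ∑ β, sz (r β) ≤ ((4 * Terms.size F + 1 : ℕ) : ℝ) ^ D := by
  classical
  induction D using Nat.strong_induction_on with
  | _ D ih =>
  intro γ hγ
  by_cases h5 : ∃ i, 5 ≤ γ i
  · obtain ⟨i, hi⟩ := h5
    -- the exponent without the fifth power
    set γ0 : Fin n → ℕ := Function.update γ i (γ i - 5) with hγ0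
    have hγe : γ = γ0 + Pi.single i 5 := by
      funext j
      by_cases hj : j = i
      · subst hj
        simp only [hγ0, Pi.add_apply, Function.update_self, Pi.single_eq_same]
        omega
      · simp only [hγ0, Pi.add_apply, Function.update_of_ne hj, Pi.single_eq_of_ne hj, add_zero]
    have hd0 : dg γ0 + 5 = D := by
      rw [← hγ, hγe, dg_add, dg_single]
    have hder : ∀ t ∈ F, t.2 i ≠ 0 → dg (γ0 + Function.update t.2 i (t.2 i - 1)) < D ∧
        dg (γ0 + Function.update t.2 i (t.2 i - 1)) + 1 ≤ D := by
      intro t ht h0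
      have e : t.2 = Function.update t.2 i (t.2 i - 1) + Pi.single i 1 := by
        funext j
        by_cases hj : j = i
        · subst hj
          simp only [Pi.add_apply, Function.update_self, Pi.single_eq_same]
          omega
        · simp only [Pi.add_apply, Function.update_of_ne hj, Pi.single_eq_of_ne hj, add_zero]
      have h1 : dg t.2 = dg (Function.update t.2 i (t.2 i - 1)) + 1 := by
        conv_lhs => rw [e]
        rw [dg_add, dg_single]
      have h2 := hd t ht
      rw [dg_add]
      omega
    -- the reductions of the terms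
    have key : ∀ T : Terms n, (∀ t ∈ T, t ∈ F) → ∃ r : (Fin n → Fin 5) → ℤ[X],
        (∀ s x, Crit F s x → Terms.val (Terms.der T i) x * mon x γ0 =
          ∑ β, aeval s (r β) * mon x (fun i => (β i : ℕ))) ∧
        ∑ β, sz (r β) ≤ (4 * Terms.size T : ℕ) * ((4 * Terms.size F + 1 : ℕ) : ℝ) ^ (D - 1) := by
      intro T
      induction T with
      | nil =>
        intro _
        refine ⟨fun _ => 0, ?_, ?_⟩
        · intro s x _
          simp [Terms.der, Terms.val]
        · simp [Terms.size, polySize]
      | cons t T ihT =>
        intro hT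
        obtain ⟨r1, h1, h1'⟩ := ihT (fun u hu => hT u (List.mem_cons_of_mem _ hu))
        have htF := hT t (List.mem_cons_self ..)
        by_cases h0 : t.2 i = 0
        · refine ⟨r1, ?_, ?_⟩
          · intro s x hx
            rw [← h1 s x hx]
            simp [Terms.der, Terms.val, h0]
          · refine h1'.trans ?_
            apply mul_le_mul_of_nonneg_right _ (by positivity)
            simp only [Terms.size, List.map_cons, List.sum_cons]
            exact_mod_cast Nat.mul_le_mul_left 4 (Nat.le_add_left _ _)
        · obtain ⟨hlt, hle⟩ := hder t htF h0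
          obtain ⟨r2, h2, h2'⟩ := ih _ hlt _ rfl
          refine ⟨fun β => C (t.1 * (t.2 i : ℤ)) * r2 β + r1 β, ?_, ?_⟩
          · intro s x hx
            have e1 : Terms.val (Terms.der (t :: T) i) x = ((t.1 : ℝ) * (t.2 i : ℝ)) *
                mon x (Function.update t.2 i (t.2 i - 1)) + Terms.val (Terms.der T i) x := by
              simp only [Terms.der, Terms.val, List.map_cons, List.sum_cons]
              push_cast
              ring
            rw [e1, add_mul, h1 s x hx]
            have e2 := h2 s x hx
            rw [mon_add] at e2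
            have e3 : (t.1 : ℝ) * (t.2 i : ℝ) * mon x (Function.update t.2 i (t.2 i - 1)) * mon x γ0 =
                ∑ β, ((t.1 : ℝ) * (t.2 i : ℝ)) * (aeval s (r2 β) * mon x (fun i => (β i : ℕ))) := by
              rw [← Finset.mul_sum, ← e2]
              ring
            rw [e3, ← Finset.sum_add_distrib]
            apply Finset.sum_congr rfl
            intro β _
            have e4 : aeval s (C (t.1 * (t.2 i : ℤ)) : ℤ[X]) = (t.1 : ℝ) * (t.2 i : ℝ) := by
              rw [aeval_C, eq_intCast]
              push_cast
              ring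
            rw [map_add, map_mul, e4]
            ring
          · have hti : (t.2 i : ℤ) ≤ 4 := by
              have := (le_dg t.2 i).trans (hd t htF)
              exact_mod_cast this
            have hb : ∀ β, sz (C (t.1 * (t.2 i : ℤ)) * r2 β + r1 β) ≤
                (4 * (t.1.natAbs : ℝ)) * sz (r2 β) + sz (r1 β) := by
              intro β
              refine (isSize_int.poly.add _ _).trans ?_
              gcongr
              refine (isSize_int.poly.mul _ _).trans ?_
              apply mul_le_mul_of_nonneg_right _ (isSize_int.polySize_nonneg _)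
              refine (isSize_int.polySize_C _).trans ?_
              push_cast
              rw [abs_mul, Nat.abs_cast, Nat.cast_natAbs, Int.cast_abs, mul_comm]
              apply mul_le_mul_of_nonneg_right _ (abs_nonneg _)
              exact_mod_cast hti
            calc ∑ β, sz (C (t.1 * (t.2 i : ℤ)) * r2 β + r1 β)
                ≤ ∑ β, ((4 * (t.1.natAbs : ℝ)) * sz (r2 β) + sz (r1 β)) :=
                  Finset.sum_le_sum (fun β _ => hb β)
              _ = (4 * (t.1.natAbs : ℝ)) * (∑ β, sz (r2 β)) + ∑ β, sz (r1 β) := by
                  rw [Finset.sum_add_distrib, ← Finset.mul_sum]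
              _ ≤ (4 * (t.1.natAbs : ℝ)) * ((4 * Terms.size F + 1 : ℕ) : ℝ) ^ (D - 1) +
                  (4 * Terms.size T : ℕ) * ((4 * Terms.size F + 1 : ℕ) : ℝ) ^ (D - 1) := by
                  gcongr
                  refine h2'.trans ?_
                  apply pow_le_pow_right₀
                  · exact_mod_cast Nat.le_add_left 1 _
                  · omega
              _ = (4 * Terms.size (t :: T) : ℕ) * ((4 * Terms.size F + 1 : ℕ) : ℝ) ^ (D - 1) := by
                  simp only [Terms.size, List.map_cons, List.sum_cons]
                  push_cast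
                  ring
    obtain ⟨r, hr, hr'⟩ := key F (fun t ht => ht)
    refine ⟨fun β => -(X * r β), ?_, ?_⟩
    · intro s x hx
      rw [hγe, mon_add, mon_single, hx i]
      have e := hr s x hx
      have e1 : mon x γ0 * -(s * Terms.val (Terms.der F i) x) = -s * (Terms.val (Terms.der F i) x * mon x γ0) := by ring
      rw [e1, e, Finset.mul_sum]
      apply Finset.sum_congr rfl
      intro β _
      simp only [map_neg, map_mul, aeval_X]
      ring
    · have hb : ∀ β, sz (-(X * r β)) ≤ sz (r β) := by
        intro β
        show polySize _ _ ≤ _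
        rw [isSize_int.poly.neg]
        refine (isSize_int.poly.mul _ _).trans ?_
        have hX : polySize (fun a : ℤ => |(a : ℝ)|) (X : ℤ[X]) ≤ 1 := by
          rw [← Polynomial.monomial_one_one_eq_X]
          refine (isSize_int.polySize_monomial _ _).trans ?_
          simp
        calc _ ≤ 1 * polySize (fun a : ℤ => |(a : ℝ)|) (r β) :=
              mul_le_mul_of_nonneg_right hX (isSize_int.polySize_nonneg _)
          _ = _ := one_mul _
      refine (Finset.sum_le_sum (fun β _ => hb β)).trans (hr'.trans ?_)
      have hD : D = (D - 1) + 1 := by omega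
      conv_rhs => rw [hD, pow_succ, mul_comm]
      apply mul_le_mul_of_nonneg_right _ (by positivity)
      push_cast
      linarith
  · push Not at h5
    refine ⟨fun β => if β = fun i => ⟨γ i, h5 i⟩ then 1 else 0, ?_, ?_⟩
    · intro s x _
      rw [Finset.sum_eq_single (fun i => ⟨γ i, h5 i⟩)]
      · simp
      · intro β _ hβ
        simp [hβ]
      · intro h
        exact absurd (Finset.mem_univ _) h
    · have : ∑ β : Fin n → Fin 5, sz (if β = fun i => ⟨γ i, h5 i⟩ then 1 else 0) ≤ 1 := by
        rw [Finset.sum_eq_single (fun i => (⟨γ i, h5 i⟩ : Fin 5))]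
        · simpa using isSize_int.poly.one
        · intro β _ hβ
          simp [hβ, polySize]
        · intro h
          exact absurd (Finset.mem_univ _) h
      refine this.trans (one_le_pow₀ ?_)
      exact_mod_cast Nat.le_add_left 1 _

end Pool.Agent.Lib.ETR
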