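import Pool.Agent.Lib.ETR.GapCore

set_option autoImplicit false

/-!
# The matrix of multiplication and the polynomial relation for critical values
-/

namespace Pool.Agent.Lib.ETR

open Polynomial

/-- The base of the size bound. -/
def hB {n : ℕ} (F : Terms n) : ℕ := 4 * Terms.size F + 1

theorem one_le_hB {n : ℕ} (F : Terms n) : (1 : ℝ) ≤ (hB F : ℝ) := by
  exact_mod_cast Nat.le_add_left 1 _

theorem reduce_terms {n : ℕ} (F : Terms n) (hd : ∀ t ∈ F, dg t.2 ≤ 4) (α : Fin n → ℕ) :
    ∀ T : Terms n, (∀ t ∈ T, t ∈ F) → ∃ r : (Fin n → Fin 5) → ℤ[X],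
      (∀ s x, Crit F s x → Terms.val T x * mon x α =
        ∑ β, aeval s (r β) * mon x (fun i => (β i : ℕ))) ∧
      ∑ β, sz (r β) ≤ (Terms.size T : ℝ) * (hB F : ℝ) ^ (dg α + 4) := by
  intro T
  induction T with
  | nil =>
    intro _
    refine ⟨fun _ => 0, ?_, ?_⟩
    · intro s x _
      simp [Terms.val]
    · simp [Terms.size, polySize]
  | cons t T ihT =>
    intro hT
    obtain ⟨r1, h1, h1'⟩ := ihT (fun u hu => hT u (List.mem_cons_of_mem _ hu))
    have htF := hT t (List.mem_cons_self ..)
    obtain ⟨r2, h2, h2'⟩ := reduce_mon F hd (dg (α + t.2)) (α + t.2) rfl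
    have hle : dg (α + t.2) ≤ dg α + 4 := by
      rw [dg_add]
      have := hd t htF
      omega
    refine ⟨fun β => C t.1 * r2 β + r1 β, ?_, ?_⟩
    · intro s x hx
      have e1 : Terms.val (t :: T) x = (t.1 : ℝ) * mon x t.2 + Terms.val T x := by
        simp [Terms.val]
      rw [e1, add_mul, h1 s x hx]
      have e2 := h2 s x hx
      rw [mon_add] at e2
      have e3 : (t.1 : ℝ) * mon x t.2 * mon x α =
          ∑ β, (t.1 : ℝ) * (aeval s (r2 β) * mon x (fun i => (β i : ℕ))) := by
        rw [← Finset.mul_sum, ← e2]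
        ring
      rw [e3, ← Finset.sum_add_distrib]
      apply Finset.sum_congr rfl
      intro β _
      have e4 : aeval s (C t.1 : ℤ[X]) = (t.1 : ℝ) := by
        rw [aeval_C, eq_intCast]
      rw [map_add, map_mul, e4]
      ring
    · have hb : ∀ β, sz (C t.1 * r2 β + r1 β) ≤ (t.1.natAbs : ℝ) * sz (r2 β) + sz (r1 β) := by
        intro β
        refine (isSize_int.poly.add _ _).trans ?_
        gcongr
        refine (isSize_int.poly.mul _ _).trans ?_
        apply mul_le_mul_of_nonneg_right _ (isSize_int.polySize_nonneg _)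
        refine (isSize_int.polySize_C _).trans ?_
        rw [Nat.cast_natAbs, Int.cast_abs]
      calc ∑ β, sz (C t.1 * r2 β + r1 β)
          ≤ ∑ β, ((t.1.natAbs : ℝ) * sz (r2 β) + sz (r1 β)) :=
            Finset.sum_le_sum (fun β _ => hb β)
        _ = (t.1.natAbs : ℝ) * (∑ β, sz (r2 β)) + ∑ β, sz (r1 β) := by
            rw [Finset.sum_add_distrib, ← Finset.mul_sum]
        _ ≤ (t.1.natAbs : ℝ) * (hB F : ℝ) ^ (dg α + 4) +
            (Terms.size T : ℝ) * (hB F : ℝ) ^ (dg α + 4) := by
            gcongr
            refine h2'.trans ?_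
            exact pow_le_pow_right₀ (one_le_hB F) hle
        _ = (Terms.size (t :: T) : ℝ) * (hB F : ℝ) ^ (dg α + 4) := by
            simp only [Terms.size, List.map_cons, List.sum_cons]
            push_cast
            ring

/-- The bound on the entries of the multiplication matrix. -/
def eB {n : ℕ} (F : Terms n) : ℕ := (6 * Terms.size F + n) * hB F ^ (4 * n + 6)

theorem exists_matrix {n : ℕ} (F : Terms n) (hd : ∀ t ∈ F, dg t.2 ≤ 4) :
    ∃ M : Matrix (Fin n → Fin 5) (Fin n → Fin 5) ℤ[X],
      (∀ s x, Crit F s x → ∀ α : Fin n → Fin 5, mon x (fun i => (α i : ℕ)) * gfun F s x =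
        ∑ β, aeval s (M α β) * mon x (fun i => (β i : ℕ))) ∧
      ∀ α β, sz (M α β) ≤ (eB F : ℝ) := by
  classical
  have h1 := fun α : Fin n → Fin 5 => reduce_terms F hd (fun i => (α i : ℕ)) F (fun _ h => h)
  choose r hr hr' using h1
  have h2 := fun (α : Fin n → Fin 5) (i : Fin n) => reduce_mon F hd _
    ((fun i => (α i : ℕ)) + Pi.single i 6) rfl
  choose q hq hq' using h2
  have hdg : ∀ α : Fin n → Fin 5, dg (fun i => (α i : ℕ)) ≤ 4 * n := by
    intro α
    unfold dg
    calc ∑ i, (α i : ℕ) ≤ ∑ _i : Fin n, 4 := Finset.sum_le_sum (fun i _ => by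
          have := (α i).2
          omega)
      _ = 4 * n := by rw [Finset.sum_const, Finset.card_univ, Fintype.card_fin, smul_eq_mul, mul_comm]
  refine ⟨fun α β => C 6 * X * r α β + ∑ i, q α i β, ?_, ?_⟩
  · intro s x hx α
    have e1 := hr α s x hx
    have e2 : ∀ i, mon x (fun i => (α i : ℕ)) * x i ^ 6 =
        ∑ β, aeval s (q α i β) * mon x (fun i => (β i : ℕ)) := by
      intro i
      rw [← mon_single, ← mon_add]
      exact hq α i s x hx
    have e3 : mon x (fun i => (α i : ℕ)) * gfun F s x =
        6 * s * (Terms.val F x * mon x (fun i => (α i : ℕ))) +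
          ∑ i, mon x (fun i => (α i : ℕ)) * x i ^ 6 := by
      unfold gfun
      rw [mul_add, Finset.mul_sum]
      ring
    rw [e3, e1, Finset.mul_sum]
    simp only [e2]
    rw [Finset.sum_comm, ← Finset.sum_add_distrib]
    apply Finset.sum_congr rfl
    intro β _
    have e4 : aeval s (C 6 * X * r α β + ∑ i, q α i β) =
        6 * s * aeval s (r α β) + ∑ i, aeval s (q α i β) := by
      rw [map_add, map_mul, map_mul, aeval_X, aeval_C, map_sum]
      simp
    rw [e4, add_mul, Finset.sum_mul]
    ring
  · intro α β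
    have hterm : ∀ (f : (Fin n → Fin 5) → ℤ[X]), sz (f β) ≤ ∑ β, sz (f β) := fun f =>
      Finset.single_le_sum (f := fun β => sz (f β)) (fun _ _ => isSize_int.polySize_nonneg _)
        (Finset.mem_univ β)
    have b1 : sz (r α β) ≤ (Terms.size F : ℝ) * (hB F : ℝ) ^ (4 * n + 6) := by
      refine ((hterm (r α)).trans (hr' α)).trans ?_
      apply mul_le_mul_of_nonneg_left _ (by positivity)
      apply pow_le_pow_right₀ (one_le_hB F)
      have := hdg α
      omega
    have b2 : ∀ i, sz (q α i β) ≤ (hB F : ℝ) ^ (4 * n + 6) := by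
      intro i
      refine ((hterm (q α i)).trans (hq' α i)).trans ?_
      apply pow_le_pow_right₀ (one_le_hB F)
      rw [dg_add, dg_single]
      have := hdg α
      omega
    have b3 : sz (C 6 * X * r α β) ≤ 6 * sz (r α β) := by
      refine (isSize_int.poly.mul _ _).trans ?_
      apply mul_le_mul_of_nonneg_right _ (isSize_int.polySize_nonneg _)
      rw [Polynomial.C_mul_X_eq_monomial]
      refine (isSize_int.polySize_monomial _ _).trans ?_
      norm_num
    calc sz (C 6 * X * r α β + ∑ i, q α i β)
        ≤ sz (C 6 * X * r α β) + sz (∑ i, q α i β) := isSize_int.poly.add _ _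
      _ ≤ 6 * sz (r α β) + ∑ i, sz (q α i β) := add_le_add b3 (isSize_int.poly.sum _ _)
      _ ≤ 6 * ((Terms.size F : ℝ) * (hB F : ℝ) ^ (4 * n + 6)) +
          ∑ _i : Fin n, (hB F : ℝ) ^ (4 * n + 6) := by
          gcongr with i
          exact b2 i
      _ = (eB F : ℝ) := by
          rw [Finset.sum_const, Finset.card_univ, Fintype.card_fin, nsmul_eq_mul]
          unfold eB
          push_cast
          ring

/-- The number of monomials. -/
def nB (n : ℕ) : ℕ := 5 ^ n

theorem card_mons (n : ℕ) : Fintype.card (Fin n → Fin 5) = nB n := by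
  simp [nB]

/-- A polynomial in `s` with coefficients that are integer polynomials in `v`. -/
theorem exists_relation {n : ℕ} (F : Terms n) (hd : ∀ t ∈ F, dg t.2 ≤ 4) :
    ∃ P : ℤ[X][X], P ≠ 0 ∧
      polySize (polySize (fun a : ℤ => |(a : ℝ)|)) P ≤ (nB n).factorial * (1 + eB F : ℝ) ^ nB n ∧
      (∀ v : ℝ, 0 ≤ v → polySize (fun a : ℝ => |a|) (P.map (aeval v : ℤ[X] →ₐ[ℤ] ℝ).toRingHom) ≤
        (nB n).factorial * (v + eB F) ^ nB n) ∧
      ∀ s x, Crit F s x →
        eval s (P.map (aeval (gfun F s x) : ℤ[X] →ₐ[ℤ] ℝ).toRingHom) = 0 := by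
  classical
  obtain ⟨M, hM, hM'⟩ := exists_matrix F hd
  set A : Matrix (Fin n → Fin 5) (Fin n → Fin 5) ℤ[X][X] :=
    fun α β => (if α = β then C X else 0) - (M α β).map C with hA
  refine ⟨A.det, ?_, ?_, ?_, ?_⟩
  · -- nonzero: at `s = 0` it is a characteristic polynomial
    intro h0
    have h1 : (evalRingHom (0 : ℤ[X])) A.det = 0 := by rw [h0, map_zero]
    rw [RingHom.map_det] at h1
    have h2 : (evalRingHom (0 : ℤ[X])).mapMatrix A =
        Matrix.charmatrix (fun α β => (M α β).coeff 0) := by
      ext1 α β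
      rw [RingHom.mapMatrix_apply, Matrix.map_apply, hA]
      simp only [coe_evalRingHom, eval_sub]
      rw [Matrix.charmatrix]
      simp only [Matrix.sub_apply, Matrix.scalar_apply, Matrix.diagonal_apply, RingHom.mapMatrix_apply,
        Matrix.map_apply]
      have e1 : eval 0 ((M α β).map (C : ℤ →+* ℤ[X])) = C ((M α β).coeff 0) := by
        rw [← Polynomial.coeff_zero_eq_eval_zero, Polynomial.coeff_map]
      rw [e1]
      congr 1
      split_ifs <;> simp
    rw [h2] at h1
    exact (Matrix.charpoly_monic (fun α β => (M α β).coeff 0 : Matrix _ _ ℤ)).ne_zero h1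
  · have h := isSize_int.poly.poly.det A (1 + eB F) ?_
    · rwa [card_mons] at h
    · intro α β
      rw [hA]
      simp only
      rw [sub_eq_add_neg]
      refine (isSize_int.poly.poly.add _ _).trans ?_
      rw [isSize_int.poly.poly.neg]
      apply add_le_add
      · split_ifs
        · refine (isSize_int.poly.polySize_C _).trans ?_
          rw [← Polynomial.monomial_one_one_eq_X]
          refine (isSize_int.polySize_monomial _ _).trans ?_
          simp
        · simp [polySize]
      · refine le_trans ?_ (hM' α β)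
        have e : polySize (polySize (fun a : ℤ => |(a : ℝ)|)) ((M α β).map C) =
            ∑ i ∈ (M α β).support, polySize (fun a : ℤ => |(a : ℝ)|) (C ((M α β).coeff i)) := by
          rw [isSize_int.poly.polySize_eq (Polynomial.support_map_subset _ _)]
          exact Finset.sum_congr rfl (fun i _ => by rw [Polynomial.coeff_map])
        rw [e]
        exact Finset.sum_le_sum (fun i _ => isSize_int.polySize_C _)
  · intro v hv
    have e0 : A.det.map (aeval v : ℤ[X] →ₐ[ℤ] ℝ).toRingHom =
        (mapRingHom (aeval v : ℤ[X] →ₐ[ℤ] ℝ).toRingHom) A.det := rfl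
    rw [e0, RingHom.map_det]
    have h := isSize_real.poly.det
      ((mapRingHom (aeval v : ℤ[X] →ₐ[ℤ] ℝ).toRingHom).mapMatrix A) (v + eB F) ?_
    · rwa [card_mons] at h
    · intro α β
      rw [RingHom.mapMatrix_apply, Matrix.map_apply, hA]
      simp only [map_sub]
      rw [sub_eq_add_neg]
      refine (isSize_real.poly.add _ _).trans ?_
      rw [isSize_real.poly.neg]
      apply add_le_add
      · split_ifs
        · rw [coe_mapRingHom, Polynomial.map_C]
          refine (isSize_real.polySize_C _).trans ?_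
          simp [abs_of_nonneg hv]
        · simp [polySize, hv]
      · refine le_trans ?_ (hM' α β)
        rw [coe_mapRingHom, Polynomial.map_map]
        rw [isSize_real.polySize_eq (Polynomial.support_map_subset _ _)]
        apply Finset.sum_le_sum
        intro i _
        rw [Polynomial.coeff_map]
        simp
  · intro s x hx
    have e0 : eval s (A.det.map (aeval (gfun F s x) : ℤ[X] →ₐ[ℤ] ℝ).toRingHom) =
        ((evalRingHom s).comp (mapRingHom (aeval (gfun F s x) : ℤ[X] →ₐ[ℤ] ℝ).toRingHom)) A.det := rfl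
    rw [e0, RingHom.map_det]
    apply Matrix.exists_mulVec_eq_zero_iff.mp
    refine ⟨fun β => mon x (fun i => (β i : ℕ)), ?_, ?_⟩
    · intro h
      have := congrFun h (fun _ => 0)
      simp [mon] at this
    · funext α
      rw [Matrix.mulVec, dotProduct, Pi.zero_apply]
      have e1 : ∀ β, ((evalRingHom s).comp (mapRingHom (aeval (gfun F s x) : ℤ[X] →ₐ[ℤ] ℝ).toRingHom)).mapMatrix
          A α β = (if α = β then gfun F s x else 0) - aeval s (M α β) := by
        intro β
        rw [RingHom.mapMatrix_apply, Matrix.map_apply, hA]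
        simp only [map_sub]
        congr 1
        · split_ifs
          · simp
          · simp
        · rw [RingHom.comp_apply, coe_mapRingHom, Polynomial.map_map, coe_evalRingHom]
          rw [Polynomial.aeval_def, Polynomial.eval_map]
          congr 1
          ext
          simp
      simp only [e1, sub_mul]
      rw [Finset.sum_sub_distrib, ← hM s x hx α]
      simp only [ite_mul, zero_mul]
      rw [Finset.sum_ite_eq, if_pos (Finset.mem_univ _)]
      ring

end Pool.Agent.Lib.ETR
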