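import Pool.Agent.Lib.ETR.Gap
import Pool.Agent.Lib.MP_0f8b55_lc.Layer1

set_option autoImplicit false

/-!
# The gap theorem for systems of constraints `x + y = z`, `x * y = z`
-/

namespace Pool.Agent.Lib.ETR

open Pool.Agent.Lib.MP_0f8b55_lc (Con)

/-- The exponent vector of a product of variables. -/
def ev {n : ℕ} (l : List ℕ) : Fin n → ℕ := fun i => l.count i.1

theorem mon_ev {n : ℕ} (X : ℕ → ℝ) (l : List ℕ) (hl : ∀ a ∈ l, a < n) :
    mon (fun i : Fin n => X i) (ev l) = (l.map X).prod := by
  induction l with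
  | nil => simp [mon, ev]
  | cons a l ih =>
    have ha : a < n := hl a (List.mem_cons_self ..)
    have e : (ev (a :: l) : Fin n → ℕ) = Pi.single ⟨a, ha⟩ 1 + ev l := by
      funext i
      simp only [ev, List.count_cons, Pi.add_apply, Pi.single_apply]
      by_cases hi : a = i.1
      · have : i = ⟨a, ha⟩ := Fin.ext hi.symm
        subst this
        simp [add_comm]
      · have : i ≠ ⟨a, ha⟩ := fun h => hi (by rw [h])
        simp [this, hi]
    rw [e, mon_add, mon_single, pow_one, List.map_cons, List.prod_cons,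
      ih (fun b hb => hl b (List.mem_cons_of_mem _ hb))]

theorem dg_ev {n : ℕ} (l : List ℕ) (hl : ∀ a ∈ l, a < n) : dg (ev l : Fin n → ℕ) = l.length := by
  induction l with
  | nil => simp [dg, ev]
  | cons a l ih =>
    have ha : a < n := hl a (List.mem_cons_self ..)
    have e : (ev (a :: l) : Fin n → ℕ) = Pi.single ⟨a, ha⟩ 1 + ev l := by
      funext i
      simp only [ev, List.count_cons, Pi.add_apply, Pi.single_apply]
      by_cases hi : a = i.1
      · have : i = ⟨a, ha⟩ := Fin.ext hi.symm
        subst this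
        simp [add_comm]
      · have : i ≠ ⟨a, ha⟩ := fun h => hi (by rw [h])
        simp [this, hi]
    rw [e, dg_add, dg_single, ih (fun b hb => hl b (List.mem_cons_of_mem _ hb)), List.length_cons,
      add_comm]

/-- The error of a constraint. -/
def cerr (X : ℕ → ℝ) : Con → ℝ
  | (false, a, b, c) => X a + X b - X c
  | (true, a, b, c) => X a * X b - X c

/-- The square of a constraint, expanded. -/
def conT : Con → List (ℤ × List ℕ)
  | (false, a, b, c) => [(1, [a, a]), (1, [b, b]), (1, [c, c]), (2, [a, b]), (-2, [a, c]), (-2, [b, c])]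
  | (true, a, b, c) => [(1, [a, a, b, b]), (-2, [a, b, c]), (1, [c, c])]

/-- The sum of squares of a system, expanded. -/
def sysT (E : List Con) : List (ℤ × List ℕ) :=
  [(1, [1, 1]), (-2, [1]), (1, [])] ++ E.flatMap conT

/-- The sum of squares as a polynomial in `n` variables. -/
def sysF (n : ℕ) (E : List Con) : Terms n := (sysT E).map (fun t => (t.1, ev t.2))

/-- All variables of the system are below `n`. -/
def Below (n : ℕ) (E : List Con) : Prop := ∀ e ∈ E, e.2.1 < n ∧ e.2.2.1 < n ∧ e.2.2.2 < n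

theorem conT_lt {n : ℕ} {e : Con} (he : e.2.1 < n ∧ e.2.2.1 < n ∧ e.2.2.2 < n) :
    ∀ t ∈ conT e, ∀ a ∈ t.2, a < n := by
  obtain ⟨b, a1, a2, a3⟩ := e
  obtain ⟨h1, h2, h3⟩ := he
  cases b <;> simp only [conT, List.mem_cons, List.not_mem_nil, or_false] <;> intro t ht <;>
    rcases ht with rfl | rfl | rfl | rfl | rfl | rfl <;> simp_all

theorem conT_length (e : Con) : ∀ t ∈ conT e, t.2.length ≤ 4 := by
  obtain ⟨b, a1, a2, a3⟩ := e
  cases b <;> simp only [conT, List.mem_cons, List.not_mem_nil, or_false] <;> intro t ht <;>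
    rcases ht with rfl | rfl | rfl | rfl | rfl | rfl <;> simp

theorem conT_val (X : ℕ → ℝ) (e : Con) :
    ((conT e).map (fun t => (t.1 : ℝ) * (t.2.map X).prod)).sum = cerr X e ^ 2 := by
  obtain ⟨b, a1, a2, a3⟩ := e
  cases b <;> simp [conT, cerr] <;> ring

theorem conT_size (e : Con) : ((conT e).map (fun t => t.1.natAbs)).sum ≤ 9 := by
  obtain ⟨b, a1, a2, a3⟩ := e
  cases b <;> simp [conT]

theorem sysT_lt {n : ℕ} (hn : 2 ≤ n) {E : List Con} (hE : Below n E) :
    ∀ t ∈ sysT E, ∀ a ∈ t.2, a < n := by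
  intro t ht a ha
  simp only [sysT, List.cons_append, List.nil_append, List.mem_cons, List.mem_flatMap] at ht
  rcases ht with rfl | rfl | rfl | ⟨e, he, ht⟩
  · simp at ha; omega
  · simp at ha; omega
  · simp at ha
  · exact conT_lt (hE e he) t ht a ha

theorem sysT_length (E : List Con) : ∀ t ∈ sysT E, t.2.length ≤ 4 := by
  intro t ht
  simp only [sysT, List.cons_append, List.nil_append, List.mem_cons, List.mem_flatMap] at ht
  rcases ht with rfl | rfl | rfl | ⟨e, he, ht⟩
  · simp
  · simp
  · simp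
  · exact conT_length e t ht

/-- The sum of the squared errors. -/
def sqErr (X : ℕ → ℝ) (E : List Con) : ℝ := (X 1 - 1) ^ 2 + (E.map (fun e => cerr X e ^ 2)).sum

theorem sysT_val (X : ℕ → ℝ) (E : List Con) :
    ((sysT E).map (fun t => (t.1 : ℝ) * (t.2.map X).prod)).sum = sqErr X E := by
  unfold sysT sqErr
  rw [List.map_append, List.sum_append]
  congr 1
  · simp
    ring
  · induction E with
    | nil => simp
    | cons e E ih =>
      rw [List.flatMap_cons, List.map_append, List.sum_append, ih, conT_val]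
      simp

theorem sysF_val {n : ℕ} (hn : 2 ≤ n) {E : List Con} (hE : Below n E) (X : ℕ → ℝ) :
    Terms.val (sysF n E) (fun i : Fin n => X i) = sqErr X E := by
  rw [← sysT_val, sysF, Terms.val, List.map_map]
  congr 1
  apply List.map_congr_left
  intro t ht
  simp only [Function.comp_apply]
  rw [mon_ev X t.2 (sysT_lt hn hE t ht)]

theorem sysF_size {n : ℕ} (E : List Con) : Terms.size (sysF n E) ≤ 9 * (E.length + 1) := by
  rw [sysF, Terms.size, List.map_map]
  have : ((sysT E).map ((fun t => t.1.natAbs) ∘ fun t => (t.1, (ev t.2 : Fin n → ℕ)))) =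
      (sysT E).map (fun t => t.1.natAbs) := by
    apply List.map_congr_left
    intro t _
    rfl
  rw [this, sysT, List.map_append, List.sum_append]
  have h2 : ((E.flatMap conT).map (fun t => t.1.natAbs)).sum ≤ 9 * E.length := by
    induction E with
    | nil => simp
    | cons e E ih =>
      rw [List.flatMap_cons, List.map_append, List.sum_append, List.length_cons]
      have := conT_size e
      have h3 := ih rfl
      omega
  have h3 : (([(1, [1, 1]), (-2, [1]), (1, [])] : List (ℤ × List ℕ)).map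
      (fun t => t.1.natAbs)).sum = 4 := rfl
  omega

theorem sqErr_nonneg (X : ℕ → ℝ) (E : List Con) : 0 ≤ sqErr X E := by
  unfold sqErr
  have : 0 ≤ (E.map (fun e => cerr X e ^ 2)).sum := by
    apply List.sum_nonneg
    intro a ha
    rw [List.mem_map] at ha
    obtain ⟨e, -, rfl⟩ := ha
    positivity
  positivity

theorem sqErr_le {X : ℕ → ℝ} {E : List Con} {ρ : ℝ} (h1 : |X 1 - 1| ≤ ρ)
    (hE : ∀ e ∈ E, |cerr X e| ≤ ρ) : sqErr X E ≤ (E.length + 1) * ρ ^ 2 := by
  have h0 : (X 1 - 1) ^ 2 ≤ ρ ^ 2 := sq_le_sq' (by linarith [neg_abs_le (X 1 - 1)])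
    ((le_abs_self _).trans h1)
  have h2 : (E.map (fun e => cerr X e ^ 2)).sum ≤ E.length * ρ ^ 2 := by
    induction E with
    | nil => simp
    | cons e E ih =>
      rw [List.map_cons, List.sum_cons, List.length_cons]
      have h3 := hE e (List.mem_cons_self ..)
      have h4 : cerr X e ^ 2 ≤ ρ ^ 2 := sq_le_sq' (by linarith [neg_abs_le (cerr X e)])
        ((le_abs_self _).trans h3)
      have h5 := ih (fun e he => hE e (List.mem_cons_of_mem _ he))
      push_cast
      nlinarith
  unfold sqErr
  nlinarith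

theorem of_sqErr {X : ℕ → ℝ} {E : List Con} {η : ℝ} (hη : 0 ≤ η) (h : sqErr X E ≤ η ^ 2) :
    |X 1 - 1| ≤ η ∧ ∀ e ∈ E, |cerr X e| ≤ η := by
  have h0 : ∀ a ∈ (E.map (fun e => cerr X e ^ 2)), 0 ≤ a := by
    intro a ha
    rw [List.mem_map] at ha
    obtain ⟨e, -, rfl⟩ := ha
    positivity
  unfold sqErr at h
  constructor
  · apply abs_le_of_sq_le_sq _ hη |> (fun h => h)
    have := List.sum_nonneg h0
    linarith
  · intro e he
    apply abs_le_of_sq_le_sq _ hη |> (fun h => h)
    have := List.single_le_sum h0 _ (List.mem_map_of_mem (f := fun e => cerr X e ^ 2) he)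
    have h2 : 0 ≤ (X 1 - 1) ^ 2 := by positivity
    linarith

end Pool.Agent.Lib.ETR
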