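import Pool.Agent.Lib.ETR.Cluster
import Pool.Agent.Lib.ETR.Bilin

set_option autoImplicit false
set_option linter.unusedSimpArgs false

/-!
# The incidence pattern of a list of comparisons

For each comparison there are three loops of lines.
-/

namespace Pool.Agent.Lib.ETR

/-- three names -/
inductive T3 where
  | a | b | c
  deriving DecidableEq, Fintype

/-- kinds of rows -/
inductive RK where
  | x0 | inf | v (b : Bool) | l (k l : T3) (s : Bool)
  deriving DecidableEq, Fintype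

/-- kinds of columns -/
inductive CK where
  | y | s (b : Bool) | m | p (l : T3) | q (l : T3) | r (b : Bool)
  deriving DecidableEq, Fintype

/-- rows: the line `x = 0`, the line at infinity, vertical lines, the lines of the loops -/
inductive Row where
  | X0 | I | V (b : Bool) (j : ℕ) | L (k l : T3) (g : ℕ)

/-- columns: the vertical direction, directions, start points, vertices of the loops -/
inductive Col where
  | Y | S (b : Bool) (i : ℕ) | M (g : ℕ) | P (l : T3) (g : ℕ) | Q (l : T3) (g : ℕ)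
  | R (b : Bool) (g : ℕ)

/-- the index of the slope -/
def si (k : BCon) : T3 → ℕ
  | .a => k.1.1
  | .b => k.2.1.1
  | .c => k.2.2.1.1

/-- the index of the abscissa -/
def ai (k : BCon) : T3 → ℕ
  | .a => k.1.2
  | .b => k.2.1.2
  | .c => k.2.2.1.2

/-- the code of a row -/
def codeR (con : ℕ → BCon) : Row → RK × ℕ × ℕ × ℕ
  | .X0 => (.x0, 0, 0, 0)
  | .I => (.inf, 0, 0, 0)
  | .V b j => (.v b, 0, 0, j)
  | .L k l g => (.l k l (con g).2.2.2, g, si (con g) l, ai (con g) l)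

/-- the code of a column -/
def codeC (con : ℕ → BCon) : Col → CK × ℕ × ℕ × ℕ
  | .Y => (.y, 0, 0, 0)
  | .S b i => (.s b, 0, i, 0)
  | .M g => (.m, g, 0, 0)
  | .P l g => (.p l, g, si (con g) l, ai (con g) l)
  | .Q l g => (.q l, g, si (con g) l, ai (con g) l)
  | .R b g => (.r b, g, 0, 0)

/-- an entry determined by an order -/
def ceo : Ordering → Ent → Ent
  | .gt, _ => .sg true
  | .lt, _ => .sg false
  | .eq, e => e

/-- lines and directions with the same index -/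
def tabS : T3 → Bool → Ent
  | .b, true => .sg true
  | .b, false => .r2
  | _, true => .r2
  | _, false => .sg false

/-- lines and start points of the same gadget -/
def tabM : T3 → T3 → Ent
  | .a, .a => .r1
  | .a, .c => .r1
  | _, _ => .sg false

/-- lines and end points of the same gadget -/
def tabR : T3 → T3 → Bool → Bool → Ent
  | .a, .a, false, _ => .sg true
  | .b, .a, false, _ => .sg false
  | .c, .a, false, _ => .c1
  | .a, .b, false, _ => .r1
  | .b, .b, false, _ => .sg false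
  | .c, .b, false, _ => .sg false
  | .a, .c, false, _ => .sg true
  | .b, .c, false, _ => .sg false
  | .c, .c, false, _ => .sg false
  | .a, .a, true, _ => .sg true
  | .b, .a, true, _ => .sg false
  | .c, .a, true, _ => .sg true
  | .a, .b, true, _ => .sg true
  | .b, .b, true, _ => .sg false
  | .c, .b, true, _ => .c1
  | .a, .c, true, _ => .sg true
  | .b, .c, true, _ => .sg false
  | .c, .c, true, s => .sg s

/-- lines and first corners of the same loop -/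
def tabP : T3 → Ent
  | .a => .c1
  | .b => .r1
  | .c => .sg false

/-- lines and second corners of the same loop -/
def tabQ : T3 → Ent
  | .a => .sg true
  | .b => .c1
  | .c => .r1

/-- The table. -/
def tab : RK → CK → Ordering → Ordering → Ordering → Ent
  | .x0, .y, _, _, _ => .c1
  | .x0, .s _, _, _, _ => .sg true
  | .x0, .m, _, _, _ => .c1
  | .x0, .p _, _, _, _ => .sg true
  | .x0, .q _, _, _, _ => .sg true
  | .x0, .r _, _, _, _ => .c2
  | .inf, .y, _, _, _ => .c2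
  | .inf, .s _, _, _, _ => .c1
  | .inf, .m, _, _, _ => .sg true
  | .inf, .p _, _, _, _ => .sg true
  | .inf, .q _, _, _, _ => .sg true
  | .inf, .r _, _, _, _ => .sg true
  | .v _, .y, _, _, _ => .r1
  | .v _, .s _, _, _, _ => .sg true
  | .v _, .m, _, _, _ => .sg false
  | .v _, .r _, _, _, _ => .sg false
  | .v b, .p _, _, _, oj => ceo oj (if b then .c2 else .sg true)
  | .v b, .q _, _, _, oj => ceo oj (if b then .sg false else .c2)
  | .l _ _ _, .y, _, _, _ => .sg true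
  | .l k _ _, .s b, _, oi, _ => ceo oi (tabS k b)
  | .l k l _, .m, og, _, _ => ceo og (tabM k l)
  | .l k l s, .r b, og, _, _ => ceo og (tabR k l b s)
  | .l k l _, .p l', og, oi, _ => ceo og (if l = l' then tabP k else ceo oi (.sg true))
  | .l k l _, .q l', og, oi, _ => ceo og (if l = l' then tabQ k else ceo oi (.sg true))

/-- The entry determined by two codes. -/
def tabE (r : RK × ℕ × ℕ × ℕ) (c : CK × ℕ × ℕ × ℕ) : Ent :=
  tab r.1 c.1 (compare c.2.1 r.2.1) (compare c.2.2.1 r.2.2.1) (compare c.2.2.2 r.2.2.2)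

/-- The pattern. -/
def Zp (con : ℕ → BCon) (r : Row) (c : Col) : Ent := tabE (codeR con r) (codeC con c)

theorem ceo_r1 {a b : ℕ} {e : Ent} : ceo (compare a b) e = .r1 ↔ a = b ∧ e = .r1 := by
  rcases h : compare a b with _ | _ | _ <;> simp only [ceo, reduceCtorEq, false_iff, not_and]
  · have := compare_lt_iff_lt.mp h; omega
  · rw [compare_eq_iff_eq.mp h]; simp
  · have := compare_gt_iff_gt.mp h; omega

theorem ceo_r2 {a b : ℕ} {e : Ent} : ceo (compare a b) e = .r2 ↔ a = b ∧ e = .r2 := by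
  rcases h : compare a b with _ | _ | _ <;> simp only [ceo, reduceCtorEq, false_iff, not_and]
  · have := compare_lt_iff_lt.mp h; omega
  · rw [compare_eq_iff_eq.mp h]; simp
  · have := compare_gt_iff_gt.mp h; omega

theorem ceo_c1 {a b : ℕ} {e : Ent} : ceo (compare a b) e = .c1 ↔ a = b ∧ e = .c1 := by
  rcases h : compare a b with _ | _ | _ <;> simp only [ceo, reduceCtorEq, false_iff, not_and]
  · have := compare_lt_iff_lt.mp h; omega
  · rw [compare_eq_iff_eq.mp h]; simp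
  · have := compare_gt_iff_gt.mp h; omega

theorem ceo_c2 {a b : ℕ} {e : Ent} : ceo (compare a b) e = .c2 ↔ a = b ∧ e = .c2 := by
  rcases h : compare a b with _ | _ | _ <;> simp only [ceo, reduceCtorEq, false_iff, not_and]
  · have := compare_lt_iff_lt.mp h; omega
  · rw [compare_eq_iff_eq.mp h]; simp
  · have := compare_gt_iff_gt.mp h; omega

theorem Zp_r1 {con : ℕ → BCon} {r : Row} {c : Col} (h : Zp con r c = .r1) :
    (∃ b j, r = .V b j ∧ c = .Y) ∨ (∃ g, r = .L .a .a g ∧ c = .M g) ∨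
    (∃ g, r = .L .a .c g ∧ c = .M g) ∨ (∃ g, r = .L .a .b g ∧ c = .R false g) ∨
    (∃ l g, r = .L .b l g ∧ c = .P l g) ∨ (∃ l g, r = .L .c l g ∧ c = .Q l g) := by
  rcases r with _ | _ | ⟨b, j⟩ | ⟨k, l, g⟩ <;>
    rcases c with _ | ⟨b', i⟩ | g' | ⟨l', g'⟩ | ⟨l', g'⟩ | ⟨b', g'⟩ <;>
    simp only [Zp, tabE, codeR, codeC, tab, reduceCtorEq, ceo_r1] at h
  · simp
  · cases b <;> simp at h
  · cases b <;> simp at h
  · cases k <;> cases b' <;> simp [tabS] at h
  · obtain ⟨rfl, h⟩ := h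
    cases k <;> cases l <;> simp [tabM] at h <;> simp
  · obtain ⟨rfl, h⟩ := h
    split_ifs at h with h1
    · subst h1
      cases k <;> simp [tabP] at h
      simp
    · rw [ceo_r1] at h
      simp at h
  · obtain ⟨rfl, h⟩ := h
    split_ifs at h with h1
    · subst h1
      cases k <;> simp [tabQ] at h
      simp
    · rw [ceo_r1] at h
      simp at h
  · obtain ⟨rfl, h⟩ := h
    cases k <;> cases l <;> cases b' <;> simp [tabR] at h <;> simp

theorem Zp_r2 {con : ℕ → BCon} {r : Row} {c : Col} (h : Zp con r c = .r2) :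
    ∃ k l g, r = .L k l g ∧ c = .S (decide (k ≠ .b)) (si (con g) l) := by
  rcases r with _ | _ | ⟨b, j⟩ | ⟨k, l, g⟩ <;>
    rcases c with _ | ⟨b', i⟩ | g' | ⟨l', g'⟩ | ⟨l', g'⟩ | ⟨b', g'⟩ <;>
    simp only [Zp, tabE, codeR, codeC, tab, reduceCtorEq, ceo_r2] at h
  · cases b <;> simp at h
  · cases b <;> simp at h
  · obtain ⟨rfl, h⟩ := h
    refine ⟨k, l, g, rfl, ?_⟩
    cases k <;> cases b' <;> simp [tabS] at h <;> simp
  · obtain ⟨rfl, h⟩ := h
    cases k <;> cases l <;> simp [tabM] at h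
  · obtain ⟨rfl, h⟩ := h
    split_ifs at h with h1
    · cases k <;> simp [tabP] at h
    · rw [ceo_r2] at h
      simp at h
  · obtain ⟨rfl, h⟩ := h
    split_ifs at h with h1
    · cases k <;> simp [tabQ] at h
    · rw [ceo_r2] at h
      simp at h
  · obtain ⟨rfl, h⟩ := h
    cases k <;> cases l <;> cases b' <;> simp [tabR] at h

theorem Zp_c1 {con : ℕ → BCon} {r : Row} {c : Col} (h : Zp con r c = .c1) :
    (r = .X0 ∧ c = .Y) ∨ (r = .I ∧ ∃ b i, c = .S b i) ∨ (r = .X0 ∧ ∃ g, c = .M g) ∨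
    (∃ l g, r = .L .a l g ∧ c = .P l g) ∨ (∃ l g, r = .L .b l g ∧ c = .Q l g) ∨
    (∃ g, r = .L .c .a g ∧ c = .R false g) ∨ (∃ g, r = .L .c .b g ∧ c = .R true g) := by
  rcases r with _ | _ | ⟨b, j⟩ | ⟨k, l, g⟩ <;>
    rcases c with _ | ⟨b', i⟩ | g' | ⟨l', g'⟩ | ⟨l', g'⟩ | ⟨b', g'⟩ <;>
    simp only [Zp, tabE, codeR, codeC, tab, reduceCtorEq, ceo_c1] at h
  · simp
  · simp
  · simp
  · cases b <;> simp at h
  · cases b <;> simp at h
  · cases k <;> cases b' <;> simp [tabS] at h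
  · obtain ⟨rfl, h⟩ := h
    cases k <;> cases l <;> simp [tabM] at h
  · obtain ⟨rfl, h⟩ := h
    split_ifs at h with h1
    · subst h1
      cases k <;> simp [tabP] at h
      simp
    · rw [ceo_c1] at h
      simp at h
  · obtain ⟨rfl, h⟩ := h
    split_ifs at h with h1
    · subst h1
      cases k <;> simp [tabQ] at h
      simp
    · rw [ceo_c1] at h
      simp at h
  · obtain ⟨rfl, h⟩ := h
    cases k <;> cases l <;> cases b' <;> simp [tabR] at h <;> simp

theorem Zp_c2 {con : ℕ → BCon} {r : Row} {c : Col} (h : Zp con r c = .c2) :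
    (r = .I ∧ c = .Y) ∨ (r = .X0 ∧ ∃ b g, c = .R b g) ∨
    (∃ l g, r = .V true (ai (con g) l) ∧ c = .P l g) ∨
    (∃ l g, r = .V false (ai (con g) l) ∧ c = .Q l g) := by
  rcases r with _ | _ | ⟨b, j⟩ | ⟨k, l, g⟩ <;>
    rcases c with _ | ⟨b', i⟩ | g' | ⟨l', g'⟩ | ⟨l', g'⟩ | ⟨b', g'⟩ <;>
    simp only [Zp, tabE, codeR, codeC, tab, reduceCtorEq, ceo_c2] at h
  · simp
  · simp
  · obtain ⟨rfl, h⟩ := h
    cases b <;> simp at h
    simp
  · obtain ⟨rfl, h⟩ := h
    cases b <;> simp at h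
    simp
  · cases k <;> cases b' <;> simp [tabS] at h
  · obtain ⟨rfl, h⟩ := h
    cases k <;> cases l <;> simp [tabM] at h
  · obtain ⟨rfl, h⟩ := h
    split_ifs at h with h1
    · cases k <;> simp [tabP] at h
    · rw [ceo_c2] at h
      simp at h
  · obtain ⟨rfl, h⟩ := h
    split_ifs at h with h1
    · cases k <;> simp [tabQ] at h
    · rw [ceo_c2] at h
      simp at h
  · obtain ⟨rfl, h⟩ := h
    cases k <;> cases l <;> cases b' <;> simp [tabR] at h

/-- the level of a loop -/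
def bse : T3 → ℕ
  | .b => 10
  | _ => 4

/-- order of the rows -/
def ordR : Row → ℕ
  | .X0 => 0
  | .I => 0
  | .V _ _ => 2
  | .L .a l _ => bse l
  | .L .b l _ => bse l + 2
  | .L .c l _ => bse l + 4

/-- order of the columns -/
def ordC : Col → ℕ
  | .Y => 1
  | .S _ _ => 2
  | .M _ => 3
  | .P l _ => bse l + 1
  | .Q l _ => bse l + 3
  | .R false _ => 9
  | .R true _ => 15

theorem bse_ge (l : T3) : 4 ≤ bse l := by cases l <;> simp [bse]

theorem patOK (con : ℕ → BCon) {p : Row → Prop} {q : Col → Prop} :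
    PatOK (fun (r : {r : Row // p r}) (c : {c : Col // q c}) => Zp con r.1 c.1)
      (fun r => ordR r.1) (fun c => ordC c.1) where
  r1_lt := by
    rintro ⟨r, hr⟩ ⟨c, hc⟩ h
    simp only at h ⊢
    rcases Zp_r1 h with ⟨b, j, rfl, rfl⟩ | ⟨g, rfl, rfl⟩ | ⟨g, rfl, rfl⟩ | ⟨g, rfl, rfl⟩ |
      ⟨l, g, rfl, rfl⟩ | ⟨l, g, rfl, rfl⟩ <;> simp [ordR, ordC, bse]
  r2_lt := by
    rintro ⟨r, hr⟩ ⟨c, hc⟩ h
    simp only at h ⊢
    obtain ⟨k, l, g, rfl, rfl⟩ := Zp_r2 h
    have := bse_ge l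
    cases k <;> simp only [ordR, ordC] <;> omega
  c1_lt := by
    rintro ⟨r, hr⟩ ⟨c, hc⟩ h
    simp only at h ⊢
    rcases Zp_c1 h with ⟨rfl, rfl⟩ | ⟨rfl, b, i, rfl⟩ | ⟨rfl, g, rfl⟩ | ⟨l, g, rfl, rfl⟩ |
      ⟨l, g, rfl, rfl⟩ | ⟨g, rfl, rfl⟩ | ⟨g, rfl, rfl⟩ <;> simp [ordR, ordC, bse]
  c2_lt := by
    rintro ⟨r, hr⟩ ⟨c, hc⟩ h
    simp only at h ⊢
    rcases Zp_c2 h with ⟨rfl, rfl⟩ | ⟨rfl, b, g, rfl⟩ | ⟨l, g, rfl, rfl⟩ | ⟨l, g, rfl, rfl⟩
    · simp [ordR, ordC]
    · cases b <;> simp [ordR, ordC]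
    · have := bse_ge l
      simp only [ordR, ordC]; omega
    · have := bse_ge l
      simp only [ordR, ordC]; omega
  r1_uniq := by
    rintro ⟨r, hr⟩ ⟨c, hc⟩ ⟨c', hc'⟩ h h'
    simp only [Subtype.mk.injEq] at h h' ⊢
    rcases Zp_r1 h with ⟨b, j, rfl, rfl⟩ | ⟨g, rfl, rfl⟩ | ⟨g, rfl, rfl⟩ | ⟨g, rfl, rfl⟩ |
      ⟨l, g, rfl, rfl⟩ | ⟨l, g, rfl, rfl⟩ <;>
    rcases Zp_r1 h' with ⟨b', j', h1, rfl⟩ | ⟨g', h1, rfl⟩ | ⟨g', h1, rfl⟩ | ⟨g', h1, rfl⟩ |
      ⟨l', g', h1, rfl⟩ | ⟨l', g', h1, rfl⟩ <;> simp_all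
  r2_uniq := by
    rintro ⟨r, hr⟩ ⟨c, hc⟩ ⟨c', hc'⟩ h h'
    simp only [Subtype.mk.injEq] at h h' ⊢
    obtain ⟨k, l, g, rfl, rfl⟩ := Zp_r2 h
    obtain ⟨k', l', g', h1, rfl⟩ := Zp_r2 h'
    simp only [Row.L.injEq] at h1
    obtain ⟨rfl, rfl, rfl⟩ := h1
    rfl
  c1_uniq := by
    rintro ⟨r, hr⟩ ⟨r', hr'⟩ ⟨c, hc⟩ h h'
    simp only [Subtype.mk.injEq] at h h' ⊢
    rcases Zp_c1 h with ⟨rfl, rfl⟩ | ⟨rfl, b, i, rfl⟩ | ⟨rfl, g, rfl⟩ | ⟨l, g, rfl, rfl⟩ |
      ⟨l, g, rfl, rfl⟩ | ⟨g, rfl, rfl⟩ | ⟨g, rfl, rfl⟩ <;>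
    rcases Zp_c1 h' with ⟨rfl, h1⟩ | ⟨rfl, b', i', h1⟩ | ⟨rfl, g', h1⟩ | ⟨l', g', rfl, h1⟩ |
      ⟨l', g', rfl, h1⟩ | ⟨g', rfl, h1⟩ | ⟨g', rfl, h1⟩ <;> simp_all
  c2_uniq := by
    rintro ⟨r, hr⟩ ⟨r', hr'⟩ ⟨c, hc⟩ h h'
    simp only [Subtype.mk.injEq] at h h' ⊢
    rcases Zp_c2 h with ⟨rfl, rfl⟩ | ⟨rfl, b, g, rfl⟩ | ⟨l, g, rfl, rfl⟩ | ⟨l, g, rfl, rfl⟩ <;>
    rcases Zp_c2 h' with ⟨rfl, h1⟩ | ⟨rfl, b', g', h1⟩ | ⟨l', g', rfl, h1⟩ |
      ⟨l', g', rfl, h1⟩ <;> simp_all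

/-! ### The finite lists of rows and columns -/

/-- the names -/
def t3s : List T3 := [.a, .b, .c]

theorem mem_t3s (l : T3) : l ∈ t3s := by cases l <;> simp [t3s]

/-- The rows. -/
def rowL (n K : ℕ) : List Row :=
  [.X0, .I] ++ ((List.range n).flatMap (fun j => [.V true j, .V false j]) ++
    (List.range K).flatMap (fun g => t3s.flatMap (fun k => t3s.map (fun l => .L k l g))))

/-- The columns. -/
def colL (n K : ℕ) : List Col :=
  [.Y] ++ ((List.range n).flatMap (fun i => [.S true i, .S false i]) ++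
    (List.range K).flatMap (fun g => [.M g, .R true g, .R false g] ++
      t3s.flatMap (fun l => [.P l g, .Q l g])))

theorem mem_rowL_V {n K : ℕ} {b : Bool} {j : ℕ} : Row.V b j ∈ rowL n K ↔ j < n := by
  cases b <;> simp [rowL]

theorem mem_rowL_L {n K : ℕ} {k l : T3} {g : ℕ} : Row.L k l g ∈ rowL n K ↔ g < K := by
  cases k <;> cases l <;> simp [rowL, t3s]

theorem mem_rowL_X0 {n K : ℕ} : Row.X0 ∈ rowL n K := by simp [rowL]

theorem mem_rowL_I {n K : ℕ} : Row.I ∈ rowL n K := by simp [rowL]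

theorem mem_colL_Y {n K : ℕ} : Col.Y ∈ colL n K := by simp [colL]

theorem mem_colL_S {n K : ℕ} {b : Bool} {i : ℕ} : Col.S b i ∈ colL n K ↔ i < n := by
  cases b <;> simp [colL]

theorem mem_colL_M {n K : ℕ} {g : ℕ} : Col.M g ∈ colL n K ↔ g < K := by
  simp [colL]

theorem mem_colL_P {n K : ℕ} {l : T3} {g : ℕ} : Col.P l g ∈ colL n K ↔ g < K := by
  cases l <;> simp [colL, t3s]

theorem mem_colL_Q {n K : ℕ} {l : T3} {g : ℕ} : Col.Q l g ∈ colL n K ↔ g < K := by
  cases l <;> simp [colL, t3s]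

theorem mem_colL_R {n K : ℕ} {b : Bool} {g : ℕ} : Col.R b g ∈ colL n K ↔ g < K := by
  cases b <;> simp [colL]

/-- The sign matrix of a list of comparisons with indices below `n`. -/
def Zs (n K : ℕ) (con : ℕ → BCon) (r : {r : Row // r ∈ rowL n K}) (c : {c : Col // c ∈ colL n K}) :
    Ent := Zp con r.1 c.1

instance (n K : ℕ) : Finite {r : Row // r ∈ rowL n K} := (List.finite_toSet (rowL n K)).to_subtype
instance (n K : ℕ) : Finite {c : Col // c ∈ colL n K} := (List.finite_toSet (colL n K)).to_subtype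

end Pool.Agent.Lib.ETR
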