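import Pool.Agent.Lib.ETR.Loops

set_option autoImplicit false
set_option linter.unusedSimpArgs false

/-!
# From solutions of comparisons to sign matrices
-/

namespace Pool.Agent.Lib.ETR

open Filter Topology

/-! ### Dual vectors -/

/-- linear independence -/
def Indep (p q : V3) : Prop :=
  p 1 * q 2 - p 2 * q 1 ≠ 0 ∨ p 2 * q 0 - p 0 * q 2 ≠ 0 ∨ p 0 * q 1 - p 1 * q 0 ≠ 0

theorem Indep.exists_dual {p q : V3} (h : Indep p q) :
    ∃ u v : V3, (dt u p = 1 ∧ dt v p = 0) ∧ (dt u q = 0 ∧ dt v q = 1) := by
  set c0 := p 1 * q 2 - p 2 * q 1 with hc0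
  set c1 := p 2 * q 0 - p 0 * q 2 with hc1
  set c2 := p 0 * q 1 - p 1 * q 0 with hc2
  set N := c0 ^ 2 + c1 ^ 2 + c2 ^ 2 with hN
  have hNpos : 0 < N := by
    rcases h with h | h | h
    · have : 0 < c0 ^ 2 := by positivity
      have := sq_nonneg c1
      have := sq_nonneg c2
      linarith
    · have : 0 < c1 ^ 2 := by positivity
      have := sq_nonneg c0
      have := sq_nonneg c2
      linarith
    · have : 0 < c2 ^ 2 := by positivity
      have := sq_nonneg c0
      have := sq_nonneg c1
      linarith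
  have hN0 := hNpos.ne'
  refine ⟨N⁻¹ • ![q 1 * c2 - q 2 * c1, q 2 * c0 - q 0 * c2, q 0 * c1 - q 1 * c0],
    N⁻¹ • ![c1 * p 2 - c2 * p 1, c2 * p 0 - c0 * p 2, c0 * p 1 - c1 * p 0], ⟨?_, ?_⟩, ⟨?_, ?_⟩⟩
  · rw [dt_smul_left]
    have : dt ![q 1 * c2 - q 2 * c1, q 2 * c0 - q 0 * c2, q 0 * c1 - q 1 * c0] p = N := by
      simp only [dt, Matrix.cons_val_zero, Matrix.cons_val_one, Matrix.cons_val, hN, hc0, hc1, hc2]
      ring
    rw [this]
    exact inv_mul_cancel₀ hN0
  · rw [dt_smul_left]
    have : dt ![c1 * p 2 - c2 * p 1, c2 * p 0 - c0 * p 2, c0 * p 1 - c1 * p 0] p = 0 := by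
      simp only [dt, Matrix.cons_val_zero, Matrix.cons_val_one, Matrix.cons_val]
      ring
    rw [this, mul_zero]
  · rw [dt_smul_left]
    have : dt ![q 1 * c2 - q 2 * c1, q 2 * c0 - q 0 * c2, q 0 * c1 - q 1 * c0] q = 0 := by
      simp only [dt, Matrix.cons_val_zero, Matrix.cons_val_one, Matrix.cons_val]
      ring
    rw [this, mul_zero]
  · rw [dt_smul_left]
    have : dt ![c1 * p 2 - c2 * p 1, c2 * p 0 - c0 * p 2, c0 * p 1 - c1 * p 0] q = N := by
      simp only [dt, Matrix.cons_val_zero, Matrix.cons_val_one, Matrix.cons_val, hN, hc0, hc1, hc2]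
      ring
    rw [this]
    exact inv_mul_cancel₀ hN0

theorem cluster_complete' {ι κ : Type} [Finite ι] [Finite κ] {Z : ι → κ → Ent} {oi : ι → ℕ}
    {oj : κ → ℕ} (hZ : PatOK Z oi oj) {A : ι → V3} {B : κ → V3} (hAB : Exact Z A B)
    (hr : ∀ i, ∃ p q, Indep p q ∧ (∀ j, Z i j = .r1 → B j = p) ∧ (∀ j, Z i j = .r2 → B j = q))
    (hc : ∀ j, ∃ p q, Indep p q ∧ (∀ i, Z i j = .c1 → A i = p) ∧ (∀ i, Z i j = .c2 → A i = q)) :
    SignVec (clusterN Z) := by
  choose p q hpq hp hq using hr
  choose p' q' hpq' hp' hq' using hc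
  choose u v huv using fun i => (hpq i).exists_dual
  choose u' v' huv' using fun j => (hpq' j).exists_dual
  refine cluster_complete hZ hAB (fun i b => if b then u i else v i)
    (fun j b => if b then u' j else v' j) ?_ ?_ ?_ ?_
  · intro i j h
    rw [hp i j h]
    simpa using (huv i).1
  · intro i j h
    rw [hq i j h]
    simpa using (huv i).2
  · intro i j h
    rw [hp' j i h, dt_comm, dt_comm (p' j)]
    simpa using (huv' j).1
  · intro i j h
    rw [hq' j i h, dt_comm, dt_comm (q' j)]
    simpa using (huv' j).2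

/-! ### The realization -/

section

variable (con : ℕ → BCon) (x y : ℕ → ℝ) (W : ℝ)

/-- slopes -/
def Tv (δ : ℝ) (b : Bool) (i : ℕ) : ℝ := (i : ℝ) + 1 + (if b then δ * x i else 0)

/-- abscissae -/
def Uv (δ : ℝ) (b : Bool) (j : ℕ) : ℝ := (j : ℝ) + 1 + (if b then δ * y j else 0)

/-- the height of the start of a loop -/
def H0 (δ : ℝ) (g : ℕ) : T3 → ℝ
  | .b => g * W + δ ^ 2 * (x (si (con g) .a) * y (ai (con g) .a))
  | _ => g * W

/-- the height of the end of a loop -/
def H1 (δ : ℝ) (g : ℕ) (l : T3) : ℝ :=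
  H0 con x y W δ g l + δ ^ 2 * (x (si (con g) l) * y (ai (con g) l))

/-- intercepts of lines -/
def LI (δ : ℝ) (g : ℕ) (k l : T3) : ℝ :=
  match k with
  | .a => H0 con x y W δ g l
  | .b => H0 con x y W δ g l + δ * x (si (con g) l) * Uv y δ true (ai (con g) l)
  | .c => H1 con x y W δ g l

/-- slopes of lines -/
def LS (δ : ℝ) (g : ℕ) (k l : T3) : ℝ :=
  match k with
  | .b => Tv x δ false (si (con g) l)
  | _ => Tv x δ true (si (con g) l)

/-- the vectors of the rows -/
def rowV (δ : ℝ) : Row → V3
  | .X0 => ![0, 1, 0]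
  | .I => ![1, 0, 0]
  | .V b j => ![-Uv y δ b j, 1, 0]
  | .L k l g => ![-LI con x y W δ g k l, -LS con x δ g k l, 1]

/-- the vectors of the columns -/
def colV (δ : ℝ) : Col → V3
  | .Y => ![0, 0, 1]
  | .S b i => ![0, 1, Tv x δ b i]
  | .M g => ![1, 0, g * W]
  | .P l g => ![1, Uv y δ true (ai (con g) l), H0 con x y W δ g l +
      Tv x δ true (si (con g) l) * Uv y δ true (ai (con g) l)]
  | .Q l g => ![1, Uv y δ false (ai (con g) l), H0 con x y W δ g l +
      δ * x (si (con g) l) * Uv y δ true (ai (con g) l) +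
      Tv x δ false (si (con g) l) * Uv y δ false (ai (con g) l)]
  | .R false g => ![1, 0, H1 con x y W δ g .a]
  | .R true g => ![1, 0, H1 con x y W δ g .b]

theorem dt_vec (a b c a' b' c' : ℝ) : dt ![a, b, c] ![a', b', c'] = a * a' + b * b' + c * c' := by
  simp [dt]

theorem cont_Tv (b : Bool) (i : ℕ) : Continuous (fun δ => Tv x δ b i) := by
  unfold Tv; cases b <;> simp <;> fun_prop

theorem cont_Uv (b : Bool) (i : ℕ) : Continuous (fun δ => Uv y δ b i) := by
  unfold Uv; cases b <;> simp <;> fun_prop

theorem cont_H0 (g : ℕ) (l : T3) : Continuous (fun δ => H0 con x y W δ g l) := by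
  cases l <;> simp only [H0] <;> fun_prop

theorem cont_H1 (g : ℕ) (l : T3) : Continuous (fun δ => H1 con x y W δ g l) := by
  have := cont_H0 con x y W g l
  unfold H1
  fun_prop

theorem cont_LI (g : ℕ) (k l : T3) : Continuous (fun δ => LI con x y W δ g k l) := by
  have h1 := cont_H0 con x y W g l
  have h2 := cont_H1 con x y W g l
  have h3 := cont_Uv y true (ai (con g) l)
  cases k <;> simp only [LI] <;> fun_prop

theorem cont_LS (g : ℕ) (k l : T3) : Continuous (fun δ => LS con x δ g k l) := by
  have h1 := cont_Tv x true (si (con g) l)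
  have h2 := cont_Tv x false (si (con g) l)
  cases k <;> simp only [LS] <;> assumption

theorem cont_vec {a b c : ℝ → ℝ} (ha : Continuous a) (hb : Continuous b) (hc : Continuous c) :
    Continuous (fun δ => (![a δ, b δ, c δ] : V3)) := by
  rw [continuous_pi_iff]
  intro i
  fin_cases i <;> simpa

theorem cont_row (r : Row) : Continuous (fun δ => rowV con x y W δ r) := by
  rcases r with _ | _ | ⟨b, j⟩ | ⟨k, l, g⟩
  · exact continuous_const
  · exact continuous_const
  · exact cont_vec (cont_Uv y b j).neg continuous_const continuous_const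
  · exact cont_vec (cont_LI con x y W g k l).neg (cont_LS con x g k l).neg continuous_const

theorem cont_col (c : Col) : Continuous (fun δ => colV con x y W δ c) := by
  rcases c with _ | ⟨b', i⟩ | g' | ⟨l', g'⟩ | ⟨l', g'⟩ | ⟨b', g'⟩
  · exact continuous_const
  · exact cont_vec continuous_const continuous_const (cont_Tv x b' i)
  · exact continuous_const
  · exact cont_vec continuous_const (cont_Uv y true _)
      ((cont_H0 con x y W g' l').add ((cont_Tv x true _).mul (cont_Uv y true _)))
  · exact cont_vec continuous_const (cont_Uv y false _)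
      (((cont_H0 con x y W g' l').add ((continuous_id.mul continuous_const).mul
        (cont_Uv y true _))).add ((cont_Tv x false _).mul (cont_Uv y false _)))
  · cases b'
    · exact cont_vec continuous_const continuous_const (cont_H1 con x y W g' .a)
    · exact cont_vec continuous_const continuous_const (cont_H1 con x y W g' .b)

theorem cont_dt (r : Row) (c : Col) :
    Continuous (fun δ => dt (rowV con x y W δ r) (colV con x y W δ c)) := by
  have h1 := cont_row con x y W r
  have h2 := cont_col con x y W c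
  rw [continuous_pi_iff] at h1 h2
  unfold dt
  exact (((h1 0).mul (h2 0)).add ((h1 1).mul (h2 1))).add ((h1 2).mul (h2 2))

theorem ev_ceo {f : ℝ → ℝ} (hf : Continuous f) {a b : ℕ} {e : Ent} (hlt : b < a → 0 < f 0)
    (hgt : a < b → f 0 < 0) (heq : a = b → ∀ᶠ δ in 𝓝[>] (0 : ℝ), e.ok (f δ)) :
    ∀ᶠ δ in 𝓝[>] (0 : ℝ), (ceo (compare a b) e).ok (f δ) := by
  have ht : Tendsto f (𝓝[>] (0 : ℝ)) (𝓝 (f 0)) := (hf.tendsto 0).mono_left nhdsWithin_le_nhds
  rcases h : compare a b with _ | _ | _
  · exact ht.eventually_lt_const (hgt (compare_lt_iff_lt.mp h))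
  · exact heq (compare_eq_iff_eq.mp h)
  · exact ht.eventually_const_lt (hlt (compare_gt_iff_gt.mp h))

theorem lex_pos {g g' i i' j n : ℕ} (hg : g < g') (hi : i < n) (hj : j < n) (hW : (n : ℝ) * n < W) :
    0 < ((g' : ℝ) - g) * W + ((i' : ℝ) - i) * (j + 1) := by
  have h1 : (1 : ℝ) ≤ (g' : ℝ) - g := by
    have : (g : ℝ) + 1 ≤ g' := by exact_mod_cast hg
    linarith
  have h2 : (i : ℝ) ≤ n := by exact_mod_cast hi.le
  have h3 : (j : ℝ) + 1 ≤ n := by exact_mod_cast hj
  have hj0 : (0 : ℝ) ≤ j := Nat.cast_nonneg j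
  have hi0 : (0 : ℝ) ≤ i := Nat.cast_nonneg i
  have hi0' : (0 : ℝ) ≤ i' := Nat.cast_nonneg i'
  have h4 : (i : ℝ) * (j + 1) ≤ n * n := mul_le_mul h2 h3 (by positivity) (by positivity)
  have hW0 : 0 < W := lt_of_le_of_lt (by positivity) hW
  have h5 : W ≤ ((g' : ℝ) - g) * W := by nlinarith
  have h6 : 0 ≤ (i' : ℝ) * (j + 1) := by positivity
  nlinarith

theorem lex_neg {g g' i i' j n : ℕ} (hg : g' < g) (hi : i' < n) (hj : j < n) (hW : (n : ℝ) * n < W) :
    ((g' : ℝ) - g) * W + ((i' : ℝ) - i) * (j + 1) < 0 := by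
  have := lex_pos (W := W) (g := g') (g' := g) (i := i') (i' := i) (j := j) hg hi hj hW
  linarith

/-- the value of a line at a corner, for `δ = 0` -/
theorem val0_LP (k l : T3) (g : ℕ) (l' : T3) (g' : ℕ) :
    dt (rowV con x y W 0 (.L k l g)) (colV con x y W 0 (.P l' g')) =
      ((g' : ℝ) - g) * W + ((si (con g') l' : ℝ) - si (con g) l) * ((ai (con g') l' : ℝ) + 1) := by
  cases k <;> cases l <;> cases l' <;>
    simp only [rowV, colV, dt_vec, LI, LS, H0, H1, Tv, Uv, if_true, if_false, zero_mul, add_zero,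
      Bool.false_eq_true, ne_eq, OfNat.ofNat_ne_zero, not_false_eq_true, zero_pow] <;> ring

theorem val0_LQ (k l : T3) (g : ℕ) (l' : T3) (g' : ℕ) :
    dt (rowV con x y W 0 (.L k l g)) (colV con x y W 0 (.Q l' g')) =
      ((g' : ℝ) - g) * W + ((si (con g') l' : ℝ) - si (con g) l) * ((ai (con g') l' : ℝ) + 1) := by
  cases k <;> cases l <;> cases l' <;>
    simp only [rowV, colV, dt_vec, LI, LS, H0, H1, Tv, Uv, if_true, if_false, zero_mul, add_zero,
      Bool.false_eq_true, ne_eq, OfNat.ofNat_ne_zero, not_false_eq_true, zero_pow] <;> ring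

theorem val0_LM (k l : T3) (g g' : ℕ) :
    dt (rowV con x y W 0 (.L k l g)) (colV con x y W 0 (.M g')) = ((g' : ℝ) - g) * W := by
  cases k <;> cases l <;>
    simp only [rowV, colV, dt_vec, LI, LS, H0, H1, Tv, Uv, if_true, if_false, zero_mul, add_zero,
      Bool.false_eq_true, ne_eq, OfNat.ofNat_ne_zero, not_false_eq_true, zero_pow] <;> ring

theorem val0_LR (k l : T3) (g : ℕ) (b : Bool) (g' : ℕ) :
    dt (rowV con x y W 0 (.L k l g)) (colV con x y W 0 (.R b g')) = ((g' : ℝ) - g) * W := by
  cases b <;> cases k <;> cases l <;>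
    simp only [rowV, colV, dt_vec, LI, LS, H0, H1, Tv, Uv, if_true, if_false, zero_mul, add_zero,
      Bool.false_eq_true, ne_eq, OfNat.ofNat_ne_zero, not_false_eq_true, zero_pow] <;> ring

theorem ev_pos_mem : ∀ᶠ δ in 𝓝[>] (0 : ℝ), 0 < δ := self_mem_nhdsWithin

theorem ev_cont_lt {f : ℝ → ℝ} (hf : Continuous f) (h : f 0 < 0) :
    ∀ᶠ δ in 𝓝[>] (0 : ℝ), f δ < 0 :=
  ((hf.tendsto 0).mono_left nhdsWithin_le_nhds).eventually_lt_const h

theorem exact_ev {n K : ℕ} (hx : ∀ i, 0 < x i) (hy : ∀ j, 0 < y j)
    (hn : ∀ g < K, ∀ l, si (con g) l < n ∧ ai (con g) l < n)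
    (hd : ∀ g < K, (con g).dist) (hh : ∀ g < K, (con g).holds x y)
    (hW : (n : ℝ) * n < W) (r : Row) (c : Col) (hr : r ∈ rowL n K) (hc : c ∈ colL n K) :
    ∀ᶠ δ in 𝓝[>] (0 : ℝ), (Zp con r c).ok (dt (rowV con x y W δ r) (colV con x y W δ c)) := by
  have hW0 : 0 < W := lt_of_le_of_lt (by positivity) hW
  have gpos : ∀ {g g' : ℕ}, g < g' → 0 < ((g' : ℝ) - g) * W := fun {g g'} h => by
    have : (g : ℝ) < g' := by exact_mod_cast h
    exact mul_pos (by linarith) hW0
  have gneg : ∀ {g g' : ℕ}, g' < g → ((g' : ℝ) - g) * W < 0 := fun {g g'} h => by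
    have : (g' : ℝ) < g := by exact_mod_cast h
    exact mul_neg_of_neg_of_pos (by linarith) hW0
  have hU : ∀ δ, 0 < δ → ∀ b j, 0 < Uv y δ b j := fun δ hδ b j => by
    have := hy j
    cases b
    · simp only [Uv]; positivity
    · simp only [Uv, if_true]; positivity
  have hcd := cont_dt con x y W r c
  rcases r with _ | _ | ⟨b, j⟩ | ⟨k, l, g⟩ <;>
    rcases c with _ | ⟨b', i⟩ | g' | ⟨l', g'⟩ | ⟨l', g'⟩ | ⟨b', g'⟩
  -- X0
  · exact Eventually.of_forall fun δ => by
      simp [Zp, tabE, codeR, codeC, tab, Ent.ok, rowV, colV, dt_vec]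
  · exact Eventually.of_forall fun δ => by
      simp [Zp, tabE, codeR, codeC, tab, Ent.ok, rowV, colV, dt_vec]
  · exact Eventually.of_forall fun δ => by
      simp [Zp, tabE, codeR, codeC, tab, Ent.ok, rowV, colV, dt_vec]
  · filter_upwards [ev_pos_mem] with δ hδ
    simpa [Zp, tabE, codeR, codeC, tab, Ent.ok, rowV, colV, dt_vec] using hU δ hδ _ _
  · filter_upwards [ev_pos_mem] with δ hδ
    simpa [Zp, tabE, codeR, codeC, tab, Ent.ok, rowV, colV, dt_vec] using hU δ hδ _ _
  · exact Eventually.of_forall fun δ => by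
      cases b' <;> simp [Zp, tabE, codeR, codeC, tab, Ent.ok, rowV, colV, dt_vec]
  -- I
  · exact Eventually.of_forall fun δ => by
      simp [Zp, tabE, codeR, codeC, tab, Ent.ok, rowV, colV, dt_vec]
  · exact Eventually.of_forall fun δ => by
      simp [Zp, tabE, codeR, codeC, tab, Ent.ok, rowV, colV, dt_vec]
  · exact Eventually.of_forall fun δ => by
      simp [Zp, tabE, codeR, codeC, tab, Ent.ok, rowV, colV, dt_vec]
  · exact Eventually.of_forall fun δ => by
      simp [Zp, tabE, codeR, codeC, tab, Ent.ok, rowV, colV, dt_vec]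
  · exact Eventually.of_forall fun δ => by
      simp [Zp, tabE, codeR, codeC, tab, Ent.ok, rowV, colV, dt_vec]
  · exact Eventually.of_forall fun δ => by
      cases b' <;> simp [Zp, tabE, codeR, codeC, tab, Ent.ok, rowV, colV, dt_vec]
  -- V
  · exact Eventually.of_forall fun δ => by
      simp [Zp, tabE, codeR, codeC, tab, Ent.ok, rowV, colV, dt_vec]
  · exact Eventually.of_forall fun δ => by
      simp [Zp, tabE, codeR, codeC, tab, Ent.ok, rowV, colV, dt_vec]
  · filter_upwards [ev_pos_mem] with δ hδ
    simpa [Zp, tabE, codeR, codeC, tab, Ent.ok, rowV, colV, dt_vec] using hU δ hδ _ _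
  · simp only [Zp, tabE, codeR, codeC, tab]
    have h0 : dt (rowV con x y W 0 (.V b j)) (colV con x y W 0 (.P l' g')) =
        (ai (con g') l' : ℝ) - j := by
      cases b <;> simp [rowV, colV, dt_vec, Uv] <;> ring
    refine ev_ceo hcd (fun h => ?_) (fun h => ?_) (fun h => ?_)
    · rw [h0]
      have : (j : ℝ) < ai (con g') l' := by exact_mod_cast h
      linarith
    · rw [h0]
      have : (ai (con g') l' : ℝ) < j := by exact_mod_cast h
      linarith
    · subst h
      cases b
      · filter_upwards [ev_pos_mem] with δ hδ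
        simp only [Bool.false_eq_true, if_false, Ent.ok, rowV, colV, dt_vec, Uv, if_true]
        have := mul_pos hδ (hy (ai (con g') l'))
        linarith
      · refine Eventually.of_forall fun δ => ?_
        simp only [if_true, Ent.ok, rowV, colV, dt_vec, Uv]
        ring
  · simp only [Zp, tabE, codeR, codeC, tab]
    have h0 : dt (rowV con x y W 0 (.V b j)) (colV con x y W 0 (.Q l' g')) =
        (ai (con g') l' : ℝ) - j := by
      cases b <;> simp [rowV, colV, dt_vec, Uv] <;> ring
    refine ev_ceo hcd (fun h => ?_) (fun h => ?_) (fun h => ?_)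
    · rw [h0]
      have : (j : ℝ) < ai (con g') l' := by exact_mod_cast h
      linarith
    · rw [h0]
      have : (ai (con g') l' : ℝ) < j := by exact_mod_cast h
      linarith
    · subst h
      cases b
      · refine Eventually.of_forall fun δ => ?_
        simp only [Bool.false_eq_true, if_false, if_true, Ent.ok, rowV, colV, dt_vec, Uv]
        ring
      · filter_upwards [ev_pos_mem] with δ hδ
        simp only [Bool.false_eq_true, if_false, Ent.ok, rowV, colV, dt_vec, Uv, if_true]
        have := mul_pos hδ (hy (ai (con g') l'))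
        linarith
  · filter_upwards [ev_pos_mem] with δ hδ
    cases b' <;>
    simpa [Zp, tabE, codeR, codeC, tab, Ent.ok, rowV, colV, dt_vec] using hU δ hδ _ _
  -- L
  · exact Eventually.of_forall fun δ => by
      simp [Zp, tabE, codeR, codeC, tab, Ent.ok, rowV, colV, dt_vec]
  · simp only [Zp, tabE, codeR, codeC, tab]
    have h0 : dt (rowV con x y W 0 (.L k l g)) (colV con x y W 0 (.S b' i)) =
        (i : ℝ) - si (con g) l := by
      cases k <;> cases b' <;> simp [rowV, colV, dt_vec, Tv, LS] <;> ring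
    refine ev_ceo hcd (fun h => ?_) (fun h => ?_) (fun h => ?_)
    · rw [h0]
      have : (si (con g) l : ℝ) < i := by exact_mod_cast h
      linarith
    · rw [h0]
      have : (i : ℝ) < si (con g) l := by exact_mod_cast h
      linarith
    · subst h
      filter_upwards [ev_pos_mem] with δ hδ
      have := mul_pos hδ (hx (si (con g) l))
      cases k <;> cases b' <;>
        simp only [tabS, Ent.ok, rowV, colV, dt_vec, Tv, LS, if_true, if_false,
          Bool.false_eq_true] <;> linarith
  · simp only [Zp, tabE, codeR, codeC, tab]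
    have h0 := val0_LM con x y W k l g g'
    refine ev_ceo hcd (fun h => ?_) (fun h => ?_) (fun h => ?_)
    · rw [h0]; exact gpos h
    · rw [h0]; exact gneg h
    · subst h
      filter_upwards [ev_pos_mem] with δ hδ
      have hxy : ∀ l, 0 < δ ^ 2 * (x (si (con g') l) * y (ai (con g') l)) := fun l =>
        mul_pos (by positivity) (mul_pos (hx _) (hy _))
      have hxU : ∀ l, 0 < δ * x (si (con g') l) * Uv y δ true (ai (con g') l) := fun l =>
        mul_pos (mul_pos hδ (hx _)) (hU δ hδ _ _)
      have e1 := hxy .a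
      have e2 := hxy .b
      have e3 := hxy .c
      have e4 := hxU .a
      have e5 := hxU .b
      have e6 := hxU .c
      cases k <;> cases l <;>
        simp only [tabM, Ent.ok, rowV, colV, dt_vec, LI, H0, H1] <;> linarith
  · simp only [Zp, tabE, codeR, codeC, tab]
    have hg' := mem_colL_P.mp hc
    have hg := mem_rowL_L.mp hr
    have h0 := val0_LP con x y W k l g l' g'
    refine ev_ceo hcd (fun h => ?_) (fun h => ?_) (fun h => ?_)
    · rw [h0]; exact lex_pos W h (hn g hg l).1 (hn g' hg' l').2 hW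
    · rw [h0]; exact lex_neg W h (hn g' hg' l').1 (hn g' hg' l').2 hW
    · subst h
      by_cases hl : l = l'
      · subst hl
        simp only [if_true]
        filter_upwards [ev_pos_mem] with δ hδ
        have hxy : 0 < δ ^ 2 * (x (si (con g') l) * y (ai (con g') l)) :=
          mul_pos (by positivity) (mul_pos (hx _) (hy _))
        cases k
        · simp only [tabP, Ent.ok, rowV, colV, dt_vec, LI, LS]; ring
        · simp only [tabP, Ent.ok, rowV, colV, dt_vec, LI, LS, Tv, if_true, if_false,
            Bool.false_eq_true]; ring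
        · simp only [tabP, Ent.ok, rowV, colV, dt_vec, LI, LS, H1]; linarith
      · simp only [if_neg hl]
        refine ev_ceo hcd (fun h => ?_) (fun h => ?_) (fun h => ?_)
        · rw [h0]
          have : (si (con g') l : ℝ) < si (con g') l' := by exact_mod_cast h
          have h2 : (0 : ℝ) < (ai (con g') l' : ℝ) + 1 := by positivity
          have := mul_pos (sub_pos.mpr this) h2
          linarith
        · rw [h0]
          have : (si (con g') l' : ℝ) < si (con g') l := by exact_mod_cast h
          have h2 : (0 : ℝ) < (ai (con g') l' : ℝ) + 1 := by positivity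
          have := mul_pos (sub_pos.mpr this) h2
          linarith
        · exfalso
          obtain ⟨d1, d2, d3⟩ := hd g' hg
          cases l <;> cases l' <;> simp_all [si]
  · simp only [Zp, tabE, codeR, codeC, tab]
    have hg' := mem_colL_Q.mp hc
    have hg := mem_rowL_L.mp hr
    have h0 := val0_LQ con x y W k l g l' g'
    refine ev_ceo hcd (fun h => ?_) (fun h => ?_) (fun h => ?_)
    · rw [h0]; exact lex_pos W h (hn g hg l).1 (hn g' hg' l').2 hW
    · rw [h0]; exact lex_neg W h (hn g' hg' l').1 (hn g' hg' l').2 hW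
    · subst h
      by_cases hl : l = l'
      · subst hl
        simp only [if_true]
        filter_upwards [ev_pos_mem] with δ hδ
        have hxy : 0 < δ ^ 2 * (x (si (con g') l) * y (ai (con g') l)) :=
          mul_pos (by positivity) (mul_pos (hx _) (hy _))
        cases k
        · simp only [tabQ, Ent.ok, rowV, colV, dt_vec, LI, LS, Tv, Uv, if_true, if_false,
            Bool.false_eq_true]; nlinarith
        · simp only [tabQ, Ent.ok, rowV, colV, dt_vec, LI, LS]; ring
        · simp only [tabQ, Ent.ok, rowV, colV, dt_vec, LI, LS, H1, Tv, Uv, if_true, if_false,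
            Bool.false_eq_true]; ring
      · simp only [if_neg hl]
        refine ev_ceo hcd (fun h => ?_) (fun h => ?_) (fun h => ?_)
        · rw [h0]
          have : (si (con g') l : ℝ) < si (con g') l' := by exact_mod_cast h
          have h2 : (0 : ℝ) < (ai (con g') l' : ℝ) + 1 := by positivity
          have := mul_pos (sub_pos.mpr this) h2
          linarith
        · rw [h0]
          have : (si (con g') l' : ℝ) < si (con g') l := by exact_mod_cast h
          have h2 : (0 : ℝ) < (ai (con g') l' : ℝ) + 1 := by positivity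
          have := mul_pos (sub_pos.mpr this) h2
          linarith
        · exfalso
          obtain ⟨d1, d2, d3⟩ := hd g' hg
          cases l <;> cases l' <;> simp_all [si]
  · simp only [Zp, tabE, codeR, codeC, tab]
    have hg := mem_rowL_L.mp hr
    have h0 := val0_LR con x y W k l g b' g'
    refine ev_ceo hcd (fun h => ?_) (fun h => ?_) (fun h => ?_)
    · rw [h0]; exact gpos h
    · rw [h0]; exact gneg h
    · subst h
      have hhg := hh g' hg
      set xa := x (si (con g') .a) with hxa
      set ya := y (ai (con g') .a) with hya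
      set xc := x (si (con g') .b) with hxc
      set yc := y (ai (con g') .b) with hyc
      set xe := x (si (con g') .c) with hxe
      set ye := y (ai (con g') .c) with hye
      have pxa : 0 < xa := hx _
      have pya : 0 < ya := hy _
      have pxc : 0 < xc := hx _
      have pyc : 0 < yc := hy _
      have pxe : 0 < xe := hx _
      have pye : 0 < ye := hy _
      have k1 : xa * ya < xe * ye := by
        rcases hcg : con g' with ⟨p, q, r, s⟩
        rw [hcg] at hhg
        simp only [hxa, hya, hxe, hye, hcg, si, ai]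
        cases s
        · simp only [BCon.holds] at hhg
          have := mul_pos (hx q.1) (hy q.2)
          linarith
        · exact hhg.1
      have k2 : (con g').2.2.2 = false → xa * ya + xc * yc < xe * ye := by
        intro hs
        rcases hcg : con g' with ⟨p, q, r, s⟩
        rw [hcg] at hhg hs
        simp only at hs
        subst hs
        simp only [hxa, hya, hxe, hye, hxc, hyc, hcg, si, ai]
        exact hhg
      have k3 : (con g').2.2.2 = true → xe * ye < xa * ya + xc * yc := by
        intro hs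
        rcases hcg : con g' with ⟨p, q, r, s⟩
        rw [hcg] at hhg hs
        simp only at hs
        subst hs
        simp only [hxa, hya, hxe, hye, hxc, hyc, hcg, si, ai]
        exact hhg.2
      have ev1 : ∀ᶠ δ in 𝓝[>] (0 : ℝ), δ * (xa * ya + xc * yc) - xa < 0 :=
        ev_cont_lt (by fun_prop) (by simpa using pxa)
      have ev2 : ∀ᶠ δ in 𝓝[>] (0 : ℝ), δ * (xa * ya + xc * yc) - xe < 0 :=
        ev_cont_lt (by fun_prop) (by simpa using pxe)
      filter_upwards [ev_pos_mem, ev1, ev2] with δ hδ e1 e2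
      have hδ2 : 0 < δ ^ 2 := by positivity
      have f1 := mul_pos hδ2 (mul_pos pxa pya)
      have f2 := mul_pos hδ2 (mul_pos pxc pyc)
      have f3 := mul_pos hδ2 (mul_pos pxe pye)
      have f4 := mul_lt_mul_of_pos_left k1 hδ2
      have u1 : 1 ≤ Uv y δ true (ai (con g') .a) := by
        have h1 := mul_pos hδ (hy (ai (con g') .a))
        have h2 : (0 : ℝ) ≤ ai (con g') .a := Nat.cast_nonneg _
        simp only [Uv, if_true]; linarith
      have u2 : 1 + δ * yc ≤ Uv y δ true (ai (con g') .b) := by
        have h2 : (0 : ℝ) ≤ ai (con g') .b := Nat.cast_nonneg _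
        simp only [Uv, if_true]; linarith
      have u3 : 1 ≤ Uv y δ true (ai (con g') .c) := by
        have h1 := mul_pos hδ (hy (ai (con g') .c))
        have h2 : (0 : ℝ) ≤ ai (con g') .c := Nat.cast_nonneg _
        simp only [Uv, if_true]; linarith
      have g1 : δ ^ 2 * (xa * ya) + δ ^ 2 * (xc * yc) < δ * xa * Uv y δ true (ai (con g') .a) := by
        have h1 : δ * xa * 1 ≤ δ * xa * Uv y δ true (ai (con g') .a) :=
          mul_le_mul_of_nonneg_left u1 (by positivity)
        have h2 : δ * (δ * (xa * ya + xc * yc)) < δ * xa :=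
          mul_lt_mul_of_pos_left (by linarith) hδ
        nlinarith
      have g3 : δ ^ 2 * (xa * ya) + δ ^ 2 * (xc * yc) < δ * xe * Uv y δ true (ai (con g') .c) := by
        have h1 : δ * xe * 1 ≤ δ * xe * Uv y δ true (ai (con g') .c) :=
          mul_le_mul_of_nonneg_left u3 (by positivity)
        have h2 : δ * (δ * (xa * ya + xc * yc)) < δ * xe :=
          mul_lt_mul_of_pos_left (by linarith) hδ
        nlinarith
      have g2 : δ ^ 2 * (xc * yc) < δ * xc * Uv y δ true (ai (con g') .b) := by
        have h1 : δ * xc * (1 + δ * yc) ≤ δ * xc * Uv y δ true (ai (con g') .b) :=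
          mul_le_mul_of_nonneg_left u2 (by positivity)
        have h2 : 0 < δ * xc := by positivity
        nlinarith
      cases b' <;> cases k <;> cases l <;>
        simp only [tabR, rowV, colV, dt_vec, LI, H0, H1, ← hxa, ← hya, ← hxc, ← hyc, ← hxe,
          ← hye] <;>
        first
        | (simp only [Ent.ok]; linarith)
        | skip
      rcases hs : (con g').2.2.2 with _ | _
      · have := mul_lt_mul_of_pos_left (k2 hs) hδ2
        simp only [Ent.ok]; linarith
      · have := mul_lt_mul_of_pos_left (k3 hs) hδ2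
        simp only [Ent.ok]; linarith

end

theorem indep_of2 {p q : V3} (h : p 0 * q 1 - p 1 * q 0 ≠ 0) : Indep p q := Or.inr (Or.inr h)
theorem indep_of0 {p q : V3} (h : p 1 * q 2 - p 2 * q 1 ≠ 0) : Indep p q := Or.inl h
theorem indep_of1 {p q : V3} (h : p 2 * q 0 - p 0 * q 2 ≠ 0) : Indep p q := Or.inr (Or.inl h)

/-- From solutions of comparisons to sign matrices. -/
theorem loops_complete {n K : ℕ} {con : ℕ → BCon} {x y : ℕ → ℝ} (hx : ∀ i, 0 < x i)
    (hy : ∀ j, 0 < y j) (hn : ∀ g < K, ∀ l, si (con g) l < n ∧ ai (con g) l < n)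
    (hd : ∀ g < K, (con g).dist) (hh : ∀ g < K, (con g).holds x y) :
    SignVec (clusterN (Zs n K con)) := by
  set W : ℝ := n * n + 1 with hWdef
  have hW : (n : ℝ) * n < W := by linarith
  have hall : ∀ᶠ δ in 𝓝[>] (0 : ℝ), ∀ (r : {r : Row // r ∈ rowL n K})
      (c : {c : Col // c ∈ colL n K}),
      (Zp con r.1 c.1).ok (dt (rowV con x y W δ r.1) (colV con x y W δ c.1)) := by
    rw [Filter.eventually_all]
    intro r
    rw [Filter.eventually_all]
    intro c
    exact exact_ev con x y W hx hy hn hd hh hW r.1 c.1 r.2 c.2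
  obtain ⟨δ, hδ⟩ := hall.exists
  refine cluster_complete' (patOK con) (A := fun r => rowV con x y W δ r.1)
    (B := fun c => colV con x y W δ c.1) (fun r c => hδ r c) ?_ ?_
  · rintro ⟨r, hr⟩
    rcases r with _ | _ | ⟨b, j⟩ | ⟨k, l, g⟩
    · refine ⟨![1, 0, 0], ![0, 1, 0], indep_of2 (by simp), ?_, ?_⟩
      · rintro ⟨c, hc⟩ h
        have := Zp_r1 h
        simp at this
      · rintro ⟨c, hc⟩ h
        have := Zp_r2 h
        simp at this
    · refine ⟨![1, 0, 0], ![0, 1, 0], indep_of2 (by simp), ?_, ?_⟩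
      · rintro ⟨c, hc⟩ h
        have := Zp_r1 h
        simp at this
      · rintro ⟨c, hc⟩ h
        have := Zp_r2 h
        simp at this
    · refine ⟨![0, 0, 1], ![1, 0, 0], indep_of1 (by simp), ?_, ?_⟩
      · rintro ⟨c, hc⟩ h
        have h1 := Zp_r1 h
        simp only [Row.V.injEq, reduceCtorEq, false_and, exists_false, or_false] at h1
        obtain ⟨_, _, _, rfl⟩ := h1
        rfl
      · rintro ⟨c, hc⟩ h
        have := Zp_r2 h
        simp at this
    · cases k
      · refine ⟨![1, 0, H0 con x y W δ g l], ![0, 1, Tv x δ true (si (con g) l)],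
          indep_of2 (by simp), ?_, ?_⟩
        · rintro ⟨c, hc⟩ h
          have h1 := Zp_r1 h
          simp only [Row.L.injEq, reduceCtorEq, false_and, exists_false, or_false, false_or,
            true_and] at h1
          rcases h1 with ⟨g, ⟨rfl, rfl⟩, rfl⟩ | ⟨g, ⟨rfl, rfl⟩, rfl⟩ | ⟨g, ⟨rfl, rfl⟩, rfl⟩ <;>
            simp [colV, H0, H1]
        · rintro ⟨c, hc⟩ h
          obtain ⟨k, l', g', h1, rfl⟩ := Zp_r2 h
          simp only [Row.L.injEq] at h1
          obtain ⟨rfl, rfl, rfl⟩ := h1
          simp [colV]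
      · refine ⟨colV con x y W δ (.P l g), ![0, 1, Tv x δ false (si (con g) l)],
          indep_of2 (by simp [colV]), ?_, ?_⟩
        · rintro ⟨c, hc⟩ h
          have h1 := Zp_r1 h
          simp only [Row.L.injEq, reduceCtorEq, false_and, exists_false, or_false, false_or,
            true_and] at h1
          obtain ⟨l', g', ⟨rfl, rfl⟩, rfl⟩ := h1
          rfl
        · rintro ⟨c, hc⟩ h
          obtain ⟨k, l', g', h1, rfl⟩ := Zp_r2 h
          simp only [Row.L.injEq] at h1
          obtain ⟨rfl, rfl, rfl⟩ := h1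
          simp [colV]
      · refine ⟨colV con x y W δ (.Q l g), ![0, 1, Tv x δ true (si (con g) l)],
          indep_of2 (by simp [colV]), ?_, ?_⟩
        · rintro ⟨c, hc⟩ h
          have h1 := Zp_r1 h
          simp only [Row.L.injEq, reduceCtorEq, false_and, exists_false, or_false, false_or,
            true_and] at h1
          obtain ⟨l', g', ⟨rfl, rfl⟩, rfl⟩ := h1
          rfl
        · rintro ⟨c, hc⟩ h
          obtain ⟨k, l', g', h1, rfl⟩ := Zp_r2 h
          simp only [Row.L.injEq] at h1
          obtain ⟨rfl, rfl, rfl⟩ := h1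
          simp [colV]
  · rintro ⟨c, hc⟩
    rcases c with _ | ⟨b', i⟩ | g' | ⟨l', g'⟩ | ⟨l', g'⟩ | ⟨b', g'⟩
    · refine ⟨![0, 1, 0], ![1, 0, 0], indep_of2 (by simp), ?_, ?_⟩
      · rintro ⟨r, hr⟩ h
        have h1 := Zp_c1 h
        simp only [reduceCtorEq, and_false, exists_false, or_false, and_true] at h1
        subst h1
        rfl
      · rintro ⟨r, hr⟩ h
        have h1 := Zp_c2 h
        simp only [reduceCtorEq, and_false, exists_false, or_false, and_true] at h1
        subst h1
        rfl
    · refine ⟨![1, 0, 0], ![0, 1, 0], indep_of2 (by simp), ?_, ?_⟩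
      · rintro ⟨r, hr⟩ h
        have h1 := Zp_c1 h
        simp only [reduceCtorEq, and_false, exists_false, or_false, false_or] at h1
        obtain ⟨rfl, -⟩ := h1
        rfl
      · rintro ⟨r, hr⟩ h
        have h1 := Zp_c2 h
        simp at h1
    · refine ⟨![0, 1, 0], ![1, 0, 0], indep_of2 (by simp), ?_, ?_⟩
      · rintro ⟨r, hr⟩ h
        have h1 := Zp_c1 h
        simp only [reduceCtorEq, and_false, exists_false, or_false, false_or] at h1
        obtain ⟨rfl, -⟩ := h1
        rfl
      · rintro ⟨r, hr⟩ h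
        have h1 := Zp_c2 h
        simp at h1
    · refine ⟨rowV con x y W δ (.L .a l' g'), rowV con x y W δ (.V true (ai (con g') l')),
        indep_of0 (by simp [rowV]), ?_, ?_⟩
      · rintro ⟨r, hr⟩ h
        have h1 := Zp_c1 h
        simp only [reduceCtorEq, and_false, exists_false, or_false, false_or, Col.P.injEq] at h1
        obtain ⟨l, g, rfl, rfl, rfl⟩ := h1
        rfl
      · rintro ⟨r, hr⟩ h
        have h1 := Zp_c2 h
        simp only [reduceCtorEq, and_false, exists_false, or_false, false_or, Col.P.injEq] at h1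
        obtain ⟨l, g, rfl, rfl, rfl⟩ := h1
        rfl
    · refine ⟨rowV con x y W δ (.L .b l' g'), rowV con x y W δ (.V false (ai (con g') l')),
        indep_of0 (by simp [rowV]), ?_, ?_⟩
      · rintro ⟨r, hr⟩ h
        have h1 := Zp_c1 h
        simp only [reduceCtorEq, and_false, exists_false, or_false, false_or, Col.Q.injEq] at h1
        obtain ⟨l, g, rfl, rfl, rfl⟩ := h1
        rfl
      · rintro ⟨r, hr⟩ h
        have h1 := Zp_c2 h
        simp only [reduceCtorEq, and_false, exists_false, or_false, false_or, Col.Q.injEq] at h1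
        obtain ⟨l, g, rfl, rfl, rfl⟩ := h1
        rfl
    · refine ⟨rowV con x y W δ (.L .c (if b' then .b else .a) g'), ![0, 1, 0],
        indep_of0 (by simp [rowV]), ?_, ?_⟩
      · rintro ⟨r, hr⟩ h
        have h1 := Zp_c1 h
        simp only [reduceCtorEq, and_false, exists_false, or_false, false_or, Col.R.injEq] at h1
        rcases h1 with ⟨g, rfl, rfl, rfl⟩ | ⟨g, rfl, rfl, rfl⟩ <;> rfl
      · rintro ⟨r, hr⟩ h
        have h1 := Zp_c2 h
        simp only [reduceCtorEq, and_false, exists_false, or_false, false_or, Col.R.injEq] at h1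
        obtain ⟨rfl, -⟩ := h1
        rfl

end Pool.Agent.Lib.ETR
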