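import Pool.Agent.Lib.ETR.LoopsComplete

set_option autoImplicit false
set_option linter.unusedSimpArgs false

/-!
# From sign matrices to solutions of comparisons
-/

namespace Pool.Agent.Lib.ETR

/-- determinants -/
def D3 (a b c : V3) : ℝ :=
  a 0 * (b 1 * c 2 - b 2 * c 1) - a 1 * (b 0 * c 2 - b 2 * c 0) + a 2 * (b 0 * c 1 - b 1 * c 0)

theorem cramer (a b c v w : V3) :
    D3 a b c * dt v w = D3 v b c * dt a w + D3 a v c * dt b w + D3 a b v * dt c w := by
  simp only [D3, dt]; ring

theorem D3_mul (a b c p q r : V3) : D3 a b c * D3 p q r =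
    dt a p * (dt b q * dt c r - dt b r * dt c q) - dt a q * (dt b p * dt c r - dt b r * dt c p) +
      dt a r * (dt b p * dt c q - dt b q * dt c p) := by
  simp only [D3, dt]; ring

theorem Ent.ok_of_mul {γ v : ℝ} (hγ : 0 < γ) {e : Ent} (h : e.ok (γ * v)) : e.ok v := by
  rcases e with (_ | _) | _ | _ | _ | _ <;> simp only [Ent.ok] at h ⊢
  · by_contra h'
    have := mul_nonneg hγ.le (not_lt.mp h')
    linarith
  · exact (mul_pos_iff_of_pos_left hγ).mp h
  all_goals exact (mul_eq_zero.mp h).resolve_left hγ.ne'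

theorem ceo_self (a : ℕ) (e : Ent) : ceo (compare a a) e = e := by
  rw [compare_eq_iff_eq.mpr rfl]; rfl

/-- the start of a loop -/
def stC (g : ℕ) : T3 → Col
  | .b => .R false g
  | _ => .M g

/-- From sign matrices to solutions of comparisons. -/
theorem loops_sound {n K : ℕ} {con : ℕ → BCon}
    (hn : ∀ g < K, ∀ l, si (con g) l < n ∧ ai (con g) l < n)
    (h : SignVec (clusterN (Zs n K con))) :
    ∃ x y : ℕ → ℝ, (∀ i, 0 < x i) ∧ (∀ j, 0 < y j) ∧ ∀ g < K, (con g).holds x y := by
  classical
  rcases Nat.eq_zero_or_pos K with hK | hK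
  · exact ⟨fun _ => 1, fun _ => 1, fun _ => one_pos, fun _ => one_pos, fun g hg => by omega⟩
  obtain ⟨A, B, hAB⟩ := cluster_sound (patOK con) h
  set a : Row → V3 := fun r => if h : r ∈ rowL n K then A ⟨r, h⟩ else 0 with ha
  set b : Col → V3 := fun c => if h : c ∈ colL n K then B ⟨c, h⟩ else 0 with hb
  have hex : ∀ r c, r ∈ rowL n K → c ∈ colL n K → (Zp con r c).ok (dt (a r) (b c)) := by
    intro r c hr hc
    have := hAB ⟨r, hr⟩ ⟨c, hc⟩
    simpa [ha, hb, hr, hc] using this
  -- the three basic rows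
  have mX0 : Row.X0 ∈ rowL n K := mem_rowL_X0
  have mI : Row.I ∈ rowL n K := mem_rowL_I
  have mY : Col.Y ∈ colL n K := mem_colL_Y
  have mL : ∀ {k l g}, g < K → Row.L k l g ∈ rowL n K := fun h => mem_rowL_L.mpr h
  have mV : ∀ {b j}, j < n → Row.V b j ∈ rowL n K := fun h => mem_rowL_V.mpr h
  have mS : ∀ {b i}, i < n → Col.S b i ∈ colL n K := fun h => mem_colL_S.mpr h
  have mM : ∀ {g}, g < K → Col.M g ∈ colL n K := fun h => mem_colL_M.mpr h
  have mP : ∀ {l g}, g < K → Col.P l g ∈ colL n K := fun h => mem_colL_P.mpr h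
  have mQ : ∀ {l g}, g < K → Col.Q l g ∈ colL n K := fun h => mem_colL_Q.mpr h
  have mR : ∀ {b g}, g < K → Col.R b g ∈ colL n K := fun h => mem_colL_R.mpr h
  set i0 := si (con 0) .a with hi0
  have hi0n : i0 < n := (hn 0 hK .a).1
  set ri := a .I with hri
  set rx := a .X0 with hrx
  set rz := a (.L .a .a 0) with hrz
  have iY : dt ri (b .Y) = 0 := hex .I .Y mI mY
  have xY : dt rx (b .Y) = 0 := hex .X0 .Y mX0 mY
  have zY : 0 < dt rz (b .Y) := hex (.L .a .a 0) .Y (mL hK) mY
  have iS : ∀ {β i}, i < n → dt ri (b (.S β i)) = 0 := fun {β i} h => hex .I (.S β i) mI (mS h)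
  have xS : ∀ {β i}, i < n → 0 < dt rx (b (.S β i)) := fun {β i} h =>
    hex .X0 (.S β i) mX0 (mS h)
  have iM : 0 < dt ri (b (.M 0)) := hex .I (.M 0) mI (mM hK)
  have xM : dt rx (b (.M 0)) = 0 := hex .X0 (.M 0) mX0 (mM hK)
  have hD : D3 ri rx rz ≠ 0 := by
    intro h0
    have h1 := D3_mul ri rx rz (b (.M 0)) (b (.S true i0)) (b .Y)
    rw [h0, iY, xY, iS hi0n, xM, zero_mul] at h1
    have h2 : 0 < dt ri (b (.M 0)) * (dt rx (b (.S true i0)) * dt rz (b .Y)) :=
      mul_pos iM (mul_pos (xS hi0n) zY)
    linarith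
  have coord : ∀ v : V3, ∃ α β γ : ℝ, ∀ w, dt v w = α * dt ri w + β * dt rx w + γ * dt rz w := by
    intro v
    refine ⟨D3 v rx rz / D3 ri rx rz, D3 ri v rz / D3 ri rx rz, D3 ri rx v / D3 ri rx rz, ?_⟩
    intro w
    have := cramer ri rx rz v w
    field_simp
    linarith
  have hV : ∀ β j, j < n → ∃ m u : ℝ, 0 < m ∧ ∀ w, dt (a (.V β j)) w =
      m * (dt rx w - u * dt ri w) := by
    intro β j hj
    obtain ⟨α, m, γ, hc⟩ := coord (a (.V β j))
    have h1 : dt (a (.V β j)) (b .Y) = 0 := hex (.V β j) .Y (mV hj) mY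
    have h2 : 0 < dt (a (.V β j)) (b (.S true i0)) := hex (.V β j) (.S true i0) (mV hj) (mS hi0n)
    rw [hc, iY, xY] at h1
    have hγ : γ = 0 := by
      have : γ * dt rz (b .Y) = 0 := by linarith
      exact (mul_eq_zero.mp this).resolve_right zY.ne'
    rw [hc, iS hi0n, hγ] at h2
    have hm : 0 < m := by
      have : 0 < m * dt rx (b (.S true i0)) := by linarith
      exact (mul_pos_iff_of_pos_right (xS hi0n)).mp this
    refine ⟨m, -α / m, hm, fun w => ?_⟩
    rw [hc, hγ]
    field_simp
    ring
  have hL : ∀ k l g, g < K → ∃ m s c : ℝ, 0 < m ∧ ∀ w, dt (a (.L k l g)) w =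
      m * (dt rz w - s * dt rx w - c * dt ri w) := by
    intro k l g hg
    obtain ⟨α, β, m, hc⟩ := coord (a (.L k l g))
    have h1 : 0 < dt (a (.L k l g)) (b .Y) := hex (.L k l g) .Y (mL hg) mY
    rw [hc, iY, xY] at h1
    have hm : 0 < m := by
      have : 0 < m * dt rz (b .Y) := by linarith
      exact (mul_pos_iff_of_pos_right zY).mp this
    refine ⟨m, -β / m, -α / m, hm, fun w => ?_⟩
    rw [hc]
    field_simp
    ring
  choose! mv u hmv hV using hV
  choose! ml s c hml hL using hL
  set SD : Bool → ℕ → ℝ := fun β i => dt rz (b (.S β i)) / dt rx (b (.S β i)) with hSD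
  set PX : Col → ℝ := fun q => dt rx (b q) / dt ri (b q) with hPX
  set PH : Col → ℝ := fun q => dt rz (b q) / dt ri (b q) with hPH
  have N1 : ∀ k l g β i, g < K → i < n → (Zp con (.L k l g) (.S β i)).ok (SD β i - s k l g) := by
    intro k l g β i hg hi
    have h1 := hex (.L k l g) (.S β i) (mL hg) (mS hi)
    rw [hL k l g hg, iS hi] at h1
    have hx := xS (β := β) hi
    refine Ent.ok_of_mul (mul_pos (hml k l g hg) hx) ?_
    have e : ml k l g * dt rx (b (.S β i)) * (SD β i - s k l g) =
        ml k l g * (dt rz (b (.S β i)) - s k l g * dt rx (b (.S β i)) - c k l g * 0) := by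
      simp only [hSD]
      field_simp
      ring
    rw [e]
    exact h1
  have N2 : ∀ k l g q, g < K → q ∈ colL n K → 0 < dt ri (b q) →
      (Zp con (.L k l g) q).ok (PH q - s k l g * PX q - c k l g) := by
    intro k l g q hg hq hi
    have h1 := hex (.L k l g) q (mL hg) hq
    rw [hL k l g hg] at h1
    refine Ent.ok_of_mul (mul_pos (hml k l g hg) hi) ?_
    have e : ml k l g * dt ri (b q) * (PH q - s k l g * PX q - c k l g) =
        ml k l g * (dt rz (b q) - s k l g * dt rx (b q) - c k l g * dt ri (b q)) := by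
      simp only [hPH, hPX]
      field_simp
    rw [e]
    exact h1
  have N3 : ∀ β j q, j < n → q ∈ colL n K → 0 < dt ri (b q) →
      (Zp con (.V β j) q).ok (PX q - u β j) := by
    intro β j q hj hq hi
    have h1 := hex (.V β j) q (mV hj) hq
    rw [hV β j hj] at h1
    refine Ent.ok_of_mul (mul_pos (hmv β j hj) hi) ?_
    have e : mv β j * dt ri (b q) * (PX q - u β j) =
        mv β j * (dt rx (b q) - u β j * dt ri (b q)) := by
      simp only [hPX]
      field_simp
    rw [e]
    exact h1
  have N4 : ∀ q, q ∈ colL n K → 0 < dt ri (b q) → (Zp con .X0 q).ok (PX q) := by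
    intro q hq hi
    have h1 := hex .X0 q mX0 hq
    refine Ent.ok_of_mul hi ?_
    have e : dt ri (b q) * PX q = dt rx (b q) := by
      simp only [hPX]
      field_simp
    rw [e]
    exact h1
  have pM : ∀ {g}, g < K → 0 < dt ri (b (.M g)) := fun {g} hg => hex .I (.M g) mI (mM hg)
  have pP : ∀ {l g}, g < K → 0 < dt ri (b (.P l g)) := fun {l g} hg => hex .I (.P l g) mI (mP hg)
  have pQ : ∀ {l g}, g < K → 0 < dt ri (b (.Q l g)) := fun {l g} hg => hex .I (.Q l g) mI (mQ hg)
  have pR : ∀ {β g}, g < K → 0 < dt ri (b (.R β g)) := fun {β g} hg => hex .I (.R β g) mI (mR hg)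
  have tS : ∀ k l g β, g < K → (tabS k β).ok (SD β (si (con g) l) - s k l g) := by
    intro k l g β hg
    have h1 := N1 k l g β (si (con g) l) hg (hn g hg l).1
    simp only [Zp, tabE, codeR, codeC, tab, ceo_self] at h1
    exact h1
  have tM : ∀ k l g, g < K → (tabM k l).ok (PH (.M g) - s k l g * PX (.M g) - c k l g) := by
    intro k l g hg
    have h1 := N2 k l g (.M g) hg (mM hg) (pM hg)
    simp only [Zp, tabE, codeR, codeC, tab, ceo_self] at h1
    exact h1
  have tP : ∀ k l g, g < K → (tabP k).ok (PH (.P l g) - s k l g * PX (.P l g) - c k l g) := by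
    intro k l g hg
    have h1 := N2 k l g (.P l g) hg (mP hg) (pP hg)
    simp only [Zp, tabE, codeR, codeC, tab, ceo_self, if_true] at h1
    exact h1
  have tQ : ∀ k l g, g < K → (tabQ k).ok (PH (.Q l g) - s k l g * PX (.Q l g) - c k l g) := by
    intro k l g hg
    have h1 := N2 k l g (.Q l g) hg (mQ hg) (pQ hg)
    simp only [Zp, tabE, codeR, codeC, tab, ceo_self, if_true] at h1
    exact h1
  have tR : ∀ k l g β, g < K → (tabR k l β (con g).2.2.2).ok
      (PH (.R β g) - s k l g * PX (.R β g) - c k l g) := by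
    intro k l g β hg
    have h1 := N2 k l g (.R β g) hg (mR hg) (pR hg)
    simp only [Zp, tabE, codeR, codeC, tab, ceo_self] at h1
    exact h1
  have xM0 : ∀ g, g < K → PX (.M g) = 0 := fun g hg => N4 (.M g) (mM hg) (pM hg)
  have xR0 : ∀ β g, g < K → PX (.R β g) = 0 := fun β g hg => N4 (.R β g) (mR hg) (pR hg)
  have vP1 : ∀ l g, g < K → PX (.P l g) = u true (ai (con g) l) := by
    intro l g hg
    have h1 := N3 true (ai (con g) l) (.P l g) (hn g hg l).2 (mP hg) (pP hg)
    simp only [Zp, tabE, codeR, codeC, tab, ceo_self, if_true, Ent.ok] at h1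
    linarith
  have vP2 : ∀ l g, g < K → u false (ai (con g) l) < PX (.P l g) := by
    intro l g hg
    have h1 := N3 false (ai (con g) l) (.P l g) (hn g hg l).2 (mP hg) (pP hg)
    simp only [Zp, tabE, codeR, codeC, tab, ceo_self, Bool.false_eq_true, if_false, Ent.ok] at h1
    linarith
  have vQ : ∀ l g, g < K → PX (.Q l g) = u false (ai (con g) l) := by
    intro l g hg
    have h1 := N3 false (ai (con g) l) (.Q l g) (hn g hg l).2 (mQ hg) (pQ hg)
    simp only [Zp, tabE, codeR, codeC, tab, ceo_self, Bool.false_eq_true, if_false, Ent.ok] at h1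
    linarith
  -- the solution
  set X : ℕ → ℝ := fun i => if 0 < SD true i - SD false i then SD true i - SD false i else 1
    with hX
  set Y : ℕ → ℝ := fun j => if 0 < u true j - u false j then u true j - u false j else 1 with hY
  have hXpos : ∀ i, 0 < X i := by
    intro i
    simp only [hX]
    split_ifs with h1
    · exact h1
    · exact one_pos
  have hYpos : ∀ i, 0 < Y i := by
    intro i
    simp only [hY]
    split_ifs with h1
    · exact h1
    · exact one_pos
  have loop : ∀ l g, g < K → c .c l g = PH (stC g l) + X (si (con g) l) * Y (ai (con g) l) := by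
    intro l g hg
    have h1 : SD true (si (con g) l) - s .a l g = 0 := tS .a l g true hg
    have h2 : SD false (si (con g) l) - s .a l g < 0 := tS .a l g false hg
    have h3 : SD false (si (con g) l) - s .b l g = 0 := tS .b l g false hg
    have h4 : SD true (si (con g) l) - s .c l g = 0 := tS .c l g true hg
    have h5 : PH (.P l g) - s .a l g * PX (.P l g) - c .a l g = 0 := tP .a l g hg
    have h6 : PH (.P l g) - s .b l g * PX (.P l g) - c .b l g = 0 := tP .b l g hg
    have h7 : PH (.Q l g) - s .b l g * PX (.Q l g) - c .b l g = 0 := tQ .b l g hg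
    have h8 : PH (.Q l g) - s .c l g * PX (.Q l g) - c .c l g = 0 := tQ .c l g hg
    have h9 : PH (stC g l) = c .a l g := by
      cases l
      · have e : PH (.M g) - s .a .a g * PX (.M g) - c .a .a g = 0 := tM .a .a g hg
        rw [xM0 g hg] at e
        simp only [stC]
        linarith
      · have e : PH (.R false g) - s .a .b g * PX (.R false g) - c .a .b g = 0 :=
          tR .a .b g false hg
        rw [xR0 false g hg] at e
        simp only [stC]
        linarith
      · have e : PH (.M g) - s .a .c g * PX (.M g) - c .a .c g = 0 := tM .a .c g hg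
        rw [xM0 g hg] at e
        simp only [stC]
        linarith
    have h10 := vP1 l g hg
    have h11 := vP2 l g hg
    have h12 := vQ l g hg
    have hx : X (si (con g) l) = SD true (si (con g) l) - SD false (si (con g) l) := by
      simp only [hX]
      rw [if_pos]
      linarith
    have hy : Y (ai (con g) l) = u true (ai (con g) l) - u false (ai (con g) l) := by
      simp only [hY]
      rw [if_pos]
      linarith
    rw [hx, hy, h9]
    have e1 : s .a l g = SD true (si (con g) l) := by linarith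
    have e2 : s .b l g = SD false (si (con g) l) := by linarith
    have e3 : s .c l g = SD true (si (con g) l) := by linarith
    rw [e1, h10] at h5
    rw [e2, h10] at h6
    rw [e2, h12] at h7
    rw [e3, h12] at h8
    linear_combination h5 - h6 + h7 - h8
  refine ⟨X, Y, hXpos, hYpos, fun g hg => ?_⟩
  have l1 := loop .a g hg
  have l2 := loop .b g hg
  have l3 := loop .c g hg
  simp only [stC] at l1 l2 l3
  have r1 : PH (.R false g) - s .c .a g * PX (.R false g) - c .c .a g = 0 := tR .c .a g false hg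
  have r2 : PH (.R true g) - s .c .b g * PX (.R true g) - c .c .b g = 0 := tR .c .b g true hg
  have r3 : PH (.R false g) - s .c .c g * PX (.R false g) - c .c .c g < 0 := tR .c .c g false hg
  have r4 := tR .c .c g true hg
  rw [xR0 false g hg] at r1 r3
  rw [xR0 true g hg] at r2 r4
  have k1 : X (si (con g) .a) * Y (ai (con g) .a) < X (si (con g) .c) * Y (ai (con g) .c) := by
    linarith
  rcases hcg : con g with ⟨p, q, r, t⟩
  rw [hcg] at l1 l2 l3 k1 r4
  simp only [si, ai] at l1 l2 l3 k1
  cases t
  · simp only [tabR, Ent.ok] at r4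
    simp only [BCon.holds]
    linarith
  · simp only [tabR, Ent.ok] at r4
    simp only [BCon.holds]
    exact ⟨k1, by linarith⟩

end Pool.Agent.Lib.ETR
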