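import Pool.Agent.Lib.ETR.LoopsSound
import Pool.Agent.Lib.ETR.BilOf
import Pool.Agent.Lib.MP_065e13_lc.Back

set_option autoImplicit false
set_option linter.unusedSimpArgs false

/-!
# The sign matrix of a formula
-/

namespace Pool.Agent.Lib.ETR

open Pool.Agent.Lib.MP_065e13_lc (SR3)
open Pool.Agent.Lib.MP_0f8b55_lc (Con Fml Tok consOf phaseA_sound phaseA_complete consOf_dist)

/-! ### Sign matrices given by lists -/

theorem SignVec.comp {ι κ ι' κ' : Type} {M : ι → κ → Bool} (h : SignVec M) (f : ι' → ι)
    (g : κ' → κ) : SignVec (fun i j => M (f i) (g j)) := by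
  obtain ⟨a, b, hab⟩ := h
  exact ⟨fun i => a (f i), fun j => b (g j), fun i j => hab (f i) (g j)⟩

theorem sr3_iff {α β : Type} (R : List α) (C : List β) (hR : R ≠ []) (ent : α → β → Bool) :
    SR3 (R.map (fun r => C.map (ent r))) ↔
      SignVec (fun (i : {r : α // r ∈ R}) (j : {c : β // c ∈ C}) => ent i.1 j.1) := by
  set M := R.map (fun r => C.map (ent r)) with hM
  have hlen : M.length = R.length := by simp [hM]
  have hwid : (M.headD []).length = C.length := by
    cases R with
    | nil => exact absurd rfl hR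
    | cons r R => simp [hM]
  have hent : ∀ (i : ℕ) (hi : i < R.length) (j : ℕ) (hj : j < C.length),
      (M.getD i []).getD j false = ent R[i] C[j] := by
    intro i hi j hj
    have h1 : M.getD i [] = C.map (ent R[i]) := by
      rw [List.getD_eq_getElem _ _ (by rw [hlen]; exact hi)]
      simp [hM]
    rw [h1, List.getD_eq_getElem _ _ (by simpa using hj)]
    simp
  rw [SR3, ← signVec_iff]
  constructor
  · intro h
    choose φ hφ using fun (i : {r : α // r ∈ R}) => List.getElem_of_mem i.2
    choose ψ hψ using fun (j : {c : β // c ∈ C}) => List.getElem_of_mem j.2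
    choose hφ1 hφ2 using hφ
    choose hψ1 hψ2 using hψ
    have h1 := h.comp (fun i : {r : α // r ∈ R} => (⟨φ i, by rw [hlen]; exact hφ1 i⟩ :
      Fin M.length)) (fun j : {c : β // c ∈ C} => (⟨ψ j, by rw [hwid]; exact hψ1 j⟩ :
      Fin (M.headD []).length))
    have e : (fun (i : {r : α // r ∈ R}) (j : {c : β // c ∈ C}) => ent i.1 j.1) =
        fun i j => (M.getD (φ i) []).getD (ψ j) false := by
      funext i j
      rw [hent _ (hφ1 i) _ (hψ1 j), hφ2, hψ2]
    rw [e]
    exact h1
  · intro h
    have h1 := h.comp (fun i : Fin M.length => (⟨R[i.1]'(by rw [← hlen]; exact i.2),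
      List.getElem_mem _⟩ : {r : α // r ∈ R})) (fun j : Fin (M.headD []).length =>
      (⟨C[j.1]'(by rw [← hwid]; exact j.2), List.getElem_mem _⟩ : {c : β // c ∈ C}))
    have e : (fun (i : Fin M.length) (j : Fin (M.headD []).length) =>
        (M.getD i []).getD j false) = fun i j => ent (R[i.1]'(by rw [← hlen]; exact i.2))
        (C[j.1]'(by rw [← hwid]; exact j.2)) := by
      funext i j
      rw [hent _ (by rw [← hlen]; exact i.2) _ (by rw [← hwid]; exact j.2)]
    rw [e]
    exact h1

/-! ### The matrix of a list of comparisons -/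

/-- the four members of a cluster -/
def bits {α : Type} (r : α) : List (α × Bool × Bool) :=
  [(r, true, true), (r, true, false), (r, false, true), (r, false, false)]

theorem mem_bits {α : Type} {r : α} {p : α × Bool × Bool} : p ∈ bits r ↔ p.1 = r := by
  obtain ⟨a, σ, τ⟩ := p
  cases σ <;> cases τ <;> simp [bits]

theorem mem_flat_bits {α : Type} {R : List α} {p : α × Bool × Bool} :
    p ∈ R.flatMap bits ↔ p.1 ∈ R := by
  simp only [List.mem_flatMap, mem_bits]
  constructor
  · rintro ⟨r, hr, rfl⟩
    exact hr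
  · intro h
    exact ⟨_, h, rfl⟩

/-- a number above all indices -/
def nIx (L : List BCon) : ℕ :=
  (L.flatMap (fun k => List.range (k.1.1 + k.1.2 + k.2.1.1 + k.2.1.2 + k.2.2.1.1 +
    k.2.2.1.2 + 1))).length

/-- the comparison with a given number -/
def conOf (L : List BCon) (g : ℕ) : BCon := L.getD g ((0, 0), (0, 0), (0, 0), false)

/-- The sign matrix of a list of comparisons. -/
def matB (L : List BCon) : List (List Bool) :=
  ((rowL (nIx L) L.length).flatMap bits).map (fun p =>
    ((colL (nIx L) L.length).flatMap bits).map (clusterN (Zp (conOf L)) p))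

theorem matB_iff {L : List BCon} (hL : ∀ k ∈ L, BCon.dist k) : BSolvable L ↔ SR3 (matB L) := by
  have hn : ∀ g < L.length, ∀ l, si (conOf L g) l < nIx L ∧ ai (conOf L g) l < nIx L := by
    intro g hg l
    have hm : conOf L g ∈ L := by
      rw [conOf, List.getD_eq_getElem _ _ hg]
      exact List.getElem_mem hg
    have h1 := length_le_flatMap (f := fun k : BCon => List.range (k.1.1 + k.1.2 + k.2.1.1 +
      k.2.1.2 + k.2.2.1.1 + k.2.2.1.2 + 1)) hm
    rw [List.length_range] at h1
    cases l <;> simp only [si, ai, nIx] <;> omega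
  have hd : ∀ g < L.length, (conOf L g).dist := by
    intro g hg
    apply hL
    rw [conOf, List.getD_eq_getElem _ _ hg]
    exact List.getElem_mem hg
  have e1 : BSolvable L ↔ ∃ x y : ℕ → ℝ, (∀ i, 0 < x i) ∧ (∀ j, 0 < y j) ∧
      ∀ g < L.length, (conOf L g).holds x y := by
    unfold BSolvable
    constructor
    · rintro ⟨x, y, hx, hy, h⟩
      refine ⟨x, y, hx, hy, fun g hg => h _ ?_⟩
      rw [conOf, List.getD_eq_getElem _ _ hg]
      exact List.getElem_mem hg
    · rintro ⟨x, y, hx, hy, h⟩
      refine ⟨x, y, hx, hy, fun k hk => ?_⟩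
      obtain ⟨g, hg, rfl⟩ := List.getElem_of_mem hk
      have := h g hg
      rwa [conOf, List.getD_eq_getElem _ _ hg] at this
  have e2 : (∃ x y : ℕ → ℝ, (∀ i, 0 < x i) ∧ (∀ j, 0 < y j) ∧
      ∀ g < L.length, (conOf L g).holds x y) ↔
      SignVec (clusterN (Zs (nIx L) L.length (conOf L))) := by
    constructor
    · rintro ⟨x, y, hx, hy, h⟩
      exact loops_complete hx hy hn hd h
    · intro h
      exact loops_sound hn h
  rw [e1, e2, matB, sr3_iff]
  · constructor
    · intro h
      exact h.comp (fun i : {p : Row × Bool × Bool // p ∈ (rowL (nIx L) L.length).flatMap bits} =>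
        ((⟨i.1.1, mem_flat_bits.mp i.2⟩, i.1.2) : {r : Row // r ∈ rowL (nIx L) L.length} ×
          Bool × Bool))
        (fun j : {p : Col × Bool × Bool // p ∈ (colL (nIx L) L.length).flatMap bits} =>
        ((⟨j.1.1, mem_flat_bits.mp j.2⟩, j.1.2) : {r : Col // r ∈ colL (nIx L) L.length} ×
          Bool × Bool))
    · intro h
      exact h.comp (fun i : {r : Row // r ∈ rowL (nIx L) L.length} × Bool × Bool =>
        (⟨(i.1.1, i.2), mem_flat_bits.mpr i.1.2⟩ :
          {p : Row × Bool × Bool // p ∈ (rowL (nIx L) L.length).flatMap bits}))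
        (fun j : {r : Col // r ∈ colL (nIx L) L.length} × Bool × Bool =>
        (⟨(j.1.1, j.2), mem_flat_bits.mpr j.1.2⟩ :
          {p : Col × Bool × Bool // p ∈ (colL (nIx L) L.length).flatMap bits}))
  · simp [rowL, bits]

/-! ### The matrix of a formula -/

/-- The sign matrix of a token sequence. -/
def matOf (l : List Tok) : List (List Bool) := matB (bilOf (consOf l))

theorem matOf_iff (φ : Fml) : (∃ x : ℕ → ℝ, φ.Holds x) ↔ SR3 (matOf φ.toks) := by
  have hd : ∀ k ∈ bilOf (consOf φ.toks), BCon.dist k := bil_dist (consOf_dist _)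
  rw [matOf, ← matB_iff hd, bilOf, ← bil_iff (by simp [nOf]) (below_nOf _)]
  constructor
  · exact phaseA_complete φ
  · rintro ⟨x, h1, hx⟩
    exact phaseA_sound φ ⟨x, by rw [h1]; exact one_ne_zero, hx⟩

end Pool.Agent.Lib.ETR
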