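import Pool.Agent.Lib.ETR.Mat
import Pool.Agent.Lib.ETR.BilPT

set_option autoImplicit false
set_option linter.unusedSimpArgs false

/-!
# The sign matrix of a formula is computed in polynomial time
-/

namespace Pool.Agent.Lib.ETR

open Pool.Agent.Lib.PolyTime
open Pool.Agent.Lib.MP_0f8b55_lc (Con Fml Tok consOf pt_consOf)

variable {α : Type} [Enc α]

/-! ### Finite types -/

/-- numbers of names -/
def T3.num : T3 → ℕ
  | .a => 0
  | .b => 1
  | .c => 2

/-- numbers of kinds -/
def RK.num : RK → ℕ × Bool × ℕ × ℕ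
  | .x0 => (0, false, 0, 0)
  | .inf => (1, false, 0, 0)
  | .v b => (2, b, 0, 0)
  | .l k k' s => (3, s, k.num, k'.num)

/-- numbers of kinds -/
def CK.num : CK → ℕ × Bool × ℕ
  | .y => (0, false, 0)
  | .s b => (1, b, 0)
  | .m => (2, false, 0)
  | .p l => (3, false, l.num)
  | .q l => (4, false, l.num)
  | .r b => (5, b, 0)

theorem T3.num_injective : Function.Injective T3.num := by
  intro a b h
  cases a <;> cases b <;> simp_all [T3.num]

theorem RK.num_injective : Function.Injective RK.num := by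
  intro a b h
  rcases a with _ | _ | b' | ⟨k, l, s⟩ <;> rcases b with _ | _ | b'' | ⟨k', l', s'⟩ <;>
    simp_all [RK.num, T3.num_injective.eq_iff]

theorem CK.num_injective : Function.Injective CK.num := by
  intro a b h
  rcases a with _ | b' | _ | l | l | b' <;> rcases b with _ | b'' | _ | l' | l' | b'' <;>
    simp_all [CK.num, T3.num_injective.eq_iff]

instance encRK : Enc RK := Enc.ofInj RK.num RK.num_injective
instance encCK : Enc CK := Enc.ofInj CK.num CK.num_injective

/-- numbers of orders -/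
def ordNum : Ordering → ℕ
  | .lt => 0
  | .eq => 1
  | .gt => 2

theorem ordNum_injective : Function.Injective ordNum := by
  intro a b h
  cases a <;> cases b <;> simp_all [ordNum]

instance encOrd : Enc Ordering := Enc.ofInj ordNum ordNum_injective

instance fintypeOrd : Fintype Ordering where
  elems := {.lt, .eq, .gt}
  complete := by intro x; cases x <;> simp

theorem pt_compare {f g : α → ℕ} (hf : PT f) (hg : PT g) : PT (fun a => compare (f a) (g a)) := by
  refine (PT.ite (c := fun a => f a < g a) (f := fun _ => Ordering.lt)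
    (g := fun a => if f a = g a then Ordering.eq else Ordering.gt) (PT.lt hf hg) (PT.const _)
    (PT.ite (PT.eq hf hg) (PT.const _) (PT.const _))).congr (fun a => ?_)
  rcases lt_trichotomy (f a) (g a) with h | h | h
  · rw [if_pos h, compare_lt_iff_lt.mpr h]
  · rw [if_neg (by omega), if_pos h, compare_eq_iff_eq.mpr h]
  · rw [if_neg (by omega), if_neg (by omega), compare_gt_iff_gt.mpr h]

/-! ### Codes of rows and columns -/

/-- the entry, as a function of the finite data -/
def cellF (x : (RK × CK) × (Ordering × Ordering × Ordering) × (Bool × Bool) × (Bool × Bool)) :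
    Bool :=
  match tab x.1.1 x.1.2 x.2.1.1 x.2.1.2.1 x.2.1.2.2 with
  | .sg b => b
  | .r1 => x.2.2.1.1
  | .r2 => x.2.2.1.2
  | .c1 => x.2.2.2.1
  | .c2 => x.2.2.2.2

/-- the entry of two codes -/
def cell (r : (RK × ℕ × ℕ × ℕ) × Bool × Bool) (c : (CK × ℕ × ℕ × ℕ) × Bool × Bool) : Bool :=
  cellF ((r.1.1, c.1.1), (compare c.1.2.1 r.1.2.1, compare c.1.2.2.1 r.1.2.2.1,
    compare c.1.2.2.2 r.1.2.2.2), r.2, c.2)

theorem clusterN_eq (con : ℕ → BCon) (p : Row × Bool × Bool) (q : Col × Bool × Bool) :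
    clusterN (Zp con) p q = cell (codeR con p.1, p.2) (codeC con q.1, q.2) := rfl

theorem pt_cell : PT (fun x : ((RK × ℕ × ℕ × ℕ) × Bool × Bool) ×
    ((CK × ℕ × ℕ × ℕ) × Bool × Bool) => cell x.1 x.2) := by
  refine (PT.ofFintype cellF).comp ?_
  exact (PT.fst.fst'.fst'.pair PT.snd.fst'.fst').pair
    (((pt_compare PT.snd.fst'.snd'.fst' PT.fst.fst'.snd'.fst').pair
      ((pt_compare PT.snd.fst'.snd'.snd'.fst' PT.fst.fst'.snd'.snd'.fst').pair
        (pt_compare PT.snd.fst'.snd'.snd'.snd' PT.fst.fst'.snd'.snd'.snd'))).pair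
      (PT.fst.snd'.pair PT.snd.snd'))

theorem pt_bits {f : α → List ((RK × ℕ × ℕ × ℕ))} (hf : PT f) :
    PT (fun a => (f a).flatMap bits) := by
  refine PT.flatMap (g := fun _ r => bits r) hf ?_
  exact PT.cons (PT.snd.pair (PT.const _)) (PT.cons (PT.snd.pair (PT.const _))
    (PT.cons (PT.snd.pair (PT.const _)) (PT.cons (PT.snd.pair (PT.const _)) (PT.const []))))

theorem pt_bits' {f : α → List ((CK × ℕ × ℕ × ℕ))} (hf : PT f) :
    PT (fun a => (f a).flatMap bits) := by
  refine PT.flatMap (g := fun _ r => bits r) hf ?_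
  exact PT.cons (PT.snd.pair (PT.const _)) (PT.cons (PT.snd.pair (PT.const _))
    (PT.cons (PT.snd.pair (PT.const _)) (PT.cons (PT.snd.pair (PT.const _)) (PT.const []))))

/-- the codes of the rows -/
def rowC (L : List BCon) : List (RK × ℕ × ℕ × ℕ) :=
  [(.x0, 0, 0, 0), (.inf, 0, 0, 0)] ++
    ((List.range (nIx L)).flatMap (fun j => [(.v true, 0, 0, j), (.v false, 0, 0, j)]) ++
    L.zipIdx.flatMap (fun q => t3s.flatMap (fun k => t3s.map (fun l =>
      (.l k l q.1.2.2.2, q.2, si q.1 l, ai q.1 l)))))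

/-- the codes of the columns -/
def colC (L : List BCon) : List (CK × ℕ × ℕ × ℕ) :=
  [(.y, 0, 0, 0)] ++
    ((List.range (nIx L)).flatMap (fun i => [(.s true, 0, i, 0), (.s false, 0, i, 0)]) ++
    L.zipIdx.flatMap (fun q => [(.m, q.2, 0, 0), (.r true, q.2, 0, 0), (.r false, q.2, 0, 0)] ++
      t3s.flatMap (fun l => [(.p l, q.2, si q.1 l, ai q.1 l), (.q l, q.2, si q.1 l, ai q.1 l)])))

theorem zipIdx_flatMap {γ : Type} (L : List BCon) (F : BCon × ℕ → List γ) :
    L.zipIdx.flatMap F = (List.range L.length).flatMap (fun g => F (conOf L g, g)) := by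
  have : L.zipIdx = (List.range L.length).map (fun g => (conOf L g, g)) := by
    apply List.ext_getElem
    · simp
    · intro i h1 h2
      have h3 : i < L.length := by simpa using h1
      simp only [List.getElem_zipIdx, List.getElem_map, List.getElem_range, conOf,
        List.getD_eq_getElem _ _ h3, Nat.zero_add]
  rw [this, List.flatMap_map]

theorem rowC_eq (L : List BCon) : (rowL (nIx L) L.length).map (codeR (conOf L)) = rowC L := by
  rw [rowL, rowC, zipIdx_flatMap, List.map_append, List.map_append, List.map_flatMap,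
    List.map_flatMap]
  rfl

theorem colC_eq (L : List BCon) : (colL (nIx L) L.length).map (codeC (conOf L)) = colC L := by
  rw [colL, colC, zipIdx_flatMap, List.map_append, List.map_append, List.map_flatMap,
    List.map_flatMap]
  rfl

theorem pt_nIx : PT nIx :=
  PT.length (PT.flatMap (g := fun (_ : List BCon) (k : BCon) =>
    List.range (k.1.1 + k.1.2 + k.2.1.1 + k.2.1.2 + k.2.2.1.1 + k.2.2.1.2 + 1)) PT.id (PT.range
      ((((((PT.snd.fst'.fst'.add PT.snd.fst'.snd').add PT.snd.snd'.fst'.fst').add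
        PT.snd.snd'.fst'.snd').add PT.snd.snd'.snd'.fst'.fst').add
        PT.snd.snd'.snd'.fst'.snd').addConst 1)))

theorem pt_si {f : α → BCon} (hf : PT f) (l : T3) : PT (fun a => si (f a) l) := by
  cases l
  · exact hf.fst'.fst'
  · exact hf.snd'.fst'.fst'
  · exact hf.snd'.snd'.fst'.fst'

theorem pt_ai {f : α → BCon} (hf : PT f) (l : T3) : PT (fun a => ai (f a) l) := by
  cases l
  · exact hf.fst'.snd'
  · exact hf.snd'.fst'.snd'
  · exact hf.snd'.snd'.fst'.snd'

theorem pt_l (k l : T3) {f : α → Bool} (hf : PT f) : PT (fun a => RK.l k l (f a)) :=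
  (PT.ofFintype (fun b : Bool => RK.l k l b)).comp hf

theorem pt_rowC : PT rowC := by
  refine PT.append (PT.const _) (PT.append ?_ ?_)
  · refine PT.flatMap (g := fun (_ : List BCon) (j : ℕ) =>
      [((.v true, 0, 0, j) : RK × ℕ × ℕ × ℕ), (.v false, 0, 0, j)]) (PT.range pt_nIx) ?_
    exact PT.cons ((PT.const _).pair ((PT.const _).pair ((PT.const _).pair PT.snd)))
      (PT.cons ((PT.const _).pair ((PT.const _).pair ((PT.const _).pair PT.snd))) (PT.const []))
  · refine PT.flatMap (g := fun (_ : List BCon) (q : BCon × ℕ) => t3s.flatMap (fun k =>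
      t3s.map (fun l => ((.l k l q.1.2.2.2, q.2, si q.1 l, ai q.1 l) : RK × ℕ × ℕ × ℕ))))
      (PT.zipIdx PT.id) ?_
    refine PT.flatMapConst t3s (f := fun (k : T3) (x : List BCon × BCon × ℕ) =>
      t3s.map (fun l => ((.l k l x.2.1.2.2.2, x.2.2, si x.2.1 l, ai x.2.1 l) :
        RK × ℕ × ℕ × ℕ))) (fun k _ => ?_)
    refine PT.mapConst t3s (f := fun (l : T3) (x : List BCon × BCon × ℕ) =>
      ((.l k l x.2.1.2.2.2, x.2.2, si x.2.1 l, ai x.2.1 l) : RK × ℕ × ℕ × ℕ)) (fun l _ => ?_)
    exact (pt_l k l PT.snd.fst'.snd'.snd'.snd').pair (PT.snd.snd'.pair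
      ((pt_si PT.snd.fst' l).pair (pt_ai PT.snd.fst' l)))

theorem pt_colC : PT colC := by
  refine PT.append (PT.const _) (PT.append ?_ ?_)
  · refine PT.flatMap (g := fun (_ : List BCon) (i : ℕ) =>
      [((.s true, 0, i, 0) : CK × ℕ × ℕ × ℕ), (.s false, 0, i, 0)]) (PT.range pt_nIx) ?_
    exact PT.cons ((PT.const _).pair ((PT.const _).pair (PT.snd.pair (PT.const _))))
      (PT.cons ((PT.const _).pair ((PT.const _).pair (PT.snd.pair (PT.const _)))) (PT.const []))
  · refine PT.flatMap (g := fun (_ : List BCon) (q : BCon × ℕ) =>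
      [((.m, q.2, 0, 0) : CK × ℕ × ℕ × ℕ), (.r true, q.2, 0, 0), (.r false, q.2, 0, 0)] ++
      t3s.flatMap (fun l => [((.p l, q.2, si q.1 l, ai q.1 l) : CK × ℕ × ℕ × ℕ),
        (.q l, q.2, si q.1 l, ai q.1 l)])) (PT.zipIdx PT.id) ?_
    refine PT.append ?_ ?_
    · exact PT.cons ((PT.const _).pair (PT.snd.snd'.pair (PT.const _)))
        (PT.cons ((PT.const _).pair (PT.snd.snd'.pair (PT.const _)))
          (PT.cons ((PT.const _).pair (PT.snd.snd'.pair (PT.const _))) (PT.const [])))
    · refine PT.flatMapConst t3s (f := fun (l : T3) (x : List BCon × BCon × ℕ) =>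
        [((.p l, x.2.2, si x.2.1 l, ai x.2.1 l) : CK × ℕ × ℕ × ℕ),
        (.q l, x.2.2, si x.2.1 l, ai x.2.1 l)]) (fun l _ => ?_)
      exact PT.cons ((PT.const _).pair (PT.snd.snd'.pair
          ((pt_si PT.snd.fst' l).pair (pt_ai PT.snd.fst' l))))
        (PT.cons ((PT.const _).pair (PT.snd.snd'.pair
          ((pt_si PT.snd.fst' l).pair (pt_ai PT.snd.fst' l)))) (PT.const []))

/-- the matrix, in terms of codes -/
def matC (L : List BCon) : List (List Bool) :=
  ((rowC L).flatMap bits).map (fun r => ((colC L).flatMap bits).map (cell r))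

theorem matB_eq (L : List BCon) : matB L = matC L := by
  have h1 : (rowC L).flatMap bits = ((rowL (nIx L) L.length).flatMap bits).map
      (fun p => (codeR (conOf L) p.1, p.2)) := by
    rw [← rowC_eq, List.flatMap_map, List.map_flatMap]
    rfl
  have h2 : (colC L).flatMap bits = ((colL (nIx L) L.length).flatMap bits).map
      (fun p => (codeC (conOf L) p.1, p.2)) := by
    rw [← colC_eq, List.flatMap_map, List.map_flatMap]
    rfl
  rw [matC, h1, h2, matB, List.map_map]
  refine List.map_congr_left (fun p _ => ?_)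
  simp only [Function.comp_apply, List.map_map]
  rfl

theorem pt_matB : PT matB := by
  have h : PT matC := by
    refine PT.map (g := fun (L : List BCon) r => ((colC L).flatMap bits).map (cell r))
      (pt_bits pt_rowC) ?_
    refine PT.map (f := fun x : List BCon × ((RK × ℕ × ℕ × ℕ) × Bool × Bool) =>
      (colC x.1).flatMap bits) (g := fun x c => cell x.2 c)
      (pt_bits' (pt_colC.comp PT.fst)) ?_
    exact pt_cell.comp (PT.fst.snd'.pair PT.snd)
  exact h.congr (fun L => (matB_eq L).symm)

/-- The sign matrix of a formula is computed in polynomial time. -/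
theorem pt_matOf : PT (fun φ : Fml => matOf φ.toks) := by
  have h0 : PT (fun φ : Fml => φ.toks) := PT.of_enc_eq (fun _ => rfl)
  exact pt_matB.comp (pt_bilOf.comp (pt_consOf.comp h0))

end Pool.Agent.Lib.ETR
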