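import Mathlib

set_option autoImplicit false

/-!
# Sizes (submultiplicative norms) of polynomials and determinants
-/

namespace Pool.Agent.Lib.ETR

open Polynomial

/-- A submultiplicative size on a ring. -/
structure IsSize {R : Type*} [CommRing R] (ν : R → ℝ) : Prop where
  zero : ν 0 = 0
  one : ν 1 ≤ 1
  neg : ∀ a, ν (-a) = ν a
  add : ∀ a b, ν (a + b) ≤ ν a + ν b
  mul : ∀ a b, ν (a * b) ≤ ν a * ν b
  nonneg : ∀ a, 0 ≤ ν a

theorem isSize_int : IsSize (fun a : ℤ => |(a : ℝ)|) where
  zero := by simp
  one := by simp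
  neg := by simp
  add a b := by push_cast; exact abs_add_le _ _
  mul a b := by push_cast; rw [abs_mul]
  nonneg a := abs_nonneg _

theorem isSize_real : IsSize (fun a : ℝ => |a|) where
  zero := by simp
  one := by simp
  neg := by simp
  add a b := abs_add_le _ _
  mul a b := by rw [abs_mul]
  nonneg a := abs_nonneg _

/-- The sum of the sizes of the coefficients. -/
noncomputable def polySize {R : Type*} [CommRing R] (ν : R → ℝ) (p : R[X]) : ℝ :=
  ∑ i ∈ p.support, ν (p.coeff i)

section

variable {R : Type*} [CommRing R] {ν : R → ℝ} (h : IsSize ν)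

include h

theorem IsSize.sum {ι : Type*} (s : Finset ι) (f : ι → R) : ν (∑ i ∈ s, f i) ≤ ∑ i ∈ s, ν (f i) := by
  classical
  induction s using Finset.induction_on with
  | empty => simp [h.zero]
  | insert a s ha ih =>
    rw [Finset.sum_insert ha, Finset.sum_insert ha]
    exact (h.add _ _).trans (by linarith)

theorem IsSize.prod {ι : Type*} (s : Finset ι) (f : ι → R) : ν (∏ i ∈ s, f i) ≤ ∏ i ∈ s, ν (f i) := by
  classical
  induction s using Finset.induction_on with
  | empty => simpa using h.one
  | insert a s ha ih =>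
    rw [Finset.prod_insert ha, Finset.prod_insert ha]
    exact (h.mul _ _).trans (mul_le_mul_of_nonneg_left ih (h.nonneg _))

theorem IsSize.polySize_eq {p : R[X]} {s : Finset ℕ} (hs : p.support ⊆ s) :
    polySize ν p = ∑ i ∈ s, ν (p.coeff i) := by
  apply Finset.sum_subset hs
  intro i _ hi
  rw [Polynomial.notMem_support_iff.mp hi, h.zero]

theorem IsSize.polySize_add (p q : R[X]) : polySize ν (p + q) ≤ polySize ν p + polySize ν q := by
  classical
  rw [h.polySize_eq (s := p.support ∪ q.support) Polynomial.support_add,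
    h.polySize_eq (s := p.support ∪ q.support) (p := p) Finset.subset_union_left,
    h.polySize_eq (s := p.support ∪ q.support) (p := q) Finset.subset_union_right,
    ← Finset.sum_add_distrib]
  apply Finset.sum_le_sum
  intro i _
  rw [Polynomial.coeff_add]
  exact h.add _ _

theorem IsSize.polySize_nonneg (p : R[X]) : 0 ≤ polySize ν p :=
  Finset.sum_nonneg (fun _ _ => h.nonneg _)

theorem IsSize.polySize_sum {ι : Type*} (s : Finset ι) (f : ι → R[X]) :
    polySize ν (∑ i ∈ s, f i) ≤ ∑ i ∈ s, polySize ν (f i) := by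
  classical
  induction s using Finset.induction_on with
  | empty => simp [polySize]
  | insert a s ha ih =>
    rw [Finset.sum_insert ha, Finset.sum_insert ha]
    exact (h.polySize_add _ _).trans (by linarith)

theorem IsSize.polySize_monomial_mul (n : ℕ) (a : R) (q : R[X]) :
    polySize ν (monomial n a * q) ≤ ν a * polySize ν q := by
  classical
  have hsub : (monomial n a * q).support ⊆ q.support.map (addLeftEmbedding n) := by
    intro i hi
    rw [Polynomial.mem_support_iff] at hi
    rw [Finset.mem_map]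
    by_cases hn : n ≤ i
    · obtain ⟨j, rfl⟩ := Nat.exists_eq_add_of_le hn
      refine ⟨j, ?_, rfl⟩
      rw [Polynomial.mem_support_iff]
      intro h0
      apply hi
      rw [add_comm n j, Polynomial.coeff_monomial_mul, h0, mul_zero]
    · exfalso
      apply hi
      rw [← Polynomial.C_mul_X_pow_eq_monomial, mul_assoc, Polynomial.coeff_C_mul, mul_comm (X ^ n),
        Polynomial.coeff_mul_X_pow', if_neg hn, mul_zero]
  rw [h.polySize_eq hsub, Finset.sum_map, polySize, Finset.mul_sum]
  apply Finset.sum_le_sum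
  intro j _
  simp only [addLeftEmbedding_apply]
  rw [add_comm n j, Polynomial.coeff_monomial_mul]
  exact h.mul _ _

theorem IsSize.polySize_mul (p q : R[X]) : polySize ν (p * q) ≤ polySize ν p * polySize ν q := by
  conv_lhs => rw [p.as_sum_support, Finset.sum_mul]
  refine (h.polySize_sum _ _).trans ?_
  rw [polySize, Finset.sum_mul]
  exact Finset.sum_le_sum (fun i _ => h.polySize_monomial_mul _ _ _)

theorem IsSize.polySize_C (a : R) : polySize ν (C a) ≤ ν a := by
  classical
  rw [h.polySize_eq (s := {0})]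
  · simp
  · intro i hi
    by_contra hne
    rw [Finset.mem_singleton] at hne
    rw [Polynomial.mem_support_iff, Polynomial.coeff_C, if_neg hne] at hi
    exact hi rfl

theorem IsSize.polySize_monomial (n : ℕ) (a : R) : polySize ν (monomial n a) ≤ ν a := by
  classical
  rw [h.polySize_eq (s := {n})]
  · simp
  · intro i hi
    by_contra hne
    rw [Finset.mem_singleton] at hne
    rw [Polynomial.mem_support_iff, Polynomial.coeff_monomial, if_neg (fun h => hne h.symm)] at hi
    exact hi rfl

/-- The size of polynomials is a size. -/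
theorem IsSize.poly : IsSize (polySize ν) where
  zero := by simp [polySize]
  one := by
    have := h.polySize_C 1
    rw [map_one] at this
    exact this.trans h.one
  neg p := by
    unfold polySize
    rw [Polynomial.support_neg]
    exact Finset.sum_congr rfl (fun i _ => by rw [Polynomial.coeff_neg, h.neg])
  add := h.polySize_add
  mul := h.polySize_mul
  nonneg := h.polySize_nonneg

theorem IsSize.det {n : Type*} [Fintype n] [DecidableEq n] (A : Matrix n n R) (E : ℝ)
    (hE : ∀ i j, ν (A i j) ≤ E) :
    ν A.det ≤ (Fintype.card n).factorial * E ^ (Fintype.card n) := by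
  classical
  rw [Matrix.det_apply]
  refine (h.sum _ _).trans ?_
  have hterm : ∀ σ : Equiv.Perm n, ν (Equiv.Perm.sign σ • ∏ i, A (σ i) i) ≤
      E ^ (Fintype.card n) := by
    intro σ
    have h1 : ν (Equiv.Perm.sign σ • ∏ i, A (σ i) i) = ν (∏ i, A (σ i) i) := by
      rcases Int.units_eq_one_or (Equiv.Perm.sign σ) with h' | h' <;> rw [h']
      · rw [one_smul]
      · rw [Units.neg_smul, one_smul, h.neg]
    rw [h1]
    refine (h.prod _ _).trans ?_
    calc ∏ i, ν (A (σ i) i) ≤ ∏ _i : n, E :=
          Finset.prod_le_prod (fun i _ => h.nonneg _) (fun i _ => hE _ _)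
      _ = E ^ (Fintype.card n) := by rw [Finset.prod_const, Finset.card_univ]
  calc ∑ σ : Equiv.Perm n, ν (Equiv.Perm.sign σ • ∏ i, A (σ i) i)
      ≤ ∑ _σ : Equiv.Perm n, E ^ (Fintype.card n) := Finset.sum_le_sum (fun σ _ => hterm σ)
    _ = (Fintype.card n).factorial * E ^ (Fintype.card n) := by
        rw [Finset.sum_const, Finset.card_univ, Fintype.card_perm, nsmul_eq_mul]

end

/-- The value of an integer polynomial beyond its Cauchy bound is at least one. -/
theorem one_le_abs_eval (q : ℤ[X]) (hq : q ≠ 0) (v : ℝ)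
    (hv : polySize (fun a : ℤ => |(a : ℝ)|) q + 1 ≤ v) : 1 ≤ |aeval v q| := by
  classical
  set L := polySize (fun a : ℤ => |(a : ℝ)|) q with hL
  have hL0 : 0 ≤ L := isSize_int.polySize_nonneg q
  have hv1 : 1 ≤ v := by linarith
  set d := q.natDegree with hd
  have hlead : 1 ≤ |((q.coeff d : ℤ) : ℝ)| := by
    have h1 : q.coeff d ≠ 0 := by
      rw [hd]; exact Polynomial.leadingCoeff_ne_zero.mpr hq
    have h2 : 1 ≤ |q.coeff d| := Int.one_le_abs h1
    exact_mod_cast h2
  rcases Nat.eq_zero_or_pos d with h0 | hpos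
  · have hC : q = C (q.coeff 0) := Polynomial.eq_C_of_natDegree_eq_zero (by omega)
    rw [hC, aeval_C]
    rw [h0] at hlead
    simpa using hlead
  · have hsum : aeval v q = (∑ i ∈ Finset.range d, ((q.coeff i : ℤ) : ℝ) * v ^ i) +
        ((q.coeff d : ℤ) : ℝ) * v ^ d := by
      rw [Polynomial.aeval_eq_sum_range, ← hd, Finset.sum_range_succ]
      simp
    have hlow : |∑ i ∈ Finset.range d, ((q.coeff i : ℤ) : ℝ) * v ^ i| ≤
        (L - |((q.coeff d : ℤ) : ℝ)|) * v ^ (d - 1) := by
      have e1 : L = (∑ i ∈ Finset.range d, |((q.coeff i : ℤ) : ℝ)|) +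
          |((q.coeff d : ℤ) : ℝ)| := by
        rw [hL, isSize_int.polySize_eq (s := Finset.range (d + 1)), Finset.sum_range_succ]
        intro i hi
        rw [Finset.mem_range]
        exact Nat.lt_succ_of_le (Polynomial.le_natDegree_of_mem_supp i hi)
      rw [e1, add_sub_cancel_right]
      refine (Finset.abs_sum_le_sum_abs _ _).trans ?_
      rw [Finset.sum_mul]
      apply Finset.sum_le_sum
      intro i hi
      rw [Finset.mem_range] at hi
      rw [abs_mul, abs_of_nonneg (pow_nonneg (by linarith) i : (0:ℝ) ≤ v ^ i)]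
      exact mul_le_mul_of_nonneg_left (pow_le_pow_right₀ hv1 (by omega)) (abs_nonneg _)
    have hvd : v ^ d = v * v ^ (d - 1) := by
      rw [← pow_succ', Nat.sub_add_cancel hpos]
    have hp : 1 ≤ v ^ (d - 1) := one_le_pow₀ hv1
    have hmain : |((q.coeff d : ℤ) : ℝ) * v ^ d| = |((q.coeff d : ℤ) : ℝ)| * (v * v ^ (d - 1)) := by
      rw [abs_mul, hvd, abs_of_nonneg (by positivity : (0:ℝ) ≤ v * v ^ (d - 1))]
    rw [hsum]
    have h3 : |((q.coeff d : ℤ) : ℝ) * v ^ d| -
        |∑ i ∈ Finset.range d, ((q.coeff i : ℤ) : ℝ) * v ^ i| ≤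
        |(∑ i ∈ Finset.range d, ((q.coeff i : ℤ) : ℝ) * v ^ i) + ((q.coeff d : ℤ) : ℝ) * v ^ d| := by
      have := abs_sub_abs_le_abs_sub (((q.coeff d : ℤ) : ℝ) * v ^ d)
        (-(∑ i ∈ Finset.range d, ((q.coeff i : ℤ) : ℝ) * v ^ i))
      rw [abs_neg, sub_neg_eq_add, add_comm (((q.coeff d : ℤ) : ℝ) * v ^ d)] at this
      exact this
    set a := |((q.coeff d : ℤ) : ℝ)| with ha
    set P := v ^ (d - 1) with hP
    have h4 : 1 ≤ a * (v * P) - (L - a) * P := by
      have h5 : a * (v * P) - (L - a) * P = (a * v - L + a) * P := by ring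
      rw [h5]
      have h6 : 1 ≤ a * v - L + a := by nlinarith
      nlinarith
    linarith [hmain]

end Pool.Agent.Lib.ETR
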